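import Mathlib

/-!
CIS graphs, circulants, digits.
-/

namespace Pool.Agent.Cis

/-- Every maximal clique meets every maximal stable set. -/
def IsCIS {V : Type} (G : SimpleGraph V) : Prop :=
  ∀ C S : Set V, Maximal G.IsClique C → Maximal G.IsIndepSet S → (C ∩ S).Nonempty

section
variable {n : ℕ} [NeZero n]

/-- `D` is a connection set. -/
def Conn (D : Set (ZMod n)) : Prop := 0 ∉ D ∧ ∀ d ∈ D, -d ∈ D

lemma circ_adj {D : Set (ZMod n)} (hD : Conn D) (x y : ZMod n) :
    (SimpleGraph.circulantGraph D).Adj x y ↔ x - y ∈ D := by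
  rw [SimpleGraph.circulantGraph_adj]
  constructor
  · rintro ⟨_, h | h⟩
    · exact h
    · have := hD.2 _ h
      rwa [neg_sub] at this
  · intro h
    refine ⟨?_, Or.inl h⟩
    rintro rfl
    rw [sub_self] at h
    exact hD.1 h

/-- `D` is a union of classes of elements with the same greatest common divisor with `n`. -/
def GcdClosed (D : Set (ZMod n)) : Prop :=
  ∀ x y : ZMod n, Nat.gcd x.val n = Nat.gcd y.val n → (x ∈ D ↔ y ∈ D)

/-- Tilings of the cyclic group. -/
def Tiling (C T : Finset (ZMod n)) : Prop :=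
  C.card * T.card = n ∧
    ∀ c ∈ C, ∀ c' ∈ C, ∀ t ∈ T, ∀ t' ∈ T, c + t = c' + t' → c = c' ∧ t = t'

end

/-- The levels: the prime powers dividing `n`. -/
def levels (n : ℕ) : Finset ℕ := n.divisors.filter IsPrimePow

/-- The levels as a type. -/
abbrev Lv (n : ℕ) := {q : ℕ // q ∈ levels n}

section
variable {n : ℕ} [NeZero n]

/-- The digit of `z` at the level `q = p ^ (j + 1)`: the coefficient of `p ^ j` in the expansion
of `z` in base `p`. -/
def dig (q : ℕ) (z : ZMod n) : ℕ := z.val % q / (q / q.minFac)

/-- The set of levels at which `x` and `y` have different digits. -/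
def dset (x y : ZMod n) : Finset (Lv n) := Finset.univ.filter fun q => dig q.1 x ≠ dig q.1 y

/-- The adjacency of two vertices with difference set `S`. -/
def ft (D : Set (ZMod n)) (S : Finset (Lv n)) : Prop := ∃ x y : ZMod n, x - y ∈ D ∧ dset x y = S

end

end Pool.Agent.Cis
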