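import Pool.Agent.H.MP_1bdfda_lc.Pat
import Pool.Agent.H.MP_1bdfda_lc.Circ

/-!
The elementary form of the conditions, in terms of sets of levels.
-/

namespace Pool.Agent.Cis

variable {n : ℕ} [NeZero n]

/-- the connection set of the complementary graph -/
def co (D : Set (ZMod n)) : Set (ZMod n) := {x | x ≠ 0 ∧ x ∉ D}

/-- adding a level keeps the type of the set, if the level has the same type -/
def Mono (D : Set (ZMod n)) : Prop :=
  ∀ (S : Finset (Lv n)) (q : Lv n), S.Nonempty →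
    (ft D {q} → ft D S → ft D (insert q S)) ∧ (¬ ft D {q} → ¬ ft D S → ¬ ft D (insert q S))

/-- `a` and `c` are joined -/
def JE (D : Set (ZMod n)) (a c : Lv n) : Prop :=
  ∃ b d : Lv n, ¬ ft D {b} ∧ ¬ ft D {d} ∧ ft D {a, b} ∧ ¬ ft D {a, d} ∧ ft D {c, d} ∧
    ¬ ft D {c, b} ∧ ft D {a, c, b, d}

/-- the formula -/
def FormE (D : Set (ZMod n)) (S : Finset (Lv n)) : Prop :=
  (∃ a ∈ S, ft D {a} ∧ ∀ b ∈ S, ¬ ft D {b} → ft D {a, b}) ∨
    ∃ a ∈ S, ∃ c ∈ S, ft D {a} ∧ ft D {c} ∧ JE D a c ∧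
      ∀ b ∈ S, ¬ ft D {b} → ft D {a, b} ∨ ft D {c, b}

/-- the condition on triples -/
def TripE (D : Set (ZMod n)) : Prop :=
  ∀ a c c' : Lv n, ft D {a} → ft D {c} → ft D {c'} → c ≠ c' → JE D a c → JE D a c' →
    (∀ b, ¬ ft D {b} → ft D {c, b} → ft D {a, b} ∨ ft D {c', b}) ∨
      (∀ b, ¬ ft D {b} → ft D {c', b} → ft D {a, b} ∨ ft D {c, b}) ∨
      ((∀ b, ¬ ft D {b} → ft D {a, b} → ft D {c, b} ∨ ft D {c', b}) ∧ JE D c c')

/-- one half of the conditions -/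
def GoodE (D : Set (ZMod n)) : Prop :=
  (∀ S : Finset (Lv n), S.Nonempty → (ft D S ↔ FormE D S)) ∧ TripE D

end Pool.Agent.Cis
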