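import Pool.Agent.H.MP_1bdfda_lc.Circ

/-!
The digits of the elements of `ZMod n` at the prime powers dividing `n`.
-/

namespace Pool.Agent.Cis

section
variable {n : ℕ} [NeZero n]

omit [NeZero n] in
private lemma lv_dvd (q : Lv n) : q.1 ∣ n :=
  (Nat.mem_divisors.mp (Finset.mem_filter.mp q.2).1).1

omit [NeZero n] in
private lemma lv_form (q : Lv n) : ∃ p j, p.Prime ∧ q.1 = p ^ (j + 1) := by
  have h := (Finset.mem_filter.mp q.2).2
  rw [isPrimePow_nat_iff] at h
  obtain ⟨p, k, hp, hk, h⟩ := h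
  exact ⟨p, k - 1, hp, by rw [← h]; congr 1; omega⟩

private lemma mem_lv {p k : ℕ} (hp : p.Prime) (h : p ^ (k + 1) ∣ n) : p ^ (k + 1) ∈ levels n := by
  rw [levels, Finset.mem_filter, Nat.mem_divisors]
  exact ⟨⟨h, NeZero.ne n⟩, hp.isPrimePow.pow (Nat.succ_ne_zero k)⟩

private lemma pow_div_minFac {p j : ℕ} (hp : p.Prime) :
    p ^ (j + 1) / (p ^ (j + 1)).minFac = p ^ j := by
  rw [hp.pow_minFac (Nat.succ_ne_zero j), pow_succ, Nat.mul_div_cancel _ hp.pos]

omit [NeZero n] in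
private lemma dig_pow {p j : ℕ} (hp : p.Prime) (z : ZMod n) :
    dig (p ^ (j + 1)) z = z.val % p ^ (j + 1) / p ^ j := by
  rw [dig, pow_div_minFac hp]

lemma dig_lt (q : Lv n) (z : ZMod n) : dig q.1 z < q.1.minFac := by
  obtain ⟨p, j, hp, hq⟩ := lv_form q
  rw [hq, dig_pow hp, hp.pow_minFac (Nat.succ_ne_zero j)]
  apply Nat.div_lt_of_lt_mul
  rw [← pow_succ]
  exact Nat.mod_lt _ (pow_pos hp.pos _)

private lemma dvd_iff_mod {q : ℕ} (hq : q ∣ n) (x y : ZMod n) :
    q ∣ (x - y).val ↔ x.val % q = y.val % q := by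
  have h1 : ∀ z : ZMod n, ((z.val : ℕ) : ZMod q) = ZMod.castHom hq (ZMod q) z := by
    intro z
    rw [ZMod.castHom_apply, ZMod.natCast_val]
  rw [← ZMod.natCast_eq_zero_iff, h1, map_sub, sub_eq_zero, ← h1, ← h1, ZMod.natCast_eq_natCast_iff]
  exact Iff.rfl

/-- the expansion in base `p` -/
private lemma mod_iff (p : ℕ) (u v : ℕ) (j : ℕ) :
    u % p ^ j = v % p ^ j ↔ ∀ i < j, u % p ^ (i + 1) / p ^ i = v % p ^ (i + 1) / p ^ i := by
  induction j with
  | zero => simp [Nat.mod_one]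
  | succ j ih =>
    have h1 : ∀ w : ℕ, w % p ^ (j + 1) = p ^ j * (w % p ^ (j + 1) / p ^ j) + w % p ^ j := by
      intro w
      have h2 : w % p ^ (j + 1) % p ^ j = w % p ^ j :=
        Nat.mod_mod_of_dvd _ (pow_dvd_pow _ (Nat.le_succ j))
      have h3 := Nat.div_add_mod (w % p ^ (j + 1)) (p ^ j)
      rw [h2] at h3
      exact h3.symm
    constructor
    · intro h i hi
      have h2 : u % p ^ (i + 1) = v % p ^ (i + 1) := by
        rw [← Nat.mod_mod_of_dvd u (pow_dvd_pow p (by omega : i + 1 ≤ j + 1)),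
          ← Nat.mod_mod_of_dvd v (pow_dvd_pow p (by omega : i + 1 ≤ j + 1)), h]
      rw [h2]
    · intro h
      rw [h1 u, h1 v, h j (Nat.lt_succ_self j),
        ih.mpr fun i hi => h i (hi.trans (Nat.lt_succ_self j))]

/-- two elements are congruent modulo the level `q` iff their digits at all the levels dividing
`q` agree -/
lemma dvd_iff_dig (q : Lv n) (x y : ZMod n) :
    q.1 ∣ (x - y).val ↔ ∀ q' : Lv n, q'.1 ∣ q.1 → dig q'.1 x = dig q'.1 y := by
  obtain ⟨p, j, hp, hq⟩ := lv_form q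
  rw [dvd_iff_mod (lv_dvd q), hq, mod_iff p]
  constructor
  · intro h q' hq'
    obtain ⟨p', j', hp', hq''⟩ := lv_form q'
    rw [hq''] at hq' ⊢
    have h1 : p' = p := (Nat.prime_dvd_prime_iff_eq hp' hp).mp
      (hp'.dvd_of_dvd_pow ((dvd_pow_self p' (Nat.succ_ne_zero j')).trans hq'))
    subst h1
    rw [Nat.pow_dvd_pow_iff_le_right hp'.one_lt] at hq'
    rw [dig_pow hp', dig_pow hp']
    exact h j' (by omega)
  · intro h i hi
    have h1 : p ^ (i + 1) ∣ p ^ (j + 1) := pow_dvd_pow _ (by omega)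
    have h2 : p ^ (i + 1) ∣ n := h1.trans (hq ▸ lv_dvd q)
    have h3 := h ⟨p ^ (i + 1), mem_lv hp h2⟩ h1
    rw [dig_pow hp, dig_pow hp] at h3
    exact h3

lemma eq_of_dig {x y : ZMod n} (h : ∀ q : Lv n, dig q.1 x = dig q.1 y) : x = y := by
  have h1 : n ∣ (x - y).val := by
    rw [Nat.dvd_iff_prime_pow_dvd_dvd]
    intro p k hp hk
    rcases k with - | k
    · simp
    · exact (dvd_iff_dig ⟨p ^ (k + 1), mem_lv hp hk⟩ x y).mpr fun q' _ => h q'
  have h2 : (x - y).val = 0 := Nat.eq_zero_of_dvd_of_lt h1 (ZMod.val_lt _)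
  rw [ZMod.val_eq_zero] at h2
  exact sub_eq_zero.mp h2

/-- the product of the primes over all levels -/
private lemma prod_levels : ∏ q : Lv n, q.1.minFac = n := by
  have h1 := ArithmeticFunction.vonMangoldt_sum (n := n)
  have h2 : ∑ i ∈ n.divisors, ArithmeticFunction.vonMangoldt i =
      ∑ q ∈ levels n, Real.log (q.minFac : ℝ) := by
    rw [levels, Finset.sum_filter]
    exact Finset.sum_congr rfl fun i _ => by rw [ArithmeticFunction.vonMangoldt_apply]
  have hpos : ∀ q ∈ levels n, ((q.minFac : ℕ) : ℝ) ≠ 0 := fun q _ => by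
    exact_mod_cast (Nat.minFac_pos q).ne'
  rw [h2, ← Real.log_prod hpos] at h1
  have h3 : (∏ q ∈ levels n, ((q.minFac : ℕ) : ℝ)) = n := by
    refine Real.log_injOn_pos (Set.mem_Ioi.mpr (Finset.prod_pos fun q _ => ?_))
      (Set.mem_Ioi.mpr ?_) h1
    · exact Nat.cast_pos.mpr (Nat.minFac_pos q)
    · exact Nat.cast_pos.mpr (Nat.pos_of_ne_zero (NeZero.ne n))
  have h4 : ∏ q ∈ levels n, q.minFac = n := by exact_mod_cast h3
  exact (Finset.prod_coe_sort (levels n) fun q => q.minFac).trans h4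

/-- all digit patterns occur -/
lemma exists_dig (d : Lv n → ℕ) (hd : ∀ q, d q < q.1.minFac) :
    ∃ z : ZMod n, ∀ q : Lv n, dig q.1 z = d q := by
  classical
  let Φ : ZMod n → ∀ q : Lv n, Fin q.1.minFac := fun z q => ⟨dig q.1 z, dig_lt q z⟩
  have hinj : Function.Injective Φ := by
    intro x y hxy
    refine eq_of_dig fun q => ?_
    exact congrArg Fin.val (congrFun hxy q)
  have hcard : Fintype.card (ZMod n) = Fintype.card (∀ q : Lv n, Fin q.1.minFac) := by
    rw [ZMod.card, Fintype.card_pi]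
    simp only [Fintype.card_fin]
    exact prod_levels.symm
  have hbij := (Fintype.bijective_iff_injective_and_card Φ).mpr ⟨hinj, hcard⟩
  obtain ⟨z, hz⟩ := hbij.2 fun q => ⟨d q, hd q⟩
  exact ⟨z, fun q => congrArg Fin.val (congrFun hz q)⟩

/-- the gcd with `n` is determined by the levels dividing the element -/
lemma gcd_eq_of_levels {x y : ZMod n} (h : ∀ q : Lv n, q.1 ∣ x.val ↔ q.1 ∣ y.val) :
    Nat.gcd x.val n = Nat.gcd y.val n := by
  have key : ∀ x y : ZMod n, (∀ q : Lv n, q.1 ∣ x.val → q.1 ∣ y.val) →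
      Nat.gcd x.val n ∣ Nat.gcd y.val n := by
    intro x y h
    rw [Nat.dvd_iff_prime_pow_dvd_dvd]
    intro p k hp hk
    rcases k with - | k
    · simp
    · have h1 : p ^ (k + 1) ∣ n := hk.trans (Nat.gcd_dvd_right _ _)
      exact Nat.dvd_gcd (h ⟨p ^ (k + 1), mem_lv hp h1⟩ (hk.trans (Nat.gcd_dvd_left _ _))) h1
  exact Nat.dvd_antisymm (key x y fun q => (h q).mp) (key y x fun q => (h q).mpr)

lemma mem_iff_ft {D : Set (ZMod n)} (hc : GcdClosed D) (x y : ZMod n) :
    x - y ∈ D ↔ ft D (dset x y) := by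
  constructor
  · intro h
    exact ⟨x, y, h, rfl⟩
  · rintro ⟨x', y', h, hd⟩
    refine (hc (x - y) (x' - y') (gcd_eq_of_levels fun q => ?_)).mpr h
    rw [dvd_iff_dig, dvd_iff_dig]
    have h1 : ∀ q' : Lv n, dig q'.1 x = dig q'.1 y ↔ dig q'.1 x' = dig q'.1 y' := by
      intro q'
      have h2 : q' ∈ dset x' y' ↔ q' ∈ dset x y := by rw [hd]
      simp only [dset, Finset.mem_filter, Finset.mem_univ, true_and] at h2
      exact (not_iff_not.mp h2).symm
    exact forall_congr' fun q' => by rw [h1 q']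

end

end Pool.Agent.Cis
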