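import Pool.Agent.H.MP_1bdfda_lc.AlgA
import Pool.Agent.H.MP_1bdfda_lc.DefsE
import Pool.Agent.H.MP_1bdfda_lc.Dig

/-!
The decision algorithm is correct.
-/

namespace Pool.Agent.Cis

open Pool.Agent.H.MP_5be563_lc.PT

/-- the connection set coded by a list of bits: `d` is in the set iff the bit number `d - 1` is
`true` -/
def conn (w : List Bool) : Set (ZMod (w.length + 1)) :=
  {d | d ≠ 0 ∧ w.getD (d.val - 1) false = true}

namespace Alg

lemma dvdB_iff {a b : ℕ} : dvdB a b = true ↔ a ∣ b := by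
  simp only [dvdB, List.any_eq_true, List.mem_range, decide_eq_true_eq]
  constructor
  · rintro ⟨k, _, hk⟩
    exact ⟨k, hk⟩
  · rintro ⟨k, hk⟩
    rcases Nat.eq_zero_or_pos a with rfl | ha
    · exact ⟨0, by omega, by simpa using hk⟩
    · exact ⟨k, by have := Nat.le_mul_of_pos_left k ha; omega, hk⟩

lemma primeB_iff {p : ℕ} : primeB p = true ↔ p.Prime := by
  simp only [primeB, Bool.and_eq_true, decide_eq_true_eq, List.all_eq_true, List.mem_range,
    Bool.or_eq_true, Bool.not_eq_true']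
  rw [Nat.prime_def]
  refine and_congr_right fun h2 => ?_
  constructor
  · intro h m hm
    have h3 : m < p + 1 := Nat.lt_succ_of_le (Nat.le_of_dvd (by omega) hm)
    rcases h m h3 with h4 | h4
    · rw [dvdB_iff.mpr hm] at h4; exact absurd h4 (by simp)
    · exact h4
  · intro h m _
    by_cases hm : m ∣ p
    · exact Or.inr (h m hm)
    · left
      by_contra hcon
      rw [Bool.not_eq_false] at hcon
      exact hm (dvdB_iff.mp hcon)

lemma pdB_iff {p q : ℕ} : pdB p q = true ↔ p.Prime ∧ p ∣ q := by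
  rw [pdB, Bool.and_eq_true, primeB_iff, dvdB_iff]

lemma ppB_iff {q : ℕ} : ppB q = true ↔ IsPrimePow q := by
  simp only [ppB, Bool.and_eq_true, decide_eq_true_eq, List.all_eq_true, List.mem_range,
    Bool.or_eq_true, Bool.not_eq_true', List.any_eq_true, pdB_iff]
  rw [isPrimePow_iff_unique_prime_dvd]
  constructor
  · rintro ⟨⟨p, hp, hpp, hpq⟩, h⟩
    have hq : 0 < q := by
      rcases Nat.eq_zero_or_pos q with rfl | h0
      · have := hpp.pos; omega
      · exact h0
    refine ⟨p, ⟨hpp, hpq⟩, ?_⟩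
    rintro p' ⟨hp', hpq'⟩
    have h3 : p' < q + 1 := Nat.lt_succ_of_le (Nat.le_of_dvd hq hpq')
    rcases h p' h3 p hp with h4 | h4
    · rw [Bool.and_eq_false_iff] at h4
      rcases h4 with h4 | h4
      · rw [pdB_iff.mpr ⟨hp', hpq'⟩] at h4; exact absurd h4 (by simp)
      · rw [pdB_iff.mpr ⟨hpp, hpq⟩] at h4; exact absurd h4 (by simp)
    · exact h4
  · rintro ⟨p, ⟨hp, hpq⟩, h⟩
    have hq : 0 < q := by
      rcases Nat.eq_zero_or_pos q with rfl | h0
      · have h2 := h 2 ⟨Nat.prime_two, dvd_zero _⟩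
        have h3 := h 3 ⟨Nat.prime_three, dvd_zero _⟩
        omega
      · exact h0
    refine ⟨⟨p, Nat.lt_succ_of_le (Nat.le_of_dvd hq hpq), hp, hpq⟩, ?_⟩
    intro p₁ _ p₂ _
    by_cases h1 : pdB p₁ q = true
    · by_cases h2 : pdB p₂ q = true
      · right
        rw [h p₁ (pdB_iff.mp h1), h p₂ (pdB_iff.mp h2)]
      · left; rw [Bool.not_eq_true] at h2; rw [h2, Bool.and_false]
    · left; rw [Bool.not_eq_true] at h1; rw [h1, Bool.false_and]

lemma mem_lvL {n q : ℕ} (hn : n ≠ 0) : q ∈ lvL n ↔ q ∈ levels n := by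
  rw [lvL, List.mem_filter, List.mem_range, Bool.and_eq_true, dvdB_iff, ppB_iff, levels,
    Finset.mem_filter, Nat.mem_divisors]
  constructor
  · rintro ⟨_, h1, h2⟩; exact ⟨⟨h1, hn⟩, h2⟩
  · rintro ⟨⟨h1, _⟩, h2⟩
    exact ⟨Nat.lt_succ_of_le (Nat.le_of_dvd (Nat.pos_of_ne_zero hn) h1), h1, h2⟩

lemma nzB_iff {q : ℕ} (hq : IsPrimePow q) (z : ℕ) :
    nzB q z = true ↔ z % q / (q / q.minFac) ≠ 0 := by
  have hq0 : 0 < q := hq.pos
  have hq1 : q ≠ 1 := hq.one_lt.ne'
  have hmp : q.minFac.Prime := Nat.minFac_prime hq1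
  have hmd : q.minFac ∣ q := Nat.minFac_dvd q
  have huniq : ∀ p, p.Prime → p ∣ q → p = q.minFac := by
    intro p hp hpq
    exact (isPrimePow_iff_unique_prime_dvd.mp hq).unique ⟨hp, hpq⟩ ⟨hmp, hmd⟩
  have hdpos : 0 < q / q.minFac := Nat.div_pos (Nat.minFac_le hq0) hmp.pos
  have key : z % q / (q / q.minFac) ≠ 0 ↔ q ≤ q.minFac * (z % q) := by
    rw [Nat.div_ne_zero_iff]
    constructor
    · rintro ⟨_, h⟩
      calc q = q.minFac * (q / q.minFac) := (Nat.mul_div_cancel' hmd).symm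
        _ ≤ q.minFac * (z % q) := Nat.mul_le_mul_left _ h
    · intro h
      refine ⟨hdpos.ne', ?_⟩
      have h1 : q.minFac * (q / q.minFac) ≤ q.minFac * (z % q) := by
        rw [Nat.mul_div_cancel' hmd]; exact h
      exact Nat.le_of_mul_le_mul_left h1 hmp.pos
  rw [key]
  simp only [nzB, List.any_eq_true, List.mem_range, Bool.and_eq_true, decide_eq_true_eq, pdB_iff]
  constructor
  · rintro ⟨p, _, ⟨hp, hpq⟩, k, _, r, hr, hz, h⟩
    have h1 : z % q = r := by
      rw [hz, Nat.add_comm, Nat.add_mul_mod_self_right, Nat.mod_eq_of_lt hr]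
    rw [h1, ← huniq p hp hpq]
    exact h
  · intro h
    refine ⟨q.minFac, Nat.lt_succ_of_le (Nat.minFac_le hq0), ⟨hmp, hmd⟩, z / q,
      Nat.lt_succ_of_le (Nat.div_le_self _ _), z % q, Nat.mod_lt _ hq0, ?_, h⟩
    have := Nat.div_add_mod z q
    rw [Nat.mul_comm] at this
    exact this.symm

lemma any_lvL {n : ℕ} (hn : n ≠ 0) (f : ℕ → Bool) :
    (lvL n).any f = true ↔ ∃ q : Lv n, f q.1 = true := by
  rw [List.any_eq_true]
  constructor
  · rintro ⟨q, hq, h⟩; exact ⟨⟨q, (mem_lvL hn).mp hq⟩, h⟩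
  · rintro ⟨q, h⟩; exact ⟨q.1, (mem_lvL hn).mpr q.2, h⟩

lemma all_lvL {n : ℕ} (hn : n ≠ 0) (f : ℕ → Bool) :
    (lvL n).all f = true ↔ ∀ q : Lv n, f q.1 = true := by
  rw [List.all_eq_true]
  constructor
  · intro h q; exact h q.1 ((mem_lvL hn).mpr q.2)
  · intro h q hq; exact h ⟨q, (mem_lvL hn).mp hq⟩

section
variable {n : ℕ} [NeZero n]

omit [NeZero n] in
lemma dig_zero (q : ℕ) : dig q (0 : ZMod n) = 0 := by
  simp [dig]

lemma exists_supp (S : Finset (Lv n)) : ∃ z : ZMod n, dset z 0 = S := by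
  classical
  obtain ⟨z, hz⟩ := exists_dig (n := n) (fun q => if q ∈ S then 1 else 0) (by
    intro q
    have hq : IsPrimePow q.1 := (Finset.mem_filter.mp q.2).2
    have h2 := (Nat.minFac_prime hq.one_lt.ne').two_le
    split_ifs <;> omega)
  refine ⟨z, ?_⟩
  ext q
  simp only [dset, Finset.mem_filter, Finset.mem_univ, true_and]
  rw [hz q, dig_zero]
  split_ifs with h <;> simp [h]

lemma ft_iff {D : Set (ZMod n)} (hc : GcdClosed D) (S : Finset (Lv n)) :
    ft D S ↔ ∃ z : ZMod n, z ∈ D ∧ dset z 0 = S := by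
  constructor
  · intro h
    obtain ⟨z, hz⟩ := exists_supp S
    refine ⟨z, ?_, hz⟩
    have := (mem_iff_ft hc z 0).mpr (by rw [hz]; exact h)
    rwa [sub_zero] at this
  · rintro ⟨z, h, hz⟩
    have := (mem_iff_ft hc z 0).mp (by rwa [sub_zero])
    rwa [hz] at this

omit [NeZero n] in
lemma nz_iff (z : ZMod n) (q : Lv n) : nzB q.1 z.val = true ↔ q ∈ dset z 0 := by
  have hq : IsPrimePow q.1 := (Finset.mem_filter.mp q.2).2
  rw [nzB_iff hq]
  simp only [dset, Finset.mem_filter, Finset.mem_univ, true_and]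
  rw [dig_zero]
  rfl

lemma dset_zero_nonempty (z : ZMod n) : (dset z 0).Nonempty ↔ z ≠ 0 := by
  constructor
  · rintro ⟨q, hq⟩ rfl
    simp [dset] at hq
  · intro h
    by_contra hcon
    rw [Finset.not_nonempty_iff_eq_empty] at hcon
    apply h
    refine eq_of_dig fun q => ?_
    by_contra h1
    have : q ∈ dset z 0 := by
      simp only [dset, Finset.mem_filter, Finset.mem_univ, true_and]; exact h1
    rw [hcon] at this
    exact absurd this (Finset.notMem_empty q)

/-- the set of levels in a list -/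
def toS (n : ℕ) (l : List ℕ) : Finset (Lv n) := Finset.univ.filter fun q => q.1 ∈ l

omit [NeZero n] in
lemma mem_toS {l : List ℕ} {q : Lv n} : q ∈ toS n l ↔ q.1 ∈ l := by
  simp [toS]

omit [NeZero n] in
lemma val_eq_iff (q a : Lv n) : q.1 = a.1 ↔ q = a := Subtype.ext_iff.symm

omit [NeZero n] in
lemma toS_one (a : Lv n) : toS n [a.1] = {a} := by
  ext q
  simp only [mem_toS, List.mem_cons, List.not_mem_nil, or_false, Finset.mem_singleton, val_eq_iff]

omit [NeZero n] in
lemma toS_two (a b : Lv n) : toS n [a.1, b.1] = {a, b} := by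
  ext q
  simp only [mem_toS, List.mem_cons, List.not_mem_nil, or_false, Finset.mem_singleton,
    Finset.mem_insert, val_eq_iff]

omit [NeZero n] in
lemma toS_four (a b c d : Lv n) : toS n [a.1, b.1, c.1, d.1] = {a, b, c, d} := by
  ext q
  simp only [mem_toS, List.mem_cons, List.not_mem_nil, or_false, Finset.mem_singleton,
    Finset.mem_insert, val_eq_iff]

end

section
variable {w : List Bool} {c : Bool} {D : Set (ZMod (w.length + 1))}

lemma ftB_iff (hm : ∀ z : ZMod (w.length + 1), memB c w z.val = true ↔ z ∈ D)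
    (hc : GcdClosed D) (l : List ℕ) : ftB c w l = true ↔ ft D (toS _ l) := by
  rw [ft_iff hc, ftB, List.any_eq_true]
  have key : ∀ z : ZMod (w.length + 1), ((memB c w z.val && (lvL (w.length + 1)).all
      (fun r => nzB r z.val == memb r l)) = true ↔ z ∈ D ∧ dset z 0 = toS _ l) := by
    intro z
    rw [Bool.and_eq_true, hm, all_lvL (Nat.succ_ne_zero _)]
    refine and_congr_right fun _ => ?_
    rw [Finset.ext_iff]
    refine forall_congr' fun q => ?_
    rw [beq_iff_eq, Bool.eq_iff_iff, nz_iff, memb_iff, mem_toS]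
  constructor
  · rintro ⟨z, hz, h⟩
    rw [List.mem_range] at hz
    refine ⟨(z : ZMod (w.length + 1)), (key _).mp ?_⟩
    rw [ZMod.val_natCast_of_lt hz]
    exact h
  · rintro ⟨z, h⟩
    exact ⟨z.val, List.mem_range.mpr (ZMod.val_lt z), (key z).mpr h⟩

lemma JEB_iff (hm : ∀ z : ZMod (w.length + 1), memB c w z.val = true ↔ z ∈ D)
    (hc : GcdClosed D) (a e : Lv (w.length + 1)) : JEB c w a.1 e.1 = true ↔ JE D a e := by
  rw [JEB, any_lvL (Nat.succ_ne_zero _), JE]
  refine exists_congr fun b => ?_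
  rw [any_lvL (Nat.succ_ne_zero _)]
  refine exists_congr fun d => ?_
  simp only [Bool.and_eq_true, Bool.not_eq_true', ← Bool.not_eq_true, ftB_iff hm hc, toS_one,
    toS_two, toS_four]

lemma FormEB_iff (hm : ∀ z : ZMod (w.length + 1), memB c w z.val = true ↔ z ∈ D)
    (hc : GcdClosed D) (l : List ℕ) (hl : ∀ x ∈ l, x ∈ levels (w.length + 1)) :
    FormEB c w l = true ↔ FormE D (toS _ l) := by
  have hex : ∀ p : Lv (w.length + 1) → Prop, ∀ f : ℕ → Bool, (∀ q, f q.1 = true ↔ p q) →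
      ((l.any f = true) ↔ ∃ q ∈ toS _ l, p q) := by
    intro p f hpf
    rw [List.any_eq_true]
    constructor
    · rintro ⟨x, hx, h⟩
      exact ⟨⟨x, hl x hx⟩, mem_toS.mpr hx, (hpf _).mp h⟩
    · rintro ⟨q, hq, h⟩
      exact ⟨q.1, mem_toS.mp hq, (hpf _).mpr h⟩
  have hall : ∀ p : Lv (w.length + 1) → Prop, ∀ f : ℕ → Bool, (∀ q, f q.1 = true ↔ p q) →
      ((l.all f = true) ↔ ∀ q ∈ toS _ l, p q) := by
    intro p f hpf
    rw [List.all_eq_true]
    constructor
    · intro h q hq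
      exact (hpf _).mp (h q.1 (mem_toS.mp hq))
    · intro h x hx
      exact (hpf ⟨x, hl x hx⟩).mpr (h _ (mem_toS.mpr hx))
  rw [FormEB, FormE, Bool.or_eq_true]
  refine or_congr ?_ ?_
  · refine hex _ _ fun a => ?_
    rw [Bool.and_eq_true, ftB_iff hm hc, toS_one]
    refine and_congr_right fun _ => ?_
    refine hall (fun b => ¬ ft D {b} → ft D {a, b}) _ fun b => ?_
    rw [Bool.or_eq_true, ftB_iff hm hc, ftB_iff hm hc, toS_one, toS_two]
    tauto
  · refine hex _ _ fun a => ?_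
    refine hex (fun e => ft D {a} ∧ ft D {e} ∧ JE D a e ∧
      ∀ b ∈ toS _ l, ¬ ft D {b} → ft D {a, b} ∨ ft D {e, b}) _ fun e => ?_
    rw [Bool.and_eq_true, Bool.and_eq_true, Bool.and_eq_true, ftB_iff hm hc, ftB_iff hm hc,
      toS_one, toS_one, JEB_iff hm hc]
    refine and_congr_right fun _ => and_congr_right fun _ => and_congr_right fun _ => ?_
    refine hall (fun b => ¬ ft D {b} → ft D {a, b} ∨ ft D {e, b}) _ fun b => ?_
    rw [Bool.or_eq_true, Bool.or_eq_true, ftB_iff hm hc, ftB_iff hm hc, ftB_iff hm hc, toS_one,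
      toS_two, toS_two]
    tauto

lemma subB_iff (hm : ∀ z : ZMod (w.length + 1), memB c w z.val = true ↔ z ∈ D)
    (hc : GcdClosed D) (a e e' : Lv (w.length + 1)) : subB c w a.1 e.1 e'.1 = true ↔
      ∀ b, ¬ ft D {b} → ft D {a, b} → ft D {e, b} ∨ ft D {e', b} := by
  rw [subB, all_lvL (Nat.succ_ne_zero _)]
  refine forall_congr' fun b => ?_
  simp only [Bool.or_eq_true, Bool.not_eq_true', ← Bool.not_eq_true, ftB_iff hm hc, toS_one,
    toS_two]
  tauto

lemma tripB_iff (hm : ∀ z : ZMod (w.length + 1), memB c w z.val = true ↔ z ∈ D)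
    (hc : GcdClosed D) : TripEB c w = true ↔ TripE D := by
  rw [TripEB, TripE, all_lvL (Nat.succ_ne_zero _)]
  refine forall_congr' fun a => ?_
  rw [all_lvL (Nat.succ_ne_zero _)]
  refine forall_congr' fun e => ?_
  rw [all_lvL (Nat.succ_ne_zero _)]
  refine forall_congr' fun e' => ?_
  rw [tripB]
  simp only [Bool.or_eq_true, Bool.not_eq_true', ← Bool.not_eq_true, ftB_iff hm hc, toS_one,
    JEB_iff hm hc, subB_iff hm hc, Bool.and_eq_true, decide_eq_true_eq]
  have h1 : (e.1 = e'.1) ↔ e = e' := Subtype.ext_iff.symm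
  rw [h1]
  tauto

lemma GoodEB_iff (hm : ∀ z : ZMod (w.length + 1), memB c w z.val = true ↔ z ∈ D)
    (hc : GcdClosed D) : GoodEB c w = true ↔ GoodE D := by
  rw [GoodEB, GoodE, Bool.and_eq_true, tripB_iff hm hc]
  refine and_congr_left fun _ => ?_
  have hS : ∀ z : ZMod (w.length + 1),
      toS _ ((lvL (w.length + 1)).filter (fun r => nzB r z.val)) = dset z 0 := by
    intro z
    ext q
    rw [mem_toS, List.mem_filter, mem_lvL (Nat.succ_ne_zero _), nz_iff]
    exact ⟨fun h => h.2, fun h => ⟨q.2, h⟩⟩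
  have hl : ∀ z, ∀ x ∈ (lvL (w.length + 1)).filter (fun r => nzB r z),
      x ∈ levels (w.length + 1) := by
    intro z x hx
    exact (mem_lvL (Nat.succ_ne_zero _)).mp (List.mem_filter.mp hx).1
  have hz1 : ∀ z : ZMod (w.length + 1), ((decide (z.val = 0) || (memB c w z.val ==
      FormEB c w ((lvL (w.length + 1)).filter (fun r => nzB r z.val)))) = true) ↔
      (z ≠ 0 → (ft D (dset z 0) ↔ FormE D (dset z 0))) := by
    intro z
    rw [Bool.or_eq_true, decide_eq_true_eq, beq_iff_eq, Bool.eq_iff_iff, hm,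
      FormEB_iff hm hc _ (hl _), hS, ZMod.val_eq_zero]
    have h1 := mem_iff_ft hc z 0
    rw [sub_zero] at h1
    rw [h1]
    exact or_iff_not_imp_left
  rw [List.all_eq_true]
  constructor
  · intro h S hSne
    obtain ⟨z, hz⟩ := exists_supp S
    have h1 := (hz1 z).mp (h z.val (List.mem_range.mpr (ZMod.val_lt z)))
    rw [hz] at h1
    apply h1
    rw [← dset_zero_nonempty, hz]
    exact hSne
  · intro h z hz
    rw [List.mem_range] at hz
    have h1 := (hz1 (z : ZMod (w.length + 1))).mpr fun hne =>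
      h _ ((dset_zero_nonempty _).mpr hne)
    rwa [ZMod.val_natCast_of_lt hz] at h1

lemma memB_false (z : ZMod (w.length + 1)) : memB false w z.val = true ↔ z ∈ conn w := by
  simp only [memB, Bool.and_eq_true, decide_eq_true_eq, Bool.false_xor, conn, Set.mem_ofPred_eq]
  rw [ne_eq, ZMod.val_eq_zero]

lemma memB_true (z : ZMod (w.length + 1)) : memB true w z.val = true ↔ z ∈ co (conn w) := by
  simp only [memB, Bool.and_eq_true, decide_eq_true_eq, Bool.true_xor, conn, co,
    Set.mem_ofPred_eq, Bool.not_eq_true']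
  rw [ne_eq, ZMod.val_eq_zero, ← Bool.not_eq_true]
  tauto

lemma symB_iff : symB w = true ↔ ∀ d ∈ conn w, -d ∈ conn w := by
  rw [symB, List.all_eq_true]
  have key : ∀ z : ZMod (w.length + 1), ((!(memB false w z.val) ||
      memB false w (w.length + 1 - z.val)) = true) ↔ (z ∈ conn w → -z ∈ conn w) := by
    intro z
    rw [Bool.or_eq_true, Bool.not_eq_true', ← Bool.not_eq_true, memB_false]
    by_cases hz : z = 0
    · subst hz
      have : (0 : ZMod (w.length + 1)) ∉ conn w := fun h => h.1 rfl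
      simp [this]
    · have h1 : (-z).val = w.length + 1 - z.val := by
        rw [ZMod.neg_val, if_neg hz]
      rw [← h1, memB_false]
      tauto
  constructor
  · intro h d hd
    exact (key d).mp (h d.val (List.mem_range.mpr (ZMod.val_lt d))) hd
  · intro h z hz
    rw [List.mem_range] at hz
    have h1 := (key (z : ZMod (w.length + 1))).mpr (h _)
    rwa [ZMod.val_natCast_of_lt hz] at h1

lemma sgB_iff {n x y : ℕ} (hn : n ≠ 0) : sgB n x y = true ↔ Nat.gcd x n = Nat.gcd y n := by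
  have h0 : sgB n x y = true ↔ ∀ d, d ∣ n → (d ∣ x ↔ d ∣ y) := by
    rw [sgB, List.all_eq_true]
    have key : ∀ d, ((!(dvdB d n) || (dvdB d x == dvdB d y)) = true) ↔
        (d ∣ n → (d ∣ x ↔ d ∣ y)) := by
      intro d
      have h2 : (dvdB d x = dvdB d y) ↔ (d ∣ x ↔ d ∣ y) := by
        rw [Bool.eq_iff_iff, dvdB_iff, dvdB_iff]
      rw [Bool.or_eq_true, Bool.not_eq_true', ← Bool.not_eq_true, beq_iff_eq, h2, dvdB_iff]
      exact imp_iff_not_or.symm
    constructor
    · intro h d hd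
      exact (key d).mp (h d (List.mem_range.mpr (Nat.lt_succ_of_le
        (Nat.le_of_dvd (Nat.pos_of_ne_zero hn) hd)))) hd
    · intro h d _
      exact (key d).mpr (h d)
  rw [h0]
  constructor
  · intro h
    apply Nat.dvd_antisymm
    · exact Nat.dvd_gcd ((h _ (Nat.gcd_dvd_right x n)).mp (Nat.gcd_dvd_left x n))
        (Nat.gcd_dvd_right x n)
    · exact Nat.dvd_gcd ((h _ (Nat.gcd_dvd_right y n)).mpr (Nat.gcd_dvd_left y n))
        (Nat.gcd_dvd_right y n)
  · intro h d hd
    constructor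
    · intro hx
      have : d ∣ Nat.gcd y n := by rw [← h]; exact Nat.dvd_gcd hx hd
      exact this.trans (Nat.gcd_dvd_left _ _)
    · intro hy
      have : d ∣ Nat.gcd x n := by rw [h]; exact Nat.dvd_gcd hy hd
      exact this.trans (Nat.gcd_dvd_left _ _)

lemma gcdB_iff : gcdB w = true ↔ GcdClosed (conn w) := by
  rw [gcdB, List.all_eq_true, GcdClosed]
  have key : ∀ x y : ZMod (w.length + 1), ((!(sgB (w.length + 1) x.val y.val) ||
      (memB false w x.val == memB false w y.val)) = true) ↔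
      (Nat.gcd x.val (w.length + 1) = Nat.gcd y.val (w.length + 1) →
        (x ∈ conn w ↔ y ∈ conn w)) := by
    intro x y
    have h2 : (memB false w x.val = memB false w y.val) ↔ (x ∈ conn w ↔ y ∈ conn w) := by
      rw [Bool.eq_iff_iff, memB_false, memB_false]
    rw [Bool.or_eq_true, Bool.not_eq_true', ← Bool.not_eq_true, beq_iff_eq, h2,
      sgB_iff (Nat.succ_ne_zero _)]
    exact imp_iff_not_or.symm
  constructor
  · intro h x y
    have h1 := h x.val (List.mem_range.mpr (ZMod.val_lt x))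
    rw [List.all_eq_true] at h1
    exact (key x y).mp (h1 y.val (List.mem_range.mpr (ZMod.val_lt y)))
  · intro h x hx
    rw [List.all_eq_true]
    intro y hy
    rw [List.mem_range] at hx hy
    have h1 := (key (x : ZMod (w.length + 1)) (y : ZMod (w.length + 1))).mpr (h _ _)
    rwa [ZMod.val_natCast_of_lt hx, ZMod.val_natCast_of_lt hy] at h1

lemma gcdClosed_co {n : ℕ} [NeZero n] {D : Set (ZMod n)} (hc : GcdClosed D) :
    GcdClosed (co D) := by
  intro x y hxy
  have h0 : ∀ x y : ZMod n, Nat.gcd x.val n = Nat.gcd y.val n → x = 0 → y = 0 := by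
    intro x y h hx
    rw [hx, ZMod.val_zero, Nat.gcd_zero_left] at h
    have h1 : n ∣ y.val := by
      have := Nat.gcd_dvd_left y.val n
      rwa [← h] at this
    have h2 := Nat.eq_zero_of_dvd_of_lt h1 (ZMod.val_lt y)
    rwa [ZMod.val_eq_zero] at h2
  simp only [co, Set.mem_ofPred_eq]
  rw [hc x y hxy]
  have h1 : x = 0 ↔ y = 0 := ⟨h0 x y hxy, h0 y x hxy.symm⟩
  rw [ne_eq, ne_eq, h1]

end

end Alg

open Alg in
theorem exists_dec : ∃ dec : List Bool → Bool, Pool.Agent.H.MP_5be563_lc.PT.Poly dec ∧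
    ∀ w : List Bool, dec w = true ↔
      (∀ d ∈ conn w, -d ∈ conn w) ∧ GcdClosed (conn w) ∧ GoodE (conn w) ∧ GoodE (co (conn w)) := by
  refine ⟨decB, poly_decB, fun w => ?_⟩
  rw [decB, Bool.and_eq_true, Bool.and_eq_true, Bool.and_eq_true, symB_iff, gcdB_iff]
  refine and_congr_right fun _ => and_congr_right fun hc => ?_
  rw [GoodEB_iff memB_false hc, GoodEB_iff memB_true (gcdClosed_co hc)]

end Pool.Agent.Cis
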