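import Pool.Agent.H.MP_5be563_lc.PT.Main
import Pool.Agent.H.MP_5be563_lc.PT.Arith

/-!
The boolean functions of the decision algorithm, and the fact that they are polynomial time.
-/

namespace Pool.Agent.Cis.Alg

open Pool.Agent.H.MP_5be563_lc.PT

variable {α : Type} [Enc α]

/-- divisibility -/
def dvdB (a b : ℕ) : Bool := (List.range (b + 1)).any (fun k => decide (b = a * k))

@[fun_prop]
theorem poly_dvdB {a b : α → ℕ} (ha : Poly a) (hb : Poly b) :
    Poly (fun x => dvdB (a x) (b x)) := by
  unfold dvdB
  fun_prop

/-- primality -/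
def primeB (p : ℕ) : Bool :=
  decide (2 ≤ p) && (List.range (p + 1)).all
    (fun d => !(dvdB d p) || (decide (d = 1) || decide (d = p)))

@[fun_prop]
theorem poly_primeB {a : α → ℕ} (ha : Poly a) : Poly (fun x => primeB (a x)) := by
  unfold primeB
  fun_prop

/-- `p` is a prime divisor of `q` -/
def pdB (p q : ℕ) : Bool := primeB p && dvdB p q

@[fun_prop]
theorem poly_pdB {a b : α → ℕ} (ha : Poly a) (hb : Poly b) :
    Poly (fun x => pdB (a x) (b x)) := by
  unfold pdB
  fun_prop

/-- prime powers -/
def ppB (q : ℕ) : Bool :=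
  (List.range (q + 1)).any (fun p => pdB p q) &&
    (List.range (q + 1)).all (fun p => (List.range (q + 1)).all (fun p' =>
      !(pdB p q && pdB p' q) || decide (p = p')))

@[fun_prop]
theorem poly_ppB {a : α → ℕ} (ha : Poly a) : Poly (fun x => ppB (a x)) := by
  unfold ppB
  fun_prop

/-- the list of levels of `n` -/
def lvL (n : ℕ) : List ℕ := (List.range (n + 1)).filter (fun q => dvdB q n && ppB q)

@[fun_prop]
theorem poly_lvL {a : α → ℕ} (ha : Poly a) : Poly (fun x => lvL (a x)) := by
  unfold lvL
  fun_prop

/-- the digit of `z` at the prime power `q` is not zero -/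
def nzB (q z : ℕ) : Bool :=
  (List.range (q + 1)).any (fun p => pdB p q && (List.range (z + 1)).any (fun k =>
    (List.range q).any (fun r => decide (z = k * q + r) && decide (q ≤ p * r))))

@[fun_prop]
theorem poly_nzB {a b : α → ℕ} (ha : Poly a) (hb : Poly b) :
    Poly (fun x => nzB (a x) (b x)) := by
  unfold nzB
  fun_prop

/-- membership in the connection set (`c = false`) or in its complement (`c = true`) -/
def memB (c : Bool) (w : List Bool) (z : ℕ) : Bool :=
  decide (z ≠ 0) && (Bool.xor c (w.getD (z - 1) false))

@[fun_prop]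
theorem poly_memB {c : α → Bool} {w : α → List Bool} {z : α → ℕ} (hc : Poly c) (hw : Poly w)
    (hz : Poly z) : Poly (fun x => memB (c x) (w x) (z x)) := by
  have h : Poly (fun x => !(decide (z x = 0)) && (Bool.xor (c x) ((w x).getD (z x - 1) false))) := by
    fun_prop
  refine (show (fun x => memB (c x) (w x) (z x)) = _ from ?_) ▸ h
  funext x
  simp [memB]

/-- `ft` for a list of levels -/
def ftB (c : Bool) (w : List Bool) (l : List ℕ) : Bool :=
  (List.range (w.length + 1)).any (fun z => memB c w z &&
    (lvL (w.length + 1)).all (fun r => nzB r z == memb r l))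

@[fun_prop]
theorem poly_ftB {c : α → Bool} {w : α → List Bool} {l : α → List ℕ} (hc : Poly c) (hw : Poly w)
    (hl : Poly l) : Poly (fun x => ftB (c x) (w x) (l x)) := by
  unfold ftB
  fun_prop

/-- joined pairs -/
def JEB (c : Bool) (w : List Bool) (a e : ℕ) : Bool :=
  (lvL (w.length + 1)).any (fun b => (lvL (w.length + 1)).any (fun d =>
    !(ftB c w [b]) && (!(ftB c w [d]) && (ftB c w [a, b] && (!(ftB c w [a, d]) &&
      (ftB c w [e, d] && (!(ftB c w [e, b]) && ftB c w [a, e, b, d])))))))

@[fun_prop]
theorem poly_JEB {c : α → Bool} {w : α → List Bool} {a e : α → ℕ} (hc : Poly c) (hw : Poly w)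
    (ha : Poly a) (he : Poly e) : Poly (fun x => JEB (c x) (w x) (a x) (e x)) := by
  unfold JEB
  fun_prop

/-- the formula -/
def FormEB (c : Bool) (w : List Bool) (l : List ℕ) : Bool :=
  l.any (fun a => ftB c w [a] && l.all (fun b => ftB c w [b] || ftB c w [a, b])) ||
    l.any (fun a => l.any (fun e => ftB c w [a] && (ftB c w [e] && (JEB c w a e &&
      l.all (fun b => ftB c w [b] || (ftB c w [a, b] || ftB c w [e, b]))))))

@[fun_prop]
theorem poly_FormEB {c : α → Bool} {w : α → List Bool} {l : α → List ℕ} (hc : Poly c)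
    (hw : Poly w) (hl : Poly l) : Poly (fun x => FormEB (c x) (w x) (l x)) := by
  unfold FormEB
  fun_prop

/-- inclusion of the sets of the levels beaten -/
def subB (c : Bool) (w : List Bool) (a e e' : ℕ) : Bool :=
  (lvL (w.length + 1)).all (fun b => ftB c w [b] || (!(ftB c w [a, b]) ||
    (ftB c w [e, b] || ftB c w [e', b])))

@[fun_prop]
theorem poly_subB {c : α → Bool} {w : α → List Bool} {a e e' : α → ℕ} (hc : Poly c)
    (hw : Poly w) (ha : Poly a) (he : Poly e) (he' : Poly e') :
    Poly (fun x => subB (c x) (w x) (a x) (e x) (e' x)) := by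
  unfold subB
  fun_prop

/-- the condition on one triple -/
def tripB (c : Bool) (w : List Bool) (a e e' : ℕ) : Bool :=
  !(ftB c w [a]) || (!(ftB c w [e]) || (!(ftB c w [e']) || (decide (e = e') ||
    (!(JEB c w a e) || (!(JEB c w a e') || (subB c w e a e' || (subB c w e' a e ||
      (subB c w a e e' && JEB c w e e'))))))))

@[fun_prop]
theorem poly_tripB {c : α → Bool} {w : α → List Bool} {a e e' : α → ℕ} (hc : Poly c)
    (hw : Poly w) (ha : Poly a) (he : Poly e) (he' : Poly e') :
    Poly (fun x => tripB (c x) (w x) (a x) (e x) (e' x)) := by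
  unfold tripB
  fun_prop

/-- the condition on triples -/
def TripEB (c : Bool) (w : List Bool) : Bool :=
  (lvL (w.length + 1)).all (fun a => (lvL (w.length + 1)).all (fun e =>
    (lvL (w.length + 1)).all (fun e' => tripB c w a e e')))

@[fun_prop]
theorem poly_TripEB {c : α → Bool} {w : α → List Bool} (hc : Poly c) (hw : Poly w) :
    Poly (fun x => TripEB (c x) (w x)) := by
  unfold TripEB
  fun_prop

/-- one half of the conditions -/
def GoodEB (c : Bool) (w : List Bool) : Bool :=
  (List.range (w.length + 1)).all (fun z => decide (z = 0) || (memB c w z ==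
    FormEB c w ((lvL (w.length + 1)).filter (fun r => nzB r z)))) && TripEB c w

@[fun_prop]
theorem poly_GoodEB {c : α → Bool} {w : α → List Bool} (hc : Poly c) (hw : Poly w) :
    Poly (fun x => GoodEB (c x) (w x)) := by
  unfold GoodEB
  fun_prop

/-- symmetry of the connection set -/
def symB (w : List Bool) : Bool :=
  (List.range (w.length + 1)).all (fun z => !(memB false w z) || memB false w (w.length + 1 - z))

@[fun_prop]
theorem poly_symB {w : α → List Bool} (hw : Poly w) : Poly (fun x => symB (w x)) := by
  unfold symB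
  fun_prop

/-- same greatest common divisor with `n` -/
def sgB (n x y : ℕ) : Bool :=
  (List.range (n + 1)).all (fun d => !(dvdB d n) || (dvdB d x == dvdB d y))

@[fun_prop]
theorem poly_sgB {n x y : α → ℕ} (hn : Poly n) (hx : Poly x) (hy : Poly y) :
    Poly (fun a => sgB (n a) (x a) (y a)) := by
  unfold sgB
  fun_prop

/-- the connection set is a union of classes -/
def gcdB (w : List Bool) : Bool :=
  (List.range (w.length + 1)).all (fun x => (List.range (w.length + 1)).all (fun y =>
    !(sgB (w.length + 1) x y) || (memB false w x == memB false w y)))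

@[fun_prop]
theorem poly_gcdB {w : α → List Bool} (hw : Poly w) : Poly (fun x => gcdB (w x)) := by
  unfold gcdB
  fun_prop

/-- the algorithm -/
def decB (w : List Bool) : Bool := symB w && (gcdB w && (GoodEB false w && GoodEB true w))

theorem poly_decB : Poly decB := by
  unfold decB
  fun_prop

end Pool.Agent.Cis.Alg
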