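import Pool.Agent.H.MP_1bdfda_lc.Pat

/-!
Good patterns: every stable set of vertices which misses a column can be extended by a vertex of
the column (greedy assignment of the digits).
-/

open scoped symmDiff

namespace Pool.Agent.Cis

namespace Suf

variable {A B : Type} {VA : A → Type} {VB : B → Type}

/-- The vertices of `W` whose difference with `y₀` is beaten by `a` and `c`. -/
private def Wp (P : Pat A B) (W : Set (∀ b, VB b)) (y₀ : ∀ b, VB b) (a c : A) :
    Set (∀ b, VB b) := {y | y ∈ W ∧ ∀ b, y₀ b ≠ y b → P.gt a b ∨ P.gt c b}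

/-- The pair `a`, `c` is satisfied by the partial assignment `x` on `S`. -/
private def Sat (P : Pat A B) (W : Set (∀ b, VB b)) (y₀ : ∀ b, VB b)
    (h : (∀ b, VB b) → ∀ a, VA a) (S : Finset A) (x : ∀ a, VA a) (a c : A) : Prop :=
  ∀ y ∈ Wp P W y₀ a c, (a ∈ S ∧ h y a = x a) ∨ (c ∈ S ∧ h y c = x c)

/-- The digit `a` of `h` is constant on `V`. -/
private def Cst (h : (∀ b, VB b) → ∀ a, VA a) (a : A) (V : Set (∀ b, VB b)) : Prop :=
  ∃ v, ∀ y ∈ V, h y a = v

variable {P : Pat A B} {W : Set (∀ b, VB b)} {y₀ : ∀ b, VB b} {h : (∀ b, VB b) → ∀ a, VA a}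

private lemma Wp_comm (a c : A) : Wp P W y₀ a c = Wp P W y₀ c a := by
  ext y
  simp only [Wp, Set.mem_ofPred_eq]
  constructor <;> exact fun h1 => ⟨h1.1, fun b hb => (h1.2 b hb).symm⟩

private lemma Sat_comm {S : Finset A} {x : ∀ a, VA a} {a c : A} (h1 : Sat P W y₀ h S x a c) :
    Sat P W y₀ h S x c a := by
  intro y hy
  rw [Wp_comm] at hy
  exact (h1 y hy).symm

private lemma J_symm [DecidableEq A] [DecidableEq B] {a c : A} (h1 : P.J a c) : P.J c a := by
  obtain ⟨b, d, h1, h2, h3, h4, h5⟩ := h1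
  exact ⟨d, b, h3, h4, h1, h2, by rwa [Finset.pair_comm, Finset.pair_comm d b]⟩

private lemma Cst_mono {a : A} {V V' : Set (∀ b, VB b)} (hV : V ⊆ V') (h1 : Cst h a V') :
    Cst h a V := by
  obtain ⟨v, hv⟩ := h1
  exact ⟨v, fun y hy => hv y (hV hy)⟩

private lemma grid {a c : A} {V : Set (∀ b, VB b)} (hV : V.Nonempty)
    (hag : ∀ y ∈ V, ∀ y' ∈ V, h y a = h y' a ∨ h y c = h y' c) : Cst h a V ∨ Cst h c V := by
  by_contra hcon
  push Not at hcon
  obtain ⟨h1, h2⟩ := hcon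
  obtain ⟨y₁, hy₁⟩ := hV
  have h3 : ∃ y₂ ∈ V, h y₂ a ≠ h y₁ a := by
    by_contra hc
    push Not at hc
    exact h1 ⟨h y₁ a, hc⟩
  obtain ⟨y₂, hy₂, h3⟩ := h3
  apply h2
  refine ⟨h y₁ c, fun y hy => ?_⟩
  rcases hag y hy y₁ hy₁ with h4 | h4
  · rcases hag y hy y₂ hy₂ with h5 | h5
    · exact absurd (h5.symm.trans h4) h3
    · rcases hag y₂ hy₂ y₁ hy₁ with h6 | h6
      · exact absurd h6 h3
      · exact h5.trans h6
  · exact h4

private lemma Sat_mono [DecidableEq A] {S : Finset A} {x x' : ∀ a, VA a} {c : A}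
    (hx : ∀ a ∈ S, x' a = x a) {e f : A} (h1 : Sat P W y₀ h S x e f) :
    Sat P W y₀ h (insert c S) x' e f := by
  intro y hy
  rcases h1 y hy with ⟨h2, h3⟩ | ⟨h2, h3⟩
  · exact Or.inl ⟨Finset.mem_insert_of_mem h2, by rw [hx e h2]; exact h3⟩
  · exact Or.inr ⟨Finset.mem_insert_of_mem h2, by rw [hx f h2]; exact h3⟩

/-- one step of the greedy assignment -/
private lemma greedy_step [DecidableEq A] [DecidableEq B] (hT : P.Trip)
    (hag : ∀ a c, P.J a c → ∀ y ∈ Wp P W y₀ a c, ∀ y' ∈ Wp P W y₀ a c,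
      h y a = h y' a ∨ h y c = h y' c)
    {S : Finset A} {x : ∀ a, VA a}
    (hinv : ∀ a c, P.J a c → ¬ Sat P W y₀ h S x a c → a ∈ S → ¬ Cst h a (Wp P W y₀ a c))
    (hdiag : ∀ a, Sat P W y₀ h S x a a) {a c : A} (hJ : P.J a c)
    (hns : ¬ Sat P W y₀ h S x a c)
    (hmax : ∀ e f, P.J e f → ¬ Sat P W y₀ h S x e f → Wp P W y₀ a c ⊆ Wp P W y₀ e f →
      Wp P W y₀ e f ⊆ Wp P W y₀ a c)
    (hcst : Cst h c (Wp P W y₀ a c)) :
    c ∉ S ∧ ∃ x' : ∀ a, VA a,
      (∀ a c', P.J a c' → ¬ Sat P W y₀ h (insert c S) x' a c' → a ∈ insert c S →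
        ¬ Cst h a (Wp P W y₀ a c')) ∧ ∀ a, Sat P W y₀ h (insert c S) x' a a := by
  classical
  have hcS : c ∉ S := by
    intro hc
    refine hinv c a (J_symm hJ) (fun h1 => hns (Sat_comm h1)) hc ?_
    rw [Wp_comm]; exact hcst
  refine ⟨hcS, ?_⟩
  have hne : (Wp P W y₀ a c).Nonempty := by
    by_contra hcon
    rw [Set.not_nonempty_iff_eq_empty] at hcon
    exact hns fun y hy => by rw [hcon] at hy; exact absurd hy (Set.notMem_empty y)
  obtain ⟨u, hu⟩ := hcst
  set x' := Function.update x c u with hx'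
  have hx'c : x' c = u := Function.update_self c u x
  have hx'S : ∀ e ∈ S, x' e = x e := fun e he =>
    Function.update_of_ne (fun h1 => hcS (by rw [← h1]; exact he)) u x
  refine ⟨x', ?_, fun e => Sat_mono hx'S (hdiag e)⟩
  -- the invariant
  intro e f hef hnef he hce
  have hnef' : ¬ Sat P W y₀ h S x e f := fun h1 => hnef (Sat_mono hx'S h1)
  rcases Finset.mem_insert.mp he with rfl | heS
  swap
  · exact hinv e f hef hnef' heS hce
  -- now `e = c`; rename `f` to `d`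
  rename' f => d
  obtain ⟨v, hv⟩ := hce
  have hvu : v ≠ u := by
    rintro rfl
    exact hnef fun y hy => Or.inl ⟨Finset.mem_insert_self _ _, by rw [hx'c]; exact hv y hy⟩
  have hda : a ≠ d := by
    rintro rfl
    apply hnef
    intro y hy
    rw [Wp_comm] at hy
    exact Or.inl ⟨Finset.mem_insert_self _ _, by rw [hx'c]; exact hu y hy⟩
  have hne' : (Wp P W y₀ e d).Nonempty := by
    by_contra hcon
    rw [Set.not_nonempty_iff_eq_empty] at hcon
    exact hnef fun y hy => by rw [hcon] at hy; exact absurd hy (Set.notMem_empty y)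
  have hdisj : ∀ y, y ∈ Wp P W y₀ a e → y ∈ Wp P W y₀ e d → False := by
    intro y h1 h2
    exact hvu ((hv y h2).symm.trans (hu y h1))
  obtain ⟨y₁, hy₁⟩ := hne
  obtain ⟨y₂, hy₂⟩ := hne'
  rcases hT e a d hda (J_symm hJ) hef with h1 | h1 | ⟨h1, hJad⟩
  · refine hdisj y₁ hy₁ ⟨hy₁.1, fun b hb => ?_⟩
    rcases hy₁.2 b hb with h2 | h2
    · exact h1 b h2
    · exact Or.inl h2
  · refine hdisj y₂ ⟨hy₂.1, fun b hb => ?_⟩ hy₂
    rcases hy₂.2 b hb with h2 | h2
    · exact Or.inr h2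
    · exact (h1 b h2).symm
  · have hsub1 : Wp P W y₀ a e ⊆ Wp P W y₀ a d := fun y hy => ⟨hy.1, fun b hb => by
      rcases hy.2 b hb with h2 | h2
      · exact Or.inl h2
      · exact h1 b h2⟩
    have hsub2 : Wp P W y₀ e d ⊆ Wp P W y₀ a d := fun y hy => ⟨hy.1, fun b hb => by
      rcases hy.2 b hb with h2 | h2
      · exact h1 b h2
      · exact Or.inr h2⟩
    have hsat : Sat P W y₀ h S x a d := by
      by_contra hcon
      exact hdisj y₂ (hmax a d hJad hcon hsub1 (hsub2 hy₂)) hy₂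
    by_cases haS : a ∈ S
    · have h2 : ¬ Cst h a (Wp P W y₀ a e) := hinv a e hJ hns haS
      have h3 : ¬ Cst h a (Wp P W y₀ a d) := fun h3 => h2 (Cst_mono hsub1 h3)
      have h4 : Cst h d (Wp P W y₀ a d) :=
        (grid ⟨y₁, hsub1 hy₁⟩ (hag a d hJad)).resolve_left h3
      have h5 : d ∉ S := by
        intro hd
        refine hinv d e (J_symm hef) (fun h6 => hnef' (Sat_comm h6)) hd ?_
        rw [Wp_comm]
        exact Cst_mono hsub2 h4
      exact h3 ⟨x a, fun y hy => by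
        rcases hsat y hy with h6 | h6
        · exact h6.2
        · exact absurd h6.1 h5⟩
    · apply hnef'
      intro y hy
      rcases hsat y (hsub2 hy) with h6 | h6
      · exact absurd h6.1 haS
      · exact Or.inr h6

/-- the greedy assignment -/
private lemma greedy [Fintype A] [DecidableEq A] [DecidableEq B] (hT : P.Trip)
    (hag : ∀ a c, P.J a c → ∀ y ∈ Wp P W y₀ a c, ∀ y' ∈ Wp P W y₀ a c,
      h y a = h y' a ∨ h y c = h y' c) (n : ℕ) :
    ∀ (S : Finset A) (x : ∀ a, VA a), Sᶜ.card ≤ n →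
    (∀ a c, P.J a c → ¬ Sat P W y₀ h S x a c → a ∈ S → ¬ Cst h a (Wp P W y₀ a c)) →
    (∀ a, Sat P W y₀ h S x a a) →
    ∃ (S' : Finset A) (x' : ∀ a, VA a), (∀ a c, P.J a c → Sat P W y₀ h S' x' a c) ∧
      ∀ a, Sat P W y₀ h S' x' a a := by
  classical
  induction n with
  | zero =>
    intro S x hS hinv hdiag
    refine ⟨S, x, fun a c hJ => ?_, hdiag⟩
    by_contra hcon
    have hSu : ∀ a, a ∈ S := by
      intro a
      by_contra ha
      have : a ∈ Sᶜ := Finset.mem_compl.mpr ha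
      rw [Finset.card_eq_zero.mp (Nat.le_zero.mp hS)] at this
      exact absurd this (Finset.notMem_empty a)
    have hne : (Wp P W y₀ a c).Nonempty := by
      by_contra hcon'
      rw [Set.not_nonempty_iff_eq_empty] at hcon'
      exact hcon fun y hy => by rw [hcon'] at hy; exact absurd hy (Set.notMem_empty y)
    rcases grid hne (hag a c hJ) with h1 | h1
    · exact hinv a c hJ hcon (hSu a) h1
    · rw [Wp_comm] at h1
      exact hinv c a (J_symm hJ) (fun h2 => hcon (Sat_comm h2)) (hSu c) h1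
  | succ n ih =>
    intro S x hS hinv hdiag
    by_cases hall : ∀ a c, P.J a c → Sat P W y₀ h S x a c
    · exact ⟨S, x, hall, hdiag⟩
    push Not at hall
    set U : Set (A × A) := {p | P.J p.1 p.2 ∧ ¬ Sat P W y₀ h S x p.1 p.2} with hU
    obtain ⟨a₁, c₁, hJ₁, hns₁⟩ := hall
    obtain ⟨⟨a, c⟩, ⟨hJ, hns⟩, hmax⟩ := Set.Finite.exists_maximalFor
      (fun p : A × A => Wp P W y₀ p.1 p.2) U U.toFinite ⟨(a₁, c₁), hJ₁, hns₁⟩
    simp only at hJ hns
    have hmax' : ∀ e f, P.J e f → ¬ Sat P W y₀ h S x e f → Wp P W y₀ a c ⊆ Wp P W y₀ e f →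
        Wp P W y₀ e f ⊆ Wp P W y₀ a c := fun e f h1 h2 h3 =>
      hmax (j := (e, f)) ⟨h1, h2⟩ h3
    have hne : (Wp P W y₀ a c).Nonempty := by
      by_contra hcon'
      rw [Set.not_nonempty_iff_eq_empty] at hcon'
      exact hns fun y hy => by rw [hcon'] at hy; exact absurd hy (Set.notMem_empty y)
    have hcard : ∀ c, c ∉ S → ((insert c S)ᶜ).card ≤ n := by
      intro c hc
      rw [Finset.card_compl, Finset.card_insert_of_notMem hc]
      rw [Finset.card_compl] at hS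
      omega
    rcases grid hne (hag a c hJ) with h1 | h1
    · rw [Wp_comm] at h1
      obtain ⟨h2, x', h3, h4⟩ := greedy_step hT hag hinv hdiag (J_symm hJ)
        (fun h2 => hns (Sat_comm h2)) (by
          intro e f h2 h3 h4
          rw [Wp_comm c a] at h4 ⊢
          exact hmax' e f h2 h3 h4) h1
      exact ih _ x' (hcard a h2) h3 h4
    · obtain ⟨h2, x', h3, h4⟩ := greedy_step hT hag hinv hdiag hJ hns hmax' h1
      exact ih _ x' (hcard c h2) h3 h4

end Suf

open Suf in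
theorem ext_full {A B : Type} [Fintype A] [Fintype B] [DecidableEq A] [DecidableEq B]
    (P : Pat A B) (hG : P.Good) {VA : A → Type} {VB : B → Type} [∀ a, DecidableEq (VA a)]
    [∀ b, DecidableEq (VB b)] [∀ a, Nonempty (VA a)] (W : Set (∀ b, VB b))
    (h : (∀ b, VB b) → ∀ a, VA a)
    (hst : ∀ y ∈ W, ∀ y' ∈ W, y ≠ y' → P.N (Pat.diffs (h y) (h y')) (Pat.diffs y y'))
    (y₀ : ∀ b, VB b) (hy₀ : y₀ ∉ W) :
    ∃ x : ∀ a, VA a, ∀ y ∈ W, P.N (Pat.diffs x (h y)) (Pat.diffs y₀ y) := by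
  classical
  obtain ⟨hF, hT⟩ := hG
  -- two elements of `Wp a c` agree in the digit `a` or in the digit `c`
  have hag : ∀ a c, (a = c ∨ P.J a c) → ∀ y ∈ Wp P W y₀ a c, ∀ y' ∈ Wp P W y₀ a c,
      h y a = h y' a ∨ h y c = h y' c := by
    intro a c hac y hy y' hy'
    by_contra hcon
    push Not at hcon
    have hyy : y ≠ y' := by rintro rfl; exact hcon.1 rfl
    have h1 := P.not_D_of_N (hst y hy.1 y' hy'.1 hyy)
    rw [hF] at h1
    have hb : ∀ b ∈ Pat.diffs y y', P.gt a b ∨ P.gt c b := by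
      intro b hb
      simp only [Pat.diffs, Finset.mem_filter, Finset.mem_univ, true_and] at hb
      by_cases h2 : y₀ b = y b
      · exact hy'.2 b (by rw [h2]; exact hb)
      · exact hy.2 b h2
    have ha : a ∈ Pat.diffs (h y) (h y') := by
      simp only [Pat.diffs, Finset.mem_filter, Finset.mem_univ, true_and]; exact hcon.1
    have hc : c ∈ Pat.diffs (h y) (h y') := by
      simp only [Pat.diffs, Finset.mem_filter, Finset.mem_univ, true_and]; exact hcon.2
    apply h1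
    rcases hac with rfl | hJ
    · exact Or.inl ⟨a, ha, fun b hb' => (hb b hb').elim id id⟩
    · exact Or.inr ⟨a, ha, c, hc, hJ, hb⟩
  -- the start
  set S₀ : Finset A := Finset.univ.filter fun a => (Wp P W y₀ a a).Nonempty with hS₀
  have hx₀ : ∀ a, ∃ v : VA a, ∀ y ∈ Wp P W y₀ a a, h y a = v := by
    intro a
    rcases (Wp P W y₀ a a).eq_empty_or_nonempty with h1 | ⟨y₁, hy₁⟩
    · exact ⟨Classical.arbitrary _, fun y hy => by
        rw [h1] at hy; exact absurd hy (Set.notMem_empty y)⟩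
    · exact ⟨h y₁ a, fun y hy => (hag a a (Or.inl rfl) y hy y₁ hy₁).elim id id⟩
  choose x₀ hx₀ using hx₀
  have hdiag₀ : ∀ a, Sat P W y₀ h S₀ x₀ a a := by
    intro a y hy
    refine Or.inl ⟨?_, hx₀ a y hy⟩
    rw [hS₀, Finset.mem_filter]
    exact ⟨Finset.mem_univ a, y, hy⟩
  have hinv₀ : ∀ a c, P.J a c → ¬ Sat P W y₀ h S₀ x₀ a c → a ∈ S₀ →
      ¬ Cst h a (Wp P W y₀ a c) := by
    intro a c hJ hns ha ⟨v, hv⟩
    have ha' := ha
    rw [hS₀, Finset.mem_filter] at ha'
    obtain ⟨-, y₁, hy₁⟩ := ha'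
    have h1 : y₁ ∈ Wp P W y₀ a c := ⟨hy₁.1, fun b hb => Or.inl ((hy₁.2 b hb).elim id id)⟩
    apply hns
    intro y hy
    refine Or.inl ⟨ha, ?_⟩
    rw [hv y hy, ← hv y₁ h1]
    exact hx₀ a y₁ hy₁
  obtain ⟨S, x, hsat, hdiag⟩ := greedy hT (fun a c hJ => hag a c (Or.inr hJ)) _ S₀ x₀ le_rfl
    hinv₀ hdiag₀
  refine ⟨x, fun y hy => ?_⟩
  have hne : (Pat.diffs y₀ y).Nonempty := by
    by_contra hcon
    rw [Finset.not_nonempty_iff_eq_empty] at hcon
    apply hy₀
    have : y₀ = y := by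
      funext b
      by_contra hb
      have h1 : b ∈ Pat.diffs y₀ y := by
        simp only [Pat.diffs, Finset.mem_filter, Finset.mem_univ, true_and]; exact hb
      rw [hcon] at h1
      exact absurd h1 (Finset.notMem_empty b)
    rw [this]; exact hy
  apply P.N_of_not_D hne
  rw [hF]
  have hdif : ∀ a, a ∈ Pat.diffs x (h y) → ¬ h y a = x a := by
    intro a ha h1
    simp only [Pat.diffs, Finset.mem_filter, Finset.mem_univ, true_and] at ha
    exact ha h1.symm
  rintro (⟨a, ha, hab⟩ | ⟨a, ha, c, hc, hJ, hab⟩)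
  · have hyW : y ∈ Wp P W y₀ a a := ⟨hy, fun b hb => Or.inl (hab b (by
      simp only [Pat.diffs, Finset.mem_filter, Finset.mem_univ, true_and]; exact hb))⟩
    rcases hdiag a y hyW with h1 | h1
    · exact hdif a ha h1.2
    · exact hdif a ha h1.2
  · have hyW : y ∈ Wp P W y₀ a c := ⟨hy, fun b hb => hab b (by
      simp only [Pat.diffs, Finset.mem_filter, Finset.mem_univ, true_and]; exact hb)⟩
    rcases hsat a c hJ y hyW with h1 | h1
    · exact hdif a ha h1.2
    · exact hdif c hc h1.2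

end Pool.Agent.Cis
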