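import Pool.Agent.H.MP_1bdfda_lc.Circ

/-!
Tilings of the cyclic group from CIS circulants, the theorem of Tijdeman, gcd graphs.
-/

namespace Pool.Agent.Cis

open SimpleGraph

section
variable {n : ℕ} [NeZero n]

/-- translate of a set -/
lemma maximal_indep_translate {D : Set (ZMod n)} (hD : Conn D) {S : Set (ZMod n)}
    (hS : Maximal (circulantGraph D).IsIndepSet S) (t : ZMod n) :
    Maximal (circulantGraph D).IsIndepSet ((fun s => s + t) '' S) := by
  have hadj : ∀ x y : ZMod n, (circulantGraph D).Adj (x + t) (y + t) ↔ (circulantGraph D).Adj x y := by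
    intro x y
    rw [circ_adj hD, circ_adj hD, add_sub_add_right_eq_sub]
  constructor
  · rintro _ ⟨x, hx, rfl⟩ _ ⟨y, hy, rfl⟩ hne
    simp only
    rw [hadj]
    exact hS.1 hx hy (fun h => hne (by rw [h]))
  · intro S' hS' hle
    have h1 : (circulantGraph D).IsIndepSet ((fun s => s - t) '' S') := by
      rintro _ ⟨x, hx, rfl⟩ _ ⟨y, hy, rfl⟩ hne
      simp only
      rw [← hadj, sub_add_cancel, sub_add_cancel]
      exact hS' hx hy (fun h => hne (by rw [h]))
    have h2 : S ≤ (fun s => s - t) '' S' := by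
      intro s hs
      exact ⟨s + t, hle ⟨s, hs, rfl⟩, by simp⟩
    have h3 := hS.2 h1 h2
    intro s hs
    exact ⟨s - t, h3 ⟨s, hs, rfl⟩, by simp⟩

/-- a clique and a stable set have at most one common element -/
lemma clique_indep_unique {V : Type} {G : SimpleGraph V} {C S : Set V} (hC : G.IsClique C)
    (hS : G.IsIndepSet S) {x y : V} (hx : x ∈ C) (hx' : x ∈ S) (hy : y ∈ C) (hy' : y ∈ S) :
    x = y := by
  by_contra hne
  exact hS hx' hy' hne (hC hx hy hne)

/-- In a CIS circulant a maximal clique and a maximal stable set tile the group. -/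
theorem tiling_of_cis {D : Set (ZMod n)} (hD : Conn D)
    (hG : IsCIS (SimpleGraph.circulantGraph D)) {C S : Finset (ZMod n)}
    (hC : Maximal (SimpleGraph.circulantGraph D).IsClique (C : Set (ZMod n)))
    (hS : Maximal (SimpleGraph.circulantGraph D).IsIndepSet (S : Set (ZMod n))) :
    Tiling C (S.image fun s => -s) := by
  have hun : ∀ t : ZMod n, ∀ c ∈ C, ∀ c' ∈ C, ∀ s ∈ S, ∀ s' ∈ S, c - s = t → c' - s' = t →
      c = c' ∧ s = s' := by
    intro t c hc c' hc' s hs s' hs' h h'
    have h1 := maximal_indep_translate hD hS t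
    have h2 : c = c' := clique_indep_unique hC.1 h1.1 hc ⟨s, hs, by simp [← h]⟩ hc'
      ⟨s', hs', by simp [← h']⟩
    refine ⟨h2, ?_⟩
    have h3 : c - s = c' - s' := by rw [h, h']
    rw [h2] at h3
    simpa using h3
  have hfib : ∀ t : ZMod n, ((C ×ˢ S).filter fun p => p.1 - p.2 = t).card = 1 := by
    intro t
    rw [Finset.card_eq_one]
    obtain ⟨c, hc, s, hs, hst⟩ := hG _ _ hC (maximal_indep_translate hD hS t)
    refine ⟨(c, s), ?_⟩
    ext ⟨c', s'⟩
    simp only [Finset.mem_filter, Finset.mem_product, Finset.mem_singleton, Prod.mk.injEq]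
    constructor
    · rintro ⟨⟨h1, h2⟩, h3⟩
      have := hun t c' h1 c hc s' h2 s hs h3 (by simp only at hst; rw [← hst]; ring)
      exact this
    · rintro ⟨rfl, rfl⟩
      exact ⟨⟨hc, hs⟩, by simp only at hst; rw [← hst]; ring⟩
  constructor
  · rw [Finset.card_image_of_injective _ neg_injective, ← Finset.card_product,
      Finset.card_eq_sum_card_fiberwise (f := fun p : ZMod n × ZMod n => p.1 - p.2)
        (t := Finset.univ) (fun _ _ => Finset.mem_coe.mpr (Finset.mem_univ _))]
    simp_rw [hfib]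
    simp [ZMod.card]
  · intro c hc c' hc' t ht t' ht' h
    obtain ⟨s, hs, rfl⟩ := Finset.mem_image.mp ht
    obtain ⟨s', hs', rfl⟩ := Finset.mem_image.mp ht'
    have := hun (c - s) c hc c' hc' s hs s' hs' rfl (by rw [sub_eq_add_neg, ← h, sub_eq_add_neg])
    exact ⟨this.1, by rw [this.2]⟩

/-- Conversely, if the cardinalities fit, the circulant is CIS. -/
theorem cis_of_card {D : Set (ZMod n)} (hD : Conn D) {w a : ℕ} (hwa : w * a = n)
    (hC : ∀ C : Finset (ZMod n),
      Maximal (SimpleGraph.circulantGraph D).IsClique (C : Set (ZMod n)) → C.card = w)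
    (hS : ∀ S : Finset (ZMod n),
      Maximal (SimpleGraph.circulantGraph D).IsIndepSet (S : Set (ZMod n)) → S.card = a) :
    IsCIS (SimpleGraph.circulantGraph D) := by
  classical
  intro C S hCm hSm
  set C' := C.toFinite.toFinset with hC'
  set S' := S.toFinite.toFinset with hS'
  have hCC : (C' : Set (ZMod n)) = C := C.toFinite.coe_toFinset
  have hSS : (S' : Set (ZMod n)) = S := S.toFinite.coe_toFinset
  have h1 := hC C' (by rw [hCC]; exact hCm)
  have h2 := hS S' (by rw [hSS]; exact hSm)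
  have hle : ∀ t : ZMod n, ((C' ×ˢ S').filter fun p => p.1 - p.2 = t).card ≤ 1 := by
    intro t
    rw [Finset.card_le_one]
    rintro ⟨c, s⟩ h ⟨c', s'⟩ h'
    simp only [Finset.mem_filter, Finset.mem_product] at h h'
    have h3 := maximal_indep_translate hD hSm t
    have hc : c = c' := by
      refine clique_indep_unique hCm.1 h3.1 (hCC ▸ h.1.1) ⟨s, hSS ▸ h.1.2, ?_⟩ (hCC ▸ h'.1.1)
        ⟨s', hSS ▸ h'.1.2, ?_⟩
      · simp [← h.2]
      · simp [← h'.2]
    have h4 : c - s = c' - s' := by rw [h.2, h'.2]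
    rw [hc] at h4
    rw [hc, sub_right_inj.mp h4]
  have hsum : ∑ t : ZMod n, ((C' ×ˢ S').filter fun p => p.1 - p.2 = t).card = n := by
    rw [← Finset.card_eq_sum_card_fiberwise (f := fun p : ZMod n × ZMod n => p.1 - p.2)
        (t := Finset.univ) (fun _ _ => Finset.mem_coe.mpr (Finset.mem_univ _)),
      Finset.card_product, h1, h2, hwa]
  have hall : ∀ t : ZMod n, ((C' ×ˢ S').filter fun p => p.1 - p.2 = t).card = 1 := by
    by_contra hcon
    push Not at hcon
    obtain ⟨t, ht⟩ := hcon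
    have hlt : ∑ t : ZMod n, ((C' ×ˢ S').filter fun p => p.1 - p.2 = t).card <
        ∑ _t : ZMod n, 1 := by
      apply Finset.sum_lt_sum (fun t _ => hle t)
      exact ⟨t, Finset.mem_univ t, lt_of_le_of_ne (hle t) ht⟩
    rw [hsum] at hlt
    simp [ZMod.card] at hlt
  have h0 := hall 0
  obtain ⟨⟨c, s⟩, hcs⟩ := Finset.card_pos.mp (by rw [h0]; exact one_pos :
    0 < ((C' ×ˢ S').filter fun p => p.1 - p.2 = 0).card)
  simp only [Finset.mem_filter, Finset.mem_product, sub_eq_zero] at hcs
  exact ⟨c, hCC ▸ hcs.1.1, hSS ▸ hcs.2 ▸ hcs.1.2⟩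

open AddMonoidAlgebra in
/-- the number of representations modulo `k` -/
lemma rep_count_mod {C T : Finset (ZMod n)} (h : Tiling C T) {k : ℕ} (hk : k.Prime)
    (hkC : ¬ k ∣ C.card) (x : ZMod n) :
    (((C ×ˢ T).filter fun p => (k : ZMod n) * p.1 + p.2 = x).card : ZMod k) = 1 := by
  classical
  have : Fact k.Prime := ⟨hk⟩
  have : CharP (AddMonoidAlgebra (ZMod k) (ZMod n)) k :=
    charP_of_injective_algebraMap (R := ZMod k)
      (FaithfulSMul.algebraMap_injective (ZMod k) (AddMonoidAlgebra (ZMod k) (ZMod n))) k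
  set f : AddMonoidAlgebra (ZMod k) (ZMod n) := ∑ c ∈ C, single c 1 with hf
  set g : AddMonoidAlgebra (ZMod k) (ZMod n) := ∑ t ∈ T, single t 1 with hg
  set U : AddMonoidAlgebra (ZMod k) (ZMod n) := ∑ x : ZMod n, single x 1 with hU
  have hfg : f * g = U := by
    rw [hf, hg, Finset.sum_mul_sum, ← Finset.sum_product', hU]
    simp_rw [single_mul_single, mul_one]
    have himg : (C ×ˢ T).image (fun p => p.1 + p.2) = Finset.univ := by
      apply Finset.eq_univ_of_card
      rw [Finset.card_image_of_injOn, Finset.card_product, h.1, ZMod.card]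
      rintro ⟨c, t⟩ hp ⟨c', t'⟩ hp' heq
      simp only [Finset.coe_product, Set.mem_prod, Finset.mem_coe] at hp hp'
      obtain ⟨h1, h2⟩ := h.2 c hp.1 c' hp'.1 t hp.2 t' hp'.2 heq
      rw [h1, h2]
    rw [← himg, Finset.sum_image]
    rintro ⟨c, t⟩ hp ⟨c', t'⟩ hp' heq
    simp only [Finset.coe_product, Set.mem_prod, Finset.mem_coe] at hp hp'
    obtain ⟨h1, h2⟩ := h.2 c hp.1 c' hp'.1 t hp.2 t' hp'.2 heq
    rw [h1, h2]
  have hsU : ∀ c : ZMod n, single c (1 : ZMod k) * U = U := by
    intro c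
    rw [hU, Finset.mul_sum]
    simp_rw [single_mul_single, mul_one]
    exact Fintype.sum_equiv (Equiv.addLeft c) _ _ (fun x => rfl)
  have hfU : f * U = (C.card : AddMonoidAlgebra (ZMod k) (ZMod n)) * U := by
    rw [hf, Finset.sum_mul]
    simp_rw [hsU]
    simp
  have hfmU : ∀ m : ℕ, f ^ m * U = ((C.card : AddMonoidAlgebra (ZMod k) (ZMod n))) ^ m * U := by
    intro m
    induction m with
    | zero => simp
    | succ m ih => rw [pow_succ, mul_assoc, hfU, mul_left_comm, ih, pow_succ]; ring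
  have hfk : f ^ k = ∑ c ∈ C, single ((k : ZMod n) * c) 1 := by
    rw [hf, sum_pow_char]
    refine Finset.sum_congr rfl fun c _ => ?_
    rw [single_pow, one_pow, nsmul_eq_mul]
  have hone : ((C.card : AddMonoidAlgebra (ZMod k) (ZMod n))) ^ (k - 1) = 1 := by
    have h1 : ((C.card : ZMod k)) ^ (k - 1) = 1 := by
      apply ZMod.pow_card_sub_one_eq_one
      rwa [Ne, ZMod.natCast_eq_zero_iff]
    have h2 := congrArg (algebraMap (ZMod k) (AddMonoidAlgebra (ZMod k) (ZMod n))) h1
    rw [map_pow, map_natCast, map_one] at h2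
    exact h2
  have hfkg : f ^ k * g = U := by
    calc f ^ k * g = f ^ ((k - 1) + 1) * g := by rw [Nat.sub_add_cancel hk.one_le]
      _ = U := by rw [pow_succ, mul_assoc, hfg, hfmU, hone, one_mul]
  rw [hfk, hg, Finset.sum_mul_sum, ← Finset.sum_product'] at hfkg
  simp_rw [single_mul_single, mul_one] at hfkg
  have h3 := congrArg (fun u : AddMonoidAlgebra (ZMod k) (ZMod n) => u.coeff x) hfkg
  simp only [hU, coeff_sum, coeff_single, Finsupp.coe_finsetSum, Finset.sum_apply,
    Finsupp.single_apply] at h3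
  rw [Finset.sum_ite_eq' Finset.univ x] at h3
  simp only [Finset.mem_univ, if_true] at h3
  rw [← h3, Finset.sum_boole]

/-- Tijdeman: a prime which does not divide the cardinality of the first factor of a tiling can be
used as a multiplier of this factor. -/
theorem tiling_smul {C T : Finset (ZMod n)} (h : Tiling C T) {k : ℕ} (hk : k.Prime)
    (hkC : ¬ k ∣ C.card) :
    Tiling (C.image fun c => (k : ZMod n) * c) T ∧
      (C.image fun c => (k : ZMod n) * c).card = C.card := by
  classical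
  have : Fact k.Prime := ⟨hk⟩
  have hn : 0 < n := Nat.pos_of_ne_zero (NeZero.ne n)
  have hpos : ∀ x : ZMod n, 1 ≤ ((C ×ˢ T).filter fun p => (k : ZMod n) * p.1 + p.2 = x).card := by
    intro x
    by_contra hcon
    have h0 : ((C ×ˢ T).filter fun p => (k : ZMod n) * p.1 + p.2 = x).card = 0 := by omega
    have h1 := rep_count_mod h hk hkC x
    rw [h0, Nat.cast_zero] at h1
    exact zero_ne_one h1
  have hsum : ∑ x : ZMod n, ((C ×ˢ T).filter fun p => (k : ZMod n) * p.1 + p.2 = x).card = n := by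
    rw [← Finset.card_eq_sum_card_fiberwise
        (f := fun p : ZMod n × ZMod n => (k : ZMod n) * p.1 + p.2)
        (t := Finset.univ) (fun _ _ => Finset.mem_coe.mpr (Finset.mem_univ _)),
      Finset.card_product, h.1]
  have hall : ∀ x : ZMod n,
      ((C ×ˢ T).filter fun p => (k : ZMod n) * p.1 + p.2 = x).card = 1 := by
    by_contra hcon
    push Not at hcon
    obtain ⟨t, ht⟩ := hcon
    have hlt : ∑ _t : ZMod n, 1 <
        ∑ x : ZMod n, ((C ×ˢ T).filter fun p => (k : ZMod n) * p.1 + p.2 = x).card := by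
      apply Finset.sum_lt_sum (fun t _ => hpos t)
      exact ⟨t, Finset.mem_univ t, lt_of_le_of_ne (hpos t) (Ne.symm ht)⟩
    rw [hsum] at hlt
    simp [ZMod.card] at hlt
  have hinj : ∀ c ∈ C, ∀ c' ∈ C, ∀ t ∈ T, ∀ t' ∈ T,
      (k : ZMod n) * c + t = (k : ZMod n) * c' + t' → c = c' ∧ t = t' := by
    intro c hc c' hc' t ht t' ht' heq
    have h1 := hall ((k : ZMod n) * c + t)
    rw [Finset.card_eq_one] at h1
    obtain ⟨p, hp⟩ := h1
    have h2 : (c, t) ∈ (C ×ˢ T).filter fun p => (k : ZMod n) * p.1 + p.2 = (k : ZMod n) * c + t := by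
      simp [hc, ht]
    have h3 : (c', t') ∈
        (C ×ˢ T).filter fun p => (k : ZMod n) * p.1 + p.2 = (k : ZMod n) * c + t := by
      simp [hc', ht', heq]
    rw [hp, Finset.mem_singleton] at h2 h3
    have h4 := h2.trans h3.symm
    exact ⟨congrArg Prod.fst h4, congrArg Prod.snd h4⟩
  have hT : T.Nonempty := by
    rw [← Finset.card_pos]
    by_contra hcon
    have h0 : T.card = 0 := by omega
    have := h.1
    rw [h0, mul_zero] at this
    omega
  obtain ⟨t₀, ht₀⟩ := hT
  have hcard : (C.image fun c => (k : ZMod n) * c).card = C.card := by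
    apply Finset.card_image_of_injOn
    intro c hc c' hc' heq
    simp only at heq
    exact (hinj c hc c' hc' t₀ ht₀ t₀ ht₀ (by rw [heq])).1
  refine ⟨⟨by rw [hcard, h.1], ?_⟩, hcard⟩
  intro c hc c' hc' t ht t' ht' heq
  obtain ⟨b, hb, rfl⟩ := Finset.mem_image.mp hc
  obtain ⟨b', hb', rfl⟩ := Finset.mem_image.mp hc'
  obtain ⟨h1, h2⟩ := hinj b hb b' hb' t ht t' ht' heq
  exact ⟨by rw [h1], h2⟩

/-- the connection set of a CIS circulant is closed under multiplication by primes -/
lemma prime_mul_mem {D : Set (ZMod n)} (hD : Conn D)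
    (hG : IsCIS (SimpleGraph.circulantGraph D)) {k : ℕ} (hk : k.Prime) (hkn : k.Coprime n)
    {d : ZMod n} (hd : d ∈ D) : (k : ZMod n) * d ∈ D := by
  classical
  have hu : IsUnit (k : ZMod n) := (ZMod.isUnit_iff_coprime k n).mpr hkn
  have hd0 : d ≠ 0 := fun h => hD.1 (h ▸ hd)
  have h0 : (circulantGraph D).IsClique ({0, d} : Set (ZMod n)) := by
    intro x hx y hy hne
    rw [circ_adj hD]
    rcases hx with rfl | rfl <;> rcases hy with rfl | rfl
    · exact absurd rfl hne
    · rw [zero_sub]; exact hD.2 _ hd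
    · rwa [sub_zero]
    · exact absurd rfl hne
  obtain ⟨C, hCle, hC⟩ := Finite.exists_le_maximal (p := (circulantGraph D).IsClique) h0
  set C' := C.toFinite.toFinset with hC'
  have hCC : (C' : Set (ZMod n)) = C := C.toFinite.coe_toFinset
  have hCm : Maximal (circulantGraph D).IsClique (C' : Set (ZMod n)) := by rw [hCC]; exact hC
  by_contra hcon
  have hkd : (k : ZMod n) * d ≠ 0 := by
    intro h
    exact hd0 ((hu.mul_right_eq_zero).mp h)
  have h1 : (circulantGraph D).IsIndepSet ({0, (k : ZMod n) * d} : Set (ZMod n)) := by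
    intro x hx y hy hne
    rw [circ_adj hD]
    rcases hx with rfl | rfl <;> rcases hy with rfl | rfl
    · exact absurd rfl hne
    · rw [zero_sub]
      intro h
      exact hcon (by simpa using hD.2 _ h)
    · rwa [sub_zero]
    · exact absurd rfl hne
  obtain ⟨S, hSle, hS⟩ := Finite.exists_le_maximal (p := (circulantGraph D).IsIndepSet) h1
  set S' := S.toFinite.toFinset with hS'
  have hSS : (S' : Set (ZMod n)) = S := S.toFinite.coe_toFinset
  have hSm : Maximal (circulantGraph D).IsIndepSet (S' : Set (ZMod n)) := by rw [hSS]; exact hS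
  have ht := tiling_of_cis hD hG hCm hSm
  have hkC : ¬ k ∣ C'.card := by
    intro h
    have h2 : k ∣ n := by rw [← ht.1]; exact h.mul_right _
    exact (Nat.Prime.coprime_iff_not_dvd hk).mp hkn h2
  have h2 := (tiling_smul ht hk hkC).1
  have m0 : (0 : ZMod n) ∈ C' := by
    rw [← Finset.mem_coe, hCC]; exact hCle (by simp)
  have md : d ∈ C' := by
    rw [← Finset.mem_coe, hCC]; exact hCle (by simp)
  have s0 : (0 : ZMod n) ∈ S' := by
    rw [← Finset.mem_coe, hSS]; exact hSle (by simp)
  have sd : (k : ZMod n) * d ∈ S' := by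
    rw [← Finset.mem_coe, hSS]; exact hSle (by simp)
  have h3 := h2.2 ((k : ZMod n) * 0) (Finset.mem_image_of_mem _ m0) ((k : ZMod n) * d)
    (Finset.mem_image_of_mem _ md) (-0) (Finset.mem_image_of_mem _ s0) (-((k : ZMod n) * d))
    (Finset.mem_image_of_mem (fun s => -s) sd) (by simp)
  exact hkd (by rw [← h3.1, mul_zero])

lemma coprime_mul_mem {D : Set (ZMod n)} (hD : Conn D)
    (hG : IsCIS (SimpleGraph.circulantGraph D)) (m : ℕ) :
    m.Coprime n → ∀ d ∈ D, (m : ZMod n) * d ∈ D := by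
  induction m using Nat.recOnMul with
  | zero =>
    intro h d hd
    have h1 : n = 1 := by simpa using h
    subst h1
    have : d = 0 := Subsingleton.elim _ _
    rw [this, mul_zero, ← this]; exact hd
  | one => intro _ d hd; simpa using hd
  | prime p hp => intro h d hd; exact prime_mul_mem hD hG hp h hd
  | mul a b ha hb =>
    intro h d hd
    rw [Nat.cast_mul, mul_assoc]
    exact ha (Nat.Coprime.coprime_mul_right h) _ (hb (Nat.Coprime.coprime_mul_left h) _ hd)

/-- CIS circulants are gcd graphs. -/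
theorem gcdClosed_of_cis {D : Set (ZMod n)} (hD : Conn D)
    (hG : IsCIS (SimpleGraph.circulantGraph D)) : GcdClosed D := by
  have hunit : ∀ u : ZMod n, IsUnit u → ∀ d ∈ D, u * d ∈ D := by
    intro u hu d hd
    have h1 : u.val.Coprime n := by
      rw [← ZMod.isUnit_iff_coprime, ZMod.natCast_zmod_val]
      exact hu
    have h2 := coprime_mul_mem hD hG u.val h1 d hd
    rwa [ZMod.natCast_zmod_val] at h2
  have hgcd : ∀ x : ZMod n, ∃ u : ZMod n, IsUnit u ∧ x = u * (Nat.gcd x.val n : ℕ) := by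
    intro x
    obtain ⟨d, hd, u, hu, rfl⟩ := ZMod.eq_unit_mul_divisor x
    refine ⟨u, hu, ?_⟩
    congr 2
    have h1 : u.val.Coprime n := by
      rw [← ZMod.isUnit_iff_coprime, ZMod.natCast_zmod_val]
      exact hu
    have h2 : (u * (d : ZMod n)).val = (u.val * d) % n := by
      conv_lhs => rw [← ZMod.natCast_zmod_val u]
      rw [← Nat.cast_mul, ZMod.val_natCast]
    rw [h2, ← Nat.gcd_rec, Nat.gcd_comm, Nat.Coprime.gcd_mul_left_cancel d h1]
    exact (Nat.gcd_eq_left hd).symm
  have key : ∀ x y : ZMod n, Nat.gcd x.val n = Nat.gcd y.val n → x ∈ D → y ∈ D := by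
    intro x y hxy hx
    obtain ⟨u, hu, hxu⟩ := hgcd x
    obtain ⟨v, hv, hyv⟩ := hgcd y
    obtain ⟨u', rfl⟩ := hu
    have h1 : y = (v * ((u'⁻¹ : (ZMod n)ˣ) : ZMod n)) * x := by
      rw [hyv, ← hxy, mul_assoc, hxu]
      congr 1
      rw [← mul_assoc, Units.inv_mul, one_mul, ← hxu]
    rw [h1]
    exact hunit _ (hv.mul (Units.isUnit _)) _ hx
  intro x y hxy
  exact ⟨key x y hxy, key y x hxy.symm⟩

end

end Pool.Agent.Cis
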