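import Pool.Agent.H.MP_1bdfda_lc.CPat
import Pool.Agent.H.MP_1bdfda_lc.DefsE
import Pool.Agent.H.MP_1bdfda_lc.Tij
import Pool.Agent.H.MP_1bdfda_lc.Dig
import Pool.Agent.H.MP_1bdfda_lc.Suf

/-!
Good patterns give CIS circulants.
-/

namespace Pool.Agent.Cis

/-- A maximal set of vertices which pairwise satisfy `P.N` meets every column in exactly one
vertex. -/
lemma Back.card_of_max {V A B : Type} [Fintype A] [Fintype B] [DecidableEq A] [DecidableEq B]
    (P : Pat A B) (hG : P.Good) {VA : A → Type} {VB : B → Type} [∀ a, DecidableEq (VA a)]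
    [∀ b, DecidableEq (VB b)] [∀ a, Nonempty (VA a)] [Fintype (∀ b, VB b)]
    (α : V → ∀ a, VA a) (β : V → ∀ b, VB b) (hex : ∀ x y, ∃ z, α z = x ∧ β z = y)
    (R : V → V → Prop)
    (hR : ∀ u v, R u v ↔ P.N (Pat.diffs (α u) (α v)) (Pat.diffs (β u) (β v)))
    (T : Finset V) (hT : ∀ u ∈ T, ∀ v ∈ T, u ≠ v → R u v)
    (hmax : ∀ z, (∀ u ∈ T, R z u) → z ∈ T) : T.card = Fintype.card (∀ b, VB b) := by
  classical
  have hinj : ∀ u ∈ T, ∀ v ∈ T, β u = β v → u = v := by
    intro u hu v hv huv
    by_contra hne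
    have h1 := (hR u v).1 (hT u hu v hv hne)
    have h2 : Pat.diffs (β u) (β v) = ∅ := by
      simp [Pat.diffs, huv]
    rw [h2] at h1
    exact P.N0 _ h1
  have hsurj : ∀ y : (∀ b, VB b), ∃ u ∈ T, β u = y := by
    by_contra hcon
    push Not at hcon
    obtain ⟨y₀, hy₀⟩ := hcon
    obtain ⟨x₀⟩ : Nonempty (∀ a, VA a) := inferInstance
    set W : Set (∀ b, VB b) := {y | ∃ u ∈ T, β u = y} with hW
    set h : (∀ b, VB b) → ∀ a, VA a := fun y =>
      if hy : ∃ u, u ∈ T ∧ β u = y then α hy.choose else x₀ with hh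
    have hhu : ∀ u ∈ T, h (β u) = α u := by
      intro u hu
      have hex' : ∃ v, v ∈ T ∧ β v = β u := ⟨u, hu, rfl⟩
      rw [hh]
      simp only [dif_pos hex']
      rw [hinj _ hex'.choose_spec.1 u hu hex'.choose_spec.2]
    have hst : ∀ y ∈ W, ∀ y' ∈ W, y ≠ y' → P.N (Pat.diffs (h y) (h y')) (Pat.diffs y y') := by
      rintro y ⟨u, hu, rfl⟩ y' ⟨v, hv, rfl⟩ hne
      rw [hhu u hu, hhu v hv, ← hR]
      exact hT u hu v hv fun huv => hne (by rw [huv])
    obtain ⟨x, hx⟩ := ext_full P hG W h hst y₀ (by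
      rintro ⟨u, hu, huy⟩
      exact hy₀ u hu huy)
    obtain ⟨z, hzx, hzy⟩ := hex x y₀
    have hz : z ∈ T := by
      apply hmax
      intro u hu
      rw [hR, hzx, hzy, ← hhu u hu]
      exact hx (β u) ⟨u, hu, rfl⟩
    exact hy₀ z hz hzy
  rw [← Finset.card_univ, ← Finset.card_image_of_injOn (s := T) (f := β)
    (fun u hu v hv huv => hinj u hu v hv huv)]
  congr 1
  ext y
  simp only [Finset.mem_image, Finset.mem_univ, iff_true]
  exact hsurj y

section
variable {n : ℕ} [NeZero n]

theorem cis_of_goodE {D : Set (ZMod n)} (hD : Conn D) (hc : GcdClosed D) (h1 : GoodE D)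
    (h2 : GoodE (co D)) : IsCIS (SimpleGraph.circulantGraph D) := by
  classical
  obtain ⟨P, hPD, hPN⟩ := exists_pat hD.1 (mono_of_goodE hc h1 h2)
  have hG : P.Good := (good_iff P hPD).2 h1
  have hG' : P.dual.Good := (dual_good_iff hD hc P hPN).2 h2
  -- digits
  set α : ZMod n → ∀ a : LA D, Fin a.1.1.minFac := fun z a => ⟨dig a.1.1 z, dig_lt a.1 z⟩ with hα
  set β : ZMod n → ∀ b : LB D, Fin b.1.1.minFac := fun z b => ⟨dig b.1.1 z, dig_lt b.1 z⟩ with hβ
  have hex : ∀ x y, ∃ z, α z = x ∧ β z = y := by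
    intro x y
    obtain ⟨z, hz⟩ := exists_dig (n := n)
      (fun q => if hq : ft D {q} then (x ⟨q, hq⟩ : ℕ) else (y ⟨q, hq⟩ : ℕ)) (by
        intro q
        dsimp only
        split_ifs with hq
        · exact (x ⟨q, hq⟩).2
        · exact (y ⟨q, hq⟩).2)
    refine ⟨z, ?_, ?_⟩
    · funext a
      apply Fin.ext
      have h3 := hz a.1
      rw [dif_pos a.2] at h3
      exact h3
    · funext b
      apply Fin.ext
      have h3 := hz b.1
      rw [dif_neg b.2] at h3
      exact h3
  have hinj : ∀ u v, α u = α v → β u = β v → u = v := by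
    intro u v h3 h4
    refine eq_of_dig fun q => ?_
    by_cases hq : ft D {q}
    · exact congrArg Fin.val (congrFun h3 ⟨q, hq⟩)
    · exact congrArg Fin.val (congrFun h4 ⟨q, hq⟩)
  -- the difference sets
  have hdset : ∀ u v, dset u v = joinS D (Pat.diffs (α u) (α v)) (Pat.diffs (β u) (β v)) := by
    intro u v
    ext q
    simp only [dset, joinS, Pat.diffs, Finset.mem_filter, Finset.mem_univ, true_and,
      Finset.mem_union, Finset.mem_map, Function.Embedding.subtype_apply]
    constructor
    · intro h3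
      by_cases hq : ft D {q}
      · exact Or.inl ⟨⟨q, hq⟩, fun h4 => h3 (congrArg Fin.val h4), rfl⟩
      · exact Or.inr ⟨⟨q, hq⟩, fun h4 => h3 (congrArg Fin.val h4), rfl⟩
    · rintro (⟨a, h3, rfl⟩ | ⟨b, h3, rfl⟩)
      · exact fun h4 => h3 (Fin.ext h4)
      · exact fun h4 => h3 (Fin.ext h4)
  have hadj : ∀ u v, (SimpleGraph.circulantGraph D).Adj u v ↔
      P.D (Pat.diffs (α u) (α v)) (Pat.diffs (β u) (β v)) := by
    intro u v
    rw [circ_adj hD, mem_iff_ft hc, hdset, hPD]
  have hnadj : ∀ u v, (u ≠ v ∧ ¬ (SimpleGraph.circulantGraph D).Adj u v) ↔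
      P.N (Pat.diffs (α u) (α v)) (Pat.diffs (β u) (β v)) := by
    intro u v
    rw [hadj, hPD, hPN]
    have h3 : u ≠ v ↔ ((Pat.diffs (α u) (α v)).Nonempty ∨ (Pat.diffs (β u) (β v)).Nonempty) := by
      constructor
      · intro hne
        by_contra hcon
        push Not at hcon
        obtain ⟨h4, h5⟩ := hcon
        apply hne
        apply hinj
        · funext a
          by_contra h6
          have : a ∈ Pat.diffs (α u) (α v) := by
            simp only [Pat.diffs, Finset.mem_filter, Finset.mem_univ, true_and]; exact h6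
          rw [h4] at this
          exact absurd this (Finset.notMem_empty a)
        · funext a
          by_contra h6
          have : a ∈ Pat.diffs (β u) (β v) := by
            simp only [Pat.diffs, Finset.mem_filter, Finset.mem_univ, true_and]; exact h6
          rw [h5] at this
          exact absurd this (Finset.notMem_empty a)
      · rintro h4 rfl
        simp [Pat.diffs] at h4
    rw [h3]
  -- the cardinalities
  have hcard : Fintype.card (∀ a : LA D, Fin a.1.1.minFac) *
      Fintype.card (∀ b : LB D, Fin b.1.1.minFac) = n := by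
    rw [← Fintype.card_prod]
    refine Eq.trans (Fintype.card_of_bijective (f := fun z : ZMod n => (α z, β z))
      ⟨?_, ?_⟩).symm (ZMod.card n)
    · intro u v huv
      exact hinj u v (congrArg Prod.fst huv) (congrArg Prod.snd huv)
    · rintro ⟨x, y⟩
      obtain ⟨z, hzx, hzy⟩ := hex x y
      exact ⟨z, Prod.ext hzx hzy⟩
  have hpos : ∀ q : Lv n, Nonempty (Fin q.1.minFac) := fun q => ⟨⟨0, Nat.minFac_pos _⟩⟩
  have : ∀ a : LA D, Nonempty (Fin a.1.1.minFac) := fun a => hpos a.1
  have : ∀ b : LB D, Nonempty (Fin b.1.1.minFac) := fun b => hpos b.1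
  refine cis_of_card hD hcard (fun C hC => ?_) (fun S hS => ?_)
  · -- cliques: the dual pattern
    refine Back.card_of_max P.dual hG' β α (fun x y => ?_)
      (fun u v => (SimpleGraph.circulantGraph D).Adj u v) (fun u v => hadj u v) C ?_ ?_
    · obtain ⟨z, h3, h4⟩ := hex y x
      exact ⟨z, h4, h3⟩
    · intro u hu v hv huv
      exact hC.1 hu hv huv
    · intro z hz
      have h3 : (SimpleGraph.circulantGraph D).IsClique (insert z (C : Set (ZMod n))) := by
        rw [SimpleGraph.isClique_insert]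
        exact ⟨hC.1, fun u hu _ => hz u hu⟩
      exact hC.2 h3 (Set.subset_insert _ _) (Set.mem_insert _ _)
  · -- stable sets
    refine Back.card_of_max P hG α β hex
      (fun u v => u ≠ v ∧ ¬ (SimpleGraph.circulantGraph D).Adj u v) hnadj S ?_ ?_
    · intro u hu v hv huv
      exact ⟨huv, hS.1 hu hv huv⟩
    · intro z hz
      have h3 : (SimpleGraph.circulantGraph D).IsIndepSet (insert z (S : Set (ZMod n))) := by
        intro u hu v hv huv
        rcases Set.mem_insert_iff.mp hu with hu' | hu'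
        · rcases Set.mem_insert_iff.mp hv with hv' | hv'
          · exact absurd (hu'.trans hv'.symm) huv
          · rw [hu']; exact (hz v hv').2
        · rcases Set.mem_insert_iff.mp hv with hv' | hv'
          · rw [hv']; exact fun h4 => (hz u hu').2 h4.symm
          · exact hS.1 hu' hv' huv
      exact hS.2 h3 (Set.subset_insert _ _) (Set.mem_insert _ _)

end

end Pool.Agent.Cis
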