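import Pool.Agent.H.MP_1bdfda_lc.Shift

/-!
The pattern of a circulant.
-/

namespace Pool.Agent.Cis

set_option linter.unusedSectionVars false

variable {n : ℕ} [NeZero n]

/-- the levels of the first kind -/
abbrev LA (D : Set (ZMod n)) := {q : Lv n // ft D {q}}
/-- the levels of the second kind -/
abbrev LB (D : Set (ZMod n)) := {q : Lv n // ¬ ft D {q}}

/-- the union of a set of levels of the first kind and a set of levels of the second kind -/
def joinS (D : Set (ZMod n)) (X : Finset (LA D)) (Y : Finset (LB D)) : Finset (Lv n) :=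
  X.map (Function.Embedding.subtype _) ∪ Y.map (Function.Embedding.subtype _)

lemma not_ft_empty {D : Set (ZMod n)} (h0 : 0 ∉ D) : ¬ ft D ∅ := by
  rintro ⟨x, y, h1, h2⟩
  rw [dset_empty_iff.1 h2, sub_self] at h1
  exact h0 h1

lemma monoD_union {D : Set (ZMod n)} (hM : Mono D) {S T : Finset (Lv n)} (hS : ft D S)
    (hSn : S.Nonempty) (hT : ∀ q ∈ T, ft D {q}) : ft D (T ∪ S) := by
  classical
  induction T using Finset.induction_on with
  | empty => simpa using hS
  | insert q T hq ih =>
    rw [Finset.insert_union]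
    exact (hM _ q (hSn.mono Finset.subset_union_right)).1 (hT q (Finset.mem_insert_self q T))
      (ih fun r hr => hT r (Finset.mem_insert_of_mem hr))

lemma monoN_union {D : Set (ZMod n)} (hM : Mono D) {S T : Finset (Lv n)} (hS : ¬ ft D S)
    (hSn : S.Nonempty) (hT : ∀ q ∈ T, ¬ ft D {q}) : ¬ ft D (T ∪ S) := by
  classical
  induction T using Finset.induction_on with
  | empty => simpa using hS
  | insert q T hq ih =>
    rw [Finset.insert_union]
    exact (hM _ q (hSn.mono Finset.subset_union_right)).2 (hT q (Finset.mem_insert_self q T))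
      (ih fun r hr => hT r (Finset.mem_insert_of_mem hr))

lemma monoD_pure {D : Set (ZMod n)} (hM : Mono D) {T : Finset (Lv n)} (hTn : T.Nonempty)
    (hT : ∀ q ∈ T, ft D {q}) : ft D T := by
  classical
  obtain ⟨q, hq⟩ := hTn
  have := monoD_union hM (hT q hq) (Finset.singleton_nonempty q) hT
  have e : T ∪ {q} = T := by
    rw [Finset.union_eq_left]
    exact Finset.singleton_subset_iff.2 hq
  rwa [e] at this

lemma monoN_pure {D : Set (ZMod n)} (hM : Mono D) {T : Finset (Lv n)} (hTn : T.Nonempty)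
    (hT : ∀ q ∈ T, ¬ ft D {q}) : ¬ ft D T := by
  classical
  obtain ⟨q, hq⟩ := hTn
  have := monoN_union hM (hT q hq) (Finset.singleton_nonempty q) hT
  have e : T ∪ {q} = T := by
    rw [Finset.union_eq_left]
    exact Finset.singleton_subset_iff.2 hq
  rwa [e] at this

lemma mem_map_sub {p : Lv n → Prop} {X : Finset {q // p q}} {q : Lv n} :
    q ∈ X.map (Function.Embedding.subtype _) ↔ ∃ h : p q, (⟨q, h⟩ : {q // p q}) ∈ X := by
  rw [Finset.mem_map]
  constructor
  · rintro ⟨x, hx, rfl⟩
    exact ⟨x.2, hx⟩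
  · rintro ⟨h, hx⟩
    exact ⟨⟨q, h⟩, hx, rfl⟩

theorem exists_pat {D : Set (ZMod n)} (h0 : 0 ∉ D) (hM : Mono D) :
    ∃ P : Pat (LA D) (LB D), (∀ X Y, P.D X Y ↔ ft D (joinS D X Y)) ∧
      (∀ X Y, P.N X Y ↔ (X.Nonempty ∨ Y.Nonempty) ∧ ¬ ft D (joinS D X Y)) := by
  classical
  have hD0 : ∀ Y : Finset (LB D), ¬ ft D (joinS D ∅ Y) := by
    intro Y
    unfold joinS
    rw [Finset.map_empty, Finset.empty_union]
    rcases Y.eq_empty_or_nonempty with rfl | hY
    · rw [Finset.map_empty]
      exact not_ft_empty h0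
    · refine monoN_pure hM (hY.map) fun q hq => ?_
      obtain ⟨h, _⟩ := mem_map_sub.1 hq
      exact h
  have hA : ∀ (X : Finset (LA D)), ∀ q ∈ X.map (Function.Embedding.subtype _), ft D {q} := by
    intro X q hq
    obtain ⟨h, _⟩ := mem_map_sub.1 hq
    exact h
  have hB : ∀ (Y : Finset (LB D)), ∀ q ∈ Y.map (Function.Embedding.subtype _), ¬ ft D {q} := by
    intro X q hq
    obtain ⟨h, _⟩ := mem_map_sub.1 hq
    exact h
  refine ⟨{ D := fun X Y => ft D (joinS D X Y)
            N := fun X Y => (X.Nonempty ∨ Y.Nonempty) ∧ ¬ ft D (joinS D X Y)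
            em := fun X Y h => ⟨fun h1 h2 => h2.2 h1, fun h1 => by
              by_contra h2
              exact h1 ⟨h, h2⟩⟩
            D0 := hD0
            N0 := ?_
            mono := ?_ }, fun X Y => Iff.rfl, fun X Y => Iff.rfl⟩
  · rintro X ⟨h1, h2⟩
    apply h2
    have hX : X.Nonempty := by simpa using h1
    unfold joinS
    rw [Finset.map_empty, Finset.union_empty]
    exact monoD_pure hM hX.map (hA X)
  · intro X X' Y Y' hX hY h
    have hXn : X.Nonempty := by
      rcases X.eq_empty_or_nonempty with rfl | h1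
      · exact absurd h (hD0 Y)
      · exact h1
    have h1 : ft D (joinS D X Y') := by
      by_contra h2
      refine monoN_union hM h2 ?_ (hB Y) ?_
      · unfold joinS
        exact hXn.map.mono Finset.subset_union_left
      · have e : Y.map (Function.Embedding.subtype _) ∪ joinS D X Y' = joinS D X Y := by
          unfold joinS
          have h3 := (Finset.map_subset_map
            (f := Function.Embedding.subtype (fun q : Lv n => ¬ ft D {q}))).2 hY
          ext q
          simp only [Finset.mem_union]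
          have h4 := @h3 q
          tauto
        rwa [e]
    have e : X'.map (Function.Embedding.subtype _) ∪ joinS D X Y' = joinS D X' Y' := by
      unfold joinS
      have h3 := (Finset.map_subset_map
        (f := Function.Embedding.subtype (fun q : Lv n => ft D {q}))).2 hX
      ext q
      simp only [Finset.mem_union]
      have h4 := @h3 q
      tauto
    rw [← e]
    refine monoD_union hM h1 ?_ (hA X')
    unfold joinS
    exact hXn.map.mono Finset.subset_union_left

section
variable {D : Set (ZMod n)} {pA pB : Lv n → Prop} (hpA : ∀ q, pA q ↔ ft D {q})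
  (hpB : ∀ q, pB q ↔ ¬ ft D {q}) (P : Pat {q // pA q} {q // pB q})
  (hP : ∀ X Y, P.D X Y ↔ ft D (X.map (Function.Embedding.subtype _) ∪
    Y.map (Function.Embedding.subtype _)))

include hP

lemma gt_iff_ft (a : {q // pA q}) (b : {q // pB q}) : P.gt a b ↔ ft D {a.1, b.1} := by
  unfold Pat.gt
  rw [hP, Finset.map_singleton, Finset.map_singleton]
  rfl

include hpB

lemma J_iff_JE (a c : {q // pA q}) : P.J a c ↔ JE D a.1 c.1 := by
  have e : ∀ b d : {q // pB q}, P.D {a, c} {b, d} ↔ ft D {a.1, c.1, b.1, d.1} := by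
    intro b d
    rw [hP]
    have : (({a, c} : Finset {q // pA q}).map (Function.Embedding.subtype _) ∪
        ({b, d} : Finset {q // pB q}).map (Function.Embedding.subtype _)) =
        {a.1, c.1, b.1, d.1} := by
      ext q
      simp only [Finset.mem_union, mem_map_sub, Finset.mem_insert, Finset.mem_singleton,
        Subtype.ext_iff]
      constructor
      · rintro (⟨_, h | h⟩ | ⟨_, h | h⟩) <;> tauto
      · rintro (h | h | h | h)
        · have h' := Subtype.ext h
          subst h'
          exact Or.inl ⟨a.2, Or.inl rfl⟩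
        · have h' := Subtype.ext h
          subst h'
          exact Or.inl ⟨c.2, Or.inr rfl⟩
        · have h' := Subtype.ext h
          subst h'
          exact Or.inr ⟨b.2, Or.inl rfl⟩
        · have h' := Subtype.ext h
          subst h'
          exact Or.inr ⟨d.2, Or.inr rfl⟩
    rw [this]
  unfold Pat.J JE
  constructor
  · rintro ⟨b, d, h1, h2, h3, h4, h5⟩
    rw [gt_iff_ft P hP] at h1 h2 h3 h4
    exact ⟨b.1, d.1, (hpB _).1 b.2, (hpB _).1 d.2, h1, h2, h3, h4, (e b d).1 h5⟩
  · rintro ⟨b, d, hb, hd, h1, h2, h3, h4, h5⟩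
    refine ⟨⟨b, (hpB _).2 hb⟩, ⟨d, (hpB _).2 hd⟩, ?_, ?_, ?_, ?_, (e _ _).2 h5⟩ <;>
      rw [gt_iff_ft P hP] <;> assumption

include hpA

lemma Form_iff_FormE (X : Finset {q // pA q}) (Y : Finset {q // pB q}) :
    P.Form X Y ↔ FormE D (X.map (Function.Embedding.subtype _) ∪
      Y.map (Function.Embedding.subtype _)) := by
  have hX : ∀ q, ft D {q} → (q ∈ X.map (Function.Embedding.subtype _) ∪
      Y.map (Function.Embedding.subtype _) ↔ ∃ h : pA q, (⟨q, h⟩ : {q // pA q}) ∈ X) := by
    intro q hq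
    rw [Finset.mem_union, mem_map_sub, mem_map_sub]
    constructor
    · rintro (h | ⟨h, _⟩)
      · exact h
      · exact absurd hq ((hpB q).1 h)
    · exact Or.inl
  have hY : ∀ q, ¬ ft D {q} → (q ∈ X.map (Function.Embedding.subtype _) ∪
      Y.map (Function.Embedding.subtype _) ↔ ∃ h : pB q, (⟨q, h⟩ : {q // pB q}) ∈ Y) := by
    intro q hq
    rw [Finset.mem_union, mem_map_sub, mem_map_sub]
    constructor
    · rintro (⟨h, _⟩ | h)
      · exact absurd ((hpA q).1 h) hq
      · exact h
    · exact Or.inr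
  unfold Pat.Form FormE
  refine or_congr ?_ ?_
  · constructor
    · rintro ⟨a, ha, h⟩
      refine ⟨a.1, (hX _ ((hpA _).1 a.2)).2 ⟨a.2, ha⟩, (hpA _).1 a.2, fun b hb hb' => ?_⟩
      obtain ⟨h1, h2⟩ := (hY b hb').1 hb
      exact (gt_iff_ft P hP a ⟨b, h1⟩).1 (h _ h2)
    · rintro ⟨a, ha, ha', h⟩
      obtain ⟨h1, h2⟩ := (hX a ha').1 ha
      refine ⟨⟨a, h1⟩, h2, fun b hb => ?_⟩
      rw [gt_iff_ft P hP]
      have hb' := (hpB _).1 b.2
      exact h b.1 ((hY _ hb').2 ⟨b.2, hb⟩) hb'
  · constructor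
    · rintro ⟨a, ha, c, hc, hJ, h⟩
      refine ⟨a.1, (hX _ ((hpA _).1 a.2)).2 ⟨a.2, ha⟩, c.1, (hX _ ((hpA _).1 c.2)).2 ⟨c.2, hc⟩,
        (hpA _).1 a.2, (hpA _).1 c.2, (J_iff_JE hpB P hP a c).1 hJ, fun b hb hb' => ?_⟩
      obtain ⟨h1, h2⟩ := (hY b hb').1 hb
      have := h _ h2
      rwa [gt_iff_ft P hP, gt_iff_ft P hP] at this
    · rintro ⟨a, ha, c, hc, ha', hc', hJ, h⟩
      obtain ⟨h1, h2⟩ := (hX a ha').1 ha
      obtain ⟨h3, h4⟩ := (hX c hc').1 hc
      refine ⟨⟨a, h1⟩, h2, ⟨c, h3⟩, h4, (J_iff_JE hpB P hP _ _).2 hJ, fun b hb => ?_⟩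
      rw [gt_iff_ft P hP, gt_iff_ft P hP]
      have hb' := (hpB _).1 b.2
      exact h b.1 ((hY _ hb').2 ⟨b.2, hb⟩) hb'

lemma Trip_iff_TripE : P.Trip ↔ TripE D := by
  unfold Pat.Trip TripE
  have key : ∀ a c c' : {q // pA q}, (∀ b, P.gt a b → P.gt c b ∨ P.gt c' b) ↔
      ∀ b, ¬ ft D {b} → ft D {a.1, b} → ft D {c.1, b} ∨ ft D {c'.1, b} := by
    intro a c c'
    constructor
    · intro h b hb h1
      have := h ⟨b, (hpB _).2 hb⟩
      rw [gt_iff_ft P hP, gt_iff_ft P hP, gt_iff_ft P hP] at this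
      exact this h1
    · intro h b h1
      rw [gt_iff_ft P hP] at h1 ⊢
      rw [gt_iff_ft P hP]
      exact h b.1 ((hpB _).1 b.2) h1
  constructor
  · intro h a c c' ha hc hc' hne h1 h2
    have := h ⟨a, (hpA _).2 ha⟩ ⟨c, (hpA _).2 hc⟩ ⟨c', (hpA _).2 hc'⟩
      (fun e => hne (congrArg Subtype.val e)) ((J_iff_JE hpB P hP _ _).2 h1)
      ((J_iff_JE hpB P hP _ _).2 h2)
    rwa [key, key, key, J_iff_JE hpB P hP] at this
  · intro h a c c' hne h1 h2
    rw [key, key, key, J_iff_JE hpB P hP]
    exact h a.1 c.1 c'.1 ((hpA _).1 a.2) ((hpA _).1 c.2) ((hpA _).1 c'.2)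
      (fun e => hne (Subtype.ext e)) ((J_iff_JE hpB P hP _ _).1 h1)
      ((J_iff_JE hpB P hP _ _).1 h2)

lemma good_iff_aux : P.Good ↔ GoodE D := by
  unfold Pat.Good GoodE
  rw [Trip_iff_TripE hpA hpB P hP]
  refine and_congr ?_ Iff.rfl
  constructor
  · intro h S hS
    classical
    have e : ((S.subtype pA).map (Function.Embedding.subtype _) ∪
        (S.subtype pB).map (Function.Embedding.subtype _)) = S := by
      ext q
      rw [Finset.mem_union, mem_map_sub, mem_map_sub]
      simp only [Finset.mem_subtype]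
      constructor
      · rintro (⟨_, h⟩ | ⟨_, h⟩) <;> exact h
      · intro h1
        by_cases h2 : ft D {q}
        · exact Or.inl ⟨(hpA q).2 h2, h1⟩
        · exact Or.inr ⟨(hpB q).2 h2, h1⟩
    have h1 := h (S.subtype pA) (S.subtype pB)
    rw [hP, Form_iff_FormE hpA hpB P hP, e] at h1
    exact h1
  · intro h X Y
    by_cases hne : X.Nonempty ∨ Y.Nonempty
    · rw [hP, Form_iff_FormE hpA hpB P hP]
      refine h _ ?_
      rcases hne with h1 | h1
      · exact (h1.map (f := Function.Embedding.subtype _)).mono Finset.subset_union_left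
      · exact (h1.map (f := Function.Embedding.subtype _)).mono Finset.subset_union_right
    · rw [not_or, Finset.not_nonempty_iff_eq_empty, Finset.not_nonempty_iff_eq_empty] at hne
      rw [hne.1, hne.2]
      refine iff_of_false (P.D0 ∅) ?_
      rintro (⟨a, ha, _⟩ | ⟨a, ha, _⟩) <;> exact absurd ha (Finset.notMem_empty a)

end

open Classical in
theorem good_iff {D : Set (ZMod n)} (P : Pat (LA D) (LB D))
    (hP : ∀ X Y, P.D X Y ↔ ft D (joinS D X Y)) : P.Good ↔ GoodE D :=
  good_iff_aux (fun _ => Iff.rfl) (fun _ => Iff.rfl) P hP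

open Classical in
theorem dual_good_iff {D : Set (ZMod n)} (hD : Conn D) (hc : GcdClosed D)
    (P : Pat (LA D) (LB D))
    (hP : ∀ X Y, P.N X Y ↔ (X.Nonempty ∨ Y.Nonempty) ∧ ¬ ft D (joinS D X Y)) :
    P.dual.Good ↔ GoodE (co D) := by
  refine good_iff_aux (D := co D) (fun q => ?_) (fun q => ?_) P.dual ?_
  · rw [ft_co hc (Finset.singleton_nonempty q)]
  · rw [ft_co hc (Finset.singleton_nonempty q), not_not]
  · intro Y X
    have h1 : P.dual.D Y X ↔ P.N X Y := Iff.rfl
    rw [h1, hP, Finset.union_comm]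
    by_cases hne : X.Nonempty ∨ Y.Nonempty
    · have h2 : (X.map (Function.Embedding.subtype (fun q : Lv n => ft D {q})) ∪
          Y.map (Function.Embedding.subtype (fun q : Lv n => ¬ ft D {q}))).Nonempty := by
        rcases hne with h1 | h1
        · exact (h1.map (f := Function.Embedding.subtype _)).mono Finset.subset_union_left
        · exact (h1.map (f := Function.Embedding.subtype _)).mono Finset.subset_union_right
      rw [ft_co hc h2]
      exact ⟨fun h => h.2, fun h => ⟨hne, h⟩⟩
    · refine iff_of_false (fun h => hne h.1) ?_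
      rw [not_or, Finset.not_nonempty_iff_eq_empty, Finset.not_nonempty_iff_eq_empty] at hne
      rw [hne.1, hne.2, Finset.map_empty, Finset.map_empty, Finset.union_empty]
      exact not_ft_empty (conn_co hD).1

theorem mono_of_goodE {D : Set (ZMod n)} (hc : GcdClosed D) (h1 : GoodE D)
    (h2 : GoodE (co D)) : Mono D := by
  have key : ∀ {E : Set (ZMod n)}, GoodE E → ∀ (S : Finset (Lv n)) (q : Lv n), S.Nonempty →
      ft E {q} → ft E S → ft E (insert q S) := by
    intro E hE S q hS hq h
    rw [hE.1 S hS] at h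
    rw [hE.1 _ (Finset.insert_nonempty q S)]
    rcases h with ⟨a, ha, ha', h⟩ | ⟨a, ha, c, hc, ha', hc', hJ, h⟩
    · refine Or.inl ⟨a, Finset.mem_insert_of_mem ha, ha', fun b hb hb' => h b ?_ hb'⟩
      rcases Finset.mem_insert.1 hb with rfl | h3
      · exact absurd hq hb'
      · exact h3
    · refine Or.inr ⟨a, Finset.mem_insert_of_mem ha, c, Finset.mem_insert_of_mem hc, ha', hc', hJ,
        fun b hb hb' => h b ?_ hb'⟩
      rcases Finset.mem_insert.1 hb with rfl | h3
      · exact absurd hq hb'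
      · exact h3
  intro S q hS
  refine ⟨key h1 S q hS, fun h3 h4 => ?_⟩
  rw [← ft_co hc (Finset.singleton_nonempty q)] at h3
  rw [← ft_co hc hS] at h4
  rw [← ft_co hc (Finset.insert_nonempty q S)]
  exact key h2 S q hS h3 h4

end Pool.Agent.Cis
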