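import Pool.Agent.H.MP_1bdfda_lc.DigAdd

/-!
Cylinders: sets of vertices which are invariant under changing the digits in a set `P` of levels.
-/

namespace Pool.Agent.Cis

set_option linter.unusedSectionVars false

open SimpleGraph

variable {n : ℕ} [NeZero n]

lemma dset_trans (x y z : ZMod n) : dset x z ⊆ dset x y ∪ dset y z := by
  intro q hq
  rw [Finset.mem_union, mem_dset, mem_dset]
  rw [mem_dset] at hq
  by_contra h
  push Not at h
  exact hq (h.1.trans h.2)

/-- `U` is invariant under changing the digits in `P` -/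
def IsCyl (P : Finset (Lv n)) (U : Finset (ZMod n)) : Prop :=
  ∀ x ∈ U, ∀ y, dset x y ⊆ P → y ∈ U

lemma indep_iff {D : Set (ZMod n)} (hD : Conn D) (U : Set (ZMod n)) :
    (circulantGraph D).IsIndepSet U ↔ ∀ x ∈ U, ∀ y ∈ U, x ≠ y → x - y ∉ D := by
  constructor
  · intro h x hx y hy hxy
    have := h hx hy hxy
    simp only [circ_adj hD] at this
    exact this
  · intro h x hx y hy hxy
    simp only [circ_adj hD]
    exact h x hx y hy hxy

lemma clique_iff {D : Set (ZMod n)} (hD : Conn D) (U : Set (ZMod n)) :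
    (circulantGraph D).IsClique U ↔ ∀ x ∈ U, ∀ y ∈ U, x ≠ y → x - y ∈ D := by
  constructor
  · intro h x hx y hy hxy
    have := h hx hy hxy
    rwa [circ_adj hD] at this
  · intro h x hx y hy hxy
    rw [circ_adj hD]
    exact h x hx y hy hxy

/-- every stable cylinder is contained in a cylinder which is a maximal stable set -/
theorem cyl_max {D : Set (ZMod n)} (hD : Conn D) (hc : GcdClosed D) {P : Finset (Lv n)}
    (hP : ∀ S ⊆ P, S.Nonempty → ¬ ft D S) {U : Finset (ZMod n)}
    (hU : (circulantGraph D).IsIndepSet (U : Set (ZMod n))) (hcyl : IsCyl P U) :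
    ∃ M : Finset (ZMod n), U ⊆ M ∧ IsCyl P M ∧
      Maximal (circulantGraph D).IsIndepSet (M : Set (ZMod n)) := by
  classical
  obtain ⟨M, hUM, hM⟩ := Finite.exists_le_maximal
    (p := fun M : Finset (ZMod n) => (circulantGraph D).IsIndepSet (M : Set (ZMod n)) ∧ IsCyl P M)
    ⟨hU, hcyl⟩
  have hM1 := (indep_iff hD _).1 hM.prop.1
  refine ⟨M, hUM, hM.prop.2, hM.prop.1, ?_⟩
  intro T hT hMT v hv
  have hT1 := (indep_iff hD _).1 hT
  by_contra hvM
  have hvM' : v ∉ M := hvM
  set E : Finset (ZMod n) := Finset.univ.filter fun w => dset v w ⊆ P with hE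
  have hEm : ∀ w, w ∈ E ↔ dset v w ⊆ P := by
    intro w
    rw [hE]
    simp
  -- an element of the cylinder of `v` and an element of `M` are not adjacent
  have hcross : ∀ w ∈ E, ∀ s ∈ M, w - s ∉ D := by
    intro w hw s hs
    rw [hEm] at hw
    obtain ⟨s', hs'⟩ := exists_dig (n := n) (fun q => if q ∈ P then
        (if dig q.1 w = dig q.1 s then dig q.1 v else if dig q.1 v = 0 then 1 else 0)
        else dig q.1 s) (by
      intro q
      have h1 := two_le_minFac q
      have h2 := dig_lt q v
      have h3 := dig_lt q s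
      split_ifs <;> omega)
    have hss : dset s s' ⊆ P := by
      intro q hq
      by_contra hqP
      rw [mem_dset, hs', if_neg hqP] at hq
      exact hq rfl
    have hs'M : s' ∈ M := hM.prop.2 s hs s' hss
    have hd : dset v s' = dset w s := by
      ext q
      rw [mem_dset, mem_dset, hs']
      by_cases hqP : q ∈ P
      · rw [if_pos hqP]
        by_cases h1 : dig q.1 w = dig q.1 s
        · simp [h1]
        · rw [if_neg h1]
          constructor
          · intro _; exact h1
          · intro _
            split_ifs with h2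
            · rw [h2]; exact zero_ne_one
            · exact h2
      · rw [if_neg hqP]
        have h1 : dig q.1 v = dig q.1 w := by
          by_contra h2
          exact hqP (hw (mem_dset.2 h2))
        rw [h1]
    have hne : v ≠ s' := by
      rintro rfl
      exact hvM' hs'M
    have h1 := hT1 v hv s' (hMT (Finset.mem_coe.2 hs'M)) hne
    rw [mem_iff_ft hc, hd] at h1
    rwa [mem_iff_ft hc]
  have hnew : (circulantGraph D).IsIndepSet ((M ∪ E : Finset (ZMod n)) : Set (ZMod n)) ∧
      IsCyl P (M ∪ E) := by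
    constructor
    · rw [indep_iff hD]
      intro x hx y hy hxy
      rw [Finset.mem_coe, Finset.mem_union] at hx hy
      rcases hx with hx | hx <;> rcases hy with hy | hy
      · exact hM1 x hx y hy hxy
      · intro h
        have := hD.2 _ h
        rw [neg_sub] at this
        exact hcross y hy x hx this
      · exact hcross x hx y hy
      · rw [hEm] at hx hy
        rw [mem_iff_ft hc]
        refine hP _ ?_ ?_
        · have h1 := dset_trans x v y
          rw [dset_comm x v] at h1
          exact h1.trans (Finset.union_subset hx hy)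
        · rw [Finset.nonempty_iff_ne_empty]
          intro h
          exact hxy (dset_empty_iff.1 h)
    · intro x hx y hy
      rw [Finset.mem_union] at hx ⊢
      rcases hx with hx | hx
      · exact Or.inl (hM.prop.2 x hx y hy)
      · right
        rw [hEm] at hx ⊢
        exact (dset_trans v x y).trans (Finset.union_subset hx hy)
  have h2 := hM.le_of_ge hnew (Finset.subset_union_left)
  refine hvM' (h2 (Finset.mem_union_right _ ?_))
  rw [hEm, dset_empty_iff.2 rfl]
  exact Finset.empty_subset _

/-- decomposition of an element -/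
lemma split_elt (P : Finset (Lv n)) (z : ZMod n) : ∃ v m : ZMod n, z = v + m ∧
    (∀ q, dig q.1 v = if q ∈ P then dig q.1 z else 0) ∧
    (∀ q, dig q.1 m = if q ∈ P then 0 else dig q.1 z) := by
  classical
  obtain ⟨v, hv⟩ := exists_dig (n := n) (fun q => if q ∈ P then dig q.1 z else 0) (by
    intro q
    have h1 := two_le_minFac q
    have h2 := dig_lt q z
    split_ifs <;> omega)
  obtain ⟨m, hm⟩ := exists_dig (n := n) (fun q => if q ∈ P then 0 else dig q.1 z) (by
    intro q
    have h1 := two_le_minFac q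
    have h2 := dig_lt q z
    split_ifs <;> omega)
  refine ⟨v, m, ?_, hv, hm⟩
  refine eq_of_dig fun q => ?_
  rw [dig_add (fun q => ?_) q, hv, hm]
  · split_ifs <;> simp
  · rw [hv, hm]
    split_ifs
    · exact Or.inr rfl
    · exact Or.inl rfl

/-- the elements with zero digits outside `P` -/
def VS (P : Finset (Lv n)) : Finset (ZMod n) :=
  Finset.univ.filter fun x => ∀ q : Lv n, q ∉ P → dig q.1 x = 0

/-- the elements of `M` with zero digits in `P` -/
def redS (P : Finset (Lv n)) (M : Finset (ZMod n)) : Finset (ZMod n) :=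
  M.filter fun x => ∀ q ∈ P, dig q.1 x = 0

lemma mem_VS {P : Finset (Lv n)} {x : ZMod n} : x ∈ VS P ↔ ∀ q : Lv n, q ∉ P → dig q.1 x = 0 := by
  simp [VS]

lemma mem_redS {P : Finset (Lv n)} {M : Finset (ZMod n)} {x : ZMod n} :
    x ∈ redS P M ↔ x ∈ M ∧ ∀ q ∈ P, dig q.1 x = 0 := by
  simp [redS]

lemma dig_VS_add {P : Finset (Lv n)} {v m : ZMod n} (hv : v ∈ VS P)
    (hm : ∀ q ∈ P, dig q.1 m = 0) (q : Lv n) : dig q.1 (v + m) = dig q.1 v + dig q.1 m := by
  refine dig_add (fun q => ?_) q
  by_cases h : q ∈ P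
  · exact Or.inr (hm q h)
  · exact Or.inl (mem_VS.1 hv q h)

lemma VS_add_inj {P : Finset (Lv n)} {v m v' m' : ZMod n} (hv : v ∈ VS P)
    (hm : ∀ q ∈ P, dig q.1 m = 0) (hv' : v' ∈ VS P) (hm' : ∀ q ∈ P, dig q.1 m' = 0)
    (h : v + m = v' + m') : v = v' ∧ m = m' := by
  have key : v = v' := by
    refine eq_of_dig fun q => ?_
    by_cases hq : q ∈ P
    · have h1 := dig_VS_add hv hm q
      have h2 := dig_VS_add hv' hm' q
      rw [hm q hq, add_zero] at h1
      rw [hm' q hq, add_zero] at h2
      rw [← h1, ← h2, h]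
    · rw [mem_VS.1 hv q hq, mem_VS.1 hv' q hq]
  subst key
  exact ⟨rfl, add_left_cancel h⟩

/-- the structure of a cylinder -/
lemma mem_cyl_iff {P : Finset (Lv n)} {M : Finset (ZMod n)} (hM : IsCyl P M) (x : ZMod n) :
    x ∈ M ↔ ∃ v ∈ VS P, ∃ m ∈ redS P M, v + m = x := by
  constructor
  · intro hx
    obtain ⟨v, m, hz, hv, hm⟩ := split_elt P x
    refine ⟨v, mem_VS.2 fun q hq => by rw [hv, if_neg hq], m, mem_redS.2 ⟨?_, ?_⟩, hz.symm⟩
    · refine hM x hx m ?_
      intro q hq
      by_contra hqP
      rw [mem_dset, hm, if_neg hqP] at hq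
      exact hq rfl
    · intro q hq
      rw [hm, if_pos hq]
  · rintro ⟨v, hv, m, hm, rfl⟩
    rw [mem_redS] at hm
    refine hM m hm.1 _ ?_
    intro q hq
    by_contra hqP
    rw [mem_dset, dig_VS_add hv hm.2, mem_VS.1 hv q hqP, zero_add] at hq
    exact hq rfl

lemma card_cyl {P : Finset (Lv n)} {M : Finset (ZMod n)} (hM : IsCyl P M) :
    M.card = (VS P).card * (redS P M).card := by
  classical
  rw [← Finset.card_product]
  symm
  refine Finset.card_bij (fun x _ => x.1 + x.2) ?_ ?_ ?_
  · intro x hx
    rw [Finset.mem_product] at hx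
    exact (mem_cyl_iff hM _).2 ⟨x.1, hx.1, x.2, hx.2, rfl⟩
  · intro x hx y hy h
    rw [Finset.mem_product] at hx hy
    have := VS_add_inj hx.1 (mem_redS.1 hx.2).2 hy.1 (mem_redS.1 hy.2).2 h
    exact Prod.ext this.1 this.2
  · intro x hx
    obtain ⟨v, hv, m, hm, h⟩ := (mem_cyl_iff hM x).1 hx
    exact ⟨(v, m), Finset.mem_product.2 ⟨hv, hm⟩, h⟩

lemma card_VS (P : Finset (Lv n)) : (VS P).card = ∏ q ∈ P, q.1.minFac := by
  classical
  have h2 : (∏ q ∈ P, q.1.minFac) = (P.pi fun q => Finset.range q.1.minFac).card := by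
    rw [Finset.card_pi]
    simp
  rw [h2]
  refine Finset.card_bij (fun x _ => fun q _ => dig q.1 x) ?_ ?_ ?_
  · intro x hx
    rw [Finset.mem_pi]
    intro q _
    rw [Finset.mem_range]
    exact dig_lt q x
  · intro x hx y hy h
    refine eq_of_dig fun q => ?_
    by_cases hq : q ∈ P
    · exact congrFun (congrFun h q) hq
    · rw [mem_VS.1 hx q hq, mem_VS.1 hy q hq]
  · intro d hd
    rw [Finset.mem_pi] at hd
    obtain ⟨z, hz⟩ := exists_dig (n := n) (fun q => if h : q ∈ P then d q h else 0) (by
      intro q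
      have h1 := two_le_minFac q
      by_cases h : q ∈ P
      · rw [dif_pos h]
        exact Finset.mem_range.1 (hd q h)
      · rw [dif_neg h]
        omega)
    refine ⟨z, mem_VS.2 fun q hq => by rw [hz, dif_neg hq], ?_⟩
    funext q hq
    rw [hz, dif_pos hq]

end Pool.Agent.Cis
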