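import Pool.Agent.H.MP_1bdfda_lc.Dig

/-!
Addition without carries, multiplication by powers of a prime, elements with given digits.
-/

namespace Pool.Agent.Cis

set_option linter.unusedSectionVars false

variable {n : ℕ} [NeZero n]

lemma level_dvd (q : Lv n) : q.1 ∣ n :=
  (Nat.mem_divisors.mp (Finset.mem_filter.mp q.2).1).1

lemma level_form (q : Lv n) : ∃ p j, p.Prime ∧ q.1 = p ^ (j + 1) := by
  have h := (Finset.mem_filter.mp q.2).2
  rw [isPrimePow_nat_iff] at h
  obtain ⟨p, k, hp, hk, h⟩ := h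
  exact ⟨p, k - 1, hp, by rw [← h]; congr 1; omega⟩

lemma mem_levels {p k : ℕ} (hp : p.Prime) (h : p ^ (k + 1) ∣ n) : p ^ (k + 1) ∈ levels n := by
  rw [levels, Finset.mem_filter, Nat.mem_divisors]
  exact ⟨⟨h, NeZero.ne n⟩, hp.isPrimePow.pow (Nat.succ_ne_zero k)⟩

lemma dig_eq {p j : ℕ} (hp : p.Prime) (z : ZMod n) :
    dig (p ^ (j + 1)) z = z.val % p ^ (j + 1) / p ^ j := by
  rw [dig, hp.pow_minFac (Nat.succ_ne_zero j), pow_succ, Nat.mul_div_cancel _ hp.pos]

lemma dig_zero (q : ℕ) : dig q (0 : ZMod n) = 0 := by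
  simp [dig]

lemma two_le_minFac (q : Lv n) : 2 ≤ q.1.minFac := by
  obtain ⟨p, j, hp, hq⟩ := level_form q
  rw [hq, hp.pow_minFac (Nat.succ_ne_zero j)]
  exact hp.two_le

lemma mod_succ (p w j : ℕ) :
    w % p ^ (j + 1) = p ^ j * (w % p ^ (j + 1) / p ^ j) + w % p ^ j := by
  have h2 : w % p ^ (j + 1) % p ^ j = w % p ^ j :=
    Nat.mod_mod_of_dvd _ (pow_dvd_pow _ (Nat.le_succ j))
  have h3 := Nat.div_add_mod (w % p ^ (j + 1)) (p ^ j)
  rw [h2] at h3
  exact h3.symm

lemma no_carry {p : ℕ} (hp : p.Prime) (a b J : ℕ)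
    (h : ∀ i < J, a % p ^ (i + 1) / p ^ i = 0 ∨ b % p ^ (i + 1) / p ^ i = 0) :
    ∀ j ≤ J, a % p ^ j + b % p ^ j < p ^ j := by
  intro j
  induction j with
  | zero => intro _; simp [Nat.mod_one]
  | succ j ih =>
    intro hj
    have h1 := ih (by omega)
    rw [mod_succ p a j, mod_succ p b j]
    have hlt : ∀ w : ℕ, w % p ^ (j + 1) / p ^ j < p := fun w => by
      apply Nat.div_lt_of_lt_mul
      rw [← pow_succ]
      exact Nat.mod_lt _ (pow_pos hp.pos _)
    have h2 : a % p ^ (j + 1) / p ^ j + b % p ^ (j + 1) / p ^ j + 1 ≤ p := by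
      have h3 := hlt a
      have h4 := hlt b
      rcases h j (by omega) with h5 | h5 <;> omega
    have h3 := Nat.mul_le_mul_left (p ^ j) h2
    rw [← pow_succ] at h3
    nlinarith [h1, h3]

/-- addition of elements with disjoint digits -/
lemma dig_add {v m : ZMod n} (h : ∀ q : Lv n, dig q.1 v = 0 ∨ dig q.1 m = 0) (q : Lv n) :
    dig q.1 (v + m) = dig q.1 v + dig q.1 m := by
  obtain ⟨p, j, hp, hq⟩ := level_form q
  have hqn : p ^ (j + 1) ∣ n := hq ▸ level_dvd q
  have h0 : ∀ i < j + 1, v.val % p ^ (i + 1) / p ^ i = 0 ∨ m.val % p ^ (i + 1) / p ^ i = 0 := by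
    intro i hi
    have h1 : p ^ (i + 1) ∣ n := (pow_dvd_pow p (by omega)).trans hqn
    have h2 := h ⟨p ^ (i + 1), mem_levels hp h1⟩
    rwa [dig_eq hp, dig_eq hp] at h2
  have h1 := no_carry hp v.val m.val (j + 1) h0 (j + 1) le_rfl
  have h2 := no_carry hp v.val m.val (j + 1) h0 j (Nat.le_succ j)
  rw [hq, dig_eq hp, dig_eq hp, dig_eq hp]
  have h3 : (v + m).val % p ^ (j + 1) = v.val % p ^ (j + 1) + m.val % p ^ (j + 1) := by
    rw [ZMod.val_add, Nat.mod_mod_of_dvd _ hqn, Nat.add_mod, Nat.mod_eq_of_lt h1]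
  rw [h3]
  have h4 := mod_succ p v.val j
  have h5 := mod_succ p m.val j
  set A := v.val % p ^ (j + 1) / p ^ j
  set B := m.val % p ^ (j + 1) / p ^ j
  have h6 : v.val % p ^ (j + 1) + m.val % p ^ (j + 1)
      = (v.val % p ^ j + m.val % p ^ j) + p ^ j * (A + B) := by
    rw [h4, h5]; ring
  rw [h6, Nat.add_mul_div_left _ _ (pow_pos hp.pos j), Nat.div_eq_of_lt h2, zero_add]

/-- divisibility of the multiples by natural numbers -/
lemma dvd_val_mul {r : ℕ} (hr : r ∣ n) (k : ℕ) (z : ZMod n) :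
    r ∣ ((k : ZMod n) * z).val ↔ r ∣ k * z.val := by
  have h : ((k : ZMod n) * z).val = (k * z.val) % n := by
    rw [← ZMod.val_natCast, Nat.cast_mul, ZMod.natCast_val, ZMod.cast_id', id]
  rw [h, Nat.dvd_mod_iff hr]

/-- elements with the same levels dividing them are in `D` simultaneously -/
lemma mem_congr {D : Set (ZMod n)} (hc : GcdClosed D) {x y : ZMod n}
    (h : ∀ q : Lv n, q.1 ∣ x.val ↔ q.1 ∣ y.val) : x ∈ D ↔ y ∈ D :=
  hc _ _ (gcd_eq_of_levels h)

lemma mem_dset {x y : ZMod n} {q : Lv n} : q ∈ dset x y ↔ dig q.1 x ≠ dig q.1 y := by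
  simp [dset]

/-- a level divides a difference iff no digit at a level dividing it differs -/
lemma dvd_iff_dset (q : Lv n) (x y : ZMod n) :
    q.1 ∣ (x - y).val ↔ ∀ q' : Lv n, q'.1 ∣ q.1 → q' ∉ dset x y := by
  rw [dvd_iff_dig]
  refine forall_congr' fun q' => imp_congr_right fun _ => ?_
  rw [mem_dset, not_not]

lemma dset_empty_iff {x y : ZMod n} : dset x y = ∅ ↔ x = y := by
  constructor
  · intro h
    refine eq_of_dig fun q => ?_
    by_contra h1
    have : q ∈ dset x y := mem_dset.2 h1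
    rw [h] at this
    exact absurd this (Finset.notMem_empty q)
  · rintro rfl
    ext q
    simp [mem_dset]

lemma dset_comm (x y : ZMod n) : dset x y = dset y x := by
  ext q
  rw [mem_dset, mem_dset, ne_comm]

/-- the type of a set only depends on the levels which are above it -/
lemma ft_congr {D : Set (ZMod n)} (hc : GcdClosed D) {S T : Finset (Lv n)}
    (h : ∀ q : Lv n, (∀ q' : Lv n, q'.1 ∣ q.1 → q' ∉ S) ↔ (∀ q' : Lv n, q'.1 ∣ q.1 → q' ∉ T)) :
    ft D S ↔ ft D T := by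
  have key : ∀ S T : Finset (Lv n),
      (∀ q : Lv n, (∀ q' : Lv n, q'.1 ∣ q.1 → q' ∉ S) ↔ (∀ q' : Lv n, q'.1 ∣ q.1 → q' ∉ T)) →
      ft D S → ft D T := by
    intro S T h ⟨x, y, h1, h2⟩
    classical
    obtain ⟨z, hz⟩ := exists_dig (n := n) (fun q => if q ∈ T then 1 else 0) (by
      intro q
      have := two_le_minFac q
      split_ifs <;> omega)
    have hd : dset z 0 = T := by
      ext q
      rw [mem_dset, hz, dig_zero]
      by_cases hq : q ∈ T <;> simp [hq]
    refine ⟨z, 0, ?_, hd⟩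
    refine (mem_congr hc fun q => ?_).1 h1
    rw [dvd_iff_dset, dvd_iff_dset, h2, hd]
    exact h q
  exact ⟨key S T h, key T S fun q => (h q).symm⟩

/-- an element with given difference set to zero -/
lemma exists_elt (S : Finset (Lv n)) : ∃ z : ZMod n, dset z 0 = S ∧
    ∀ q : Lv n, dig q.1 z = if q ∈ S then 1 else 0 := by
  classical
  obtain ⟨z, hz⟩ := exists_dig (n := n) (fun q => if q ∈ S then 1 else 0) (by
    intro q
    have := two_le_minFac q
    split_ifs <;> omega)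
  refine ⟨z, ?_, hz⟩
  ext q
  rw [mem_dset, hz, dig_zero]
  by_cases hq : q ∈ S <;> simp [hq]

end Pool.Agent.Cis
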