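import Pool.Agent.H.MP_1bdfda_lc.Pat

/-!
The first consequences of the extension properties: the sets beaten by one digit and by two
digits.
-/

open scoped symmDiff

set_option linter.unusedSectionVars false

namespace Pool.Agent.Cis

namespace Pat

variable {A B : Type} [DecidableEq A] [DecidableEq B]

lemma ExtN.list {P : Pat A B} (hN : P.ExtN) (l : List (Finset A × Finset B))
    (h1 : ∀ p ∈ l, p.2.Nonempty)
    (h2 : l.Pairwise fun p q => P.N (p.1 ∆ q.1) (p.2 ∆ q.2)) :
    ∃ X : Finset A, ∀ p ∈ l, P.N (X ∆ p.1) p.2 := by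
  obtain ⟨X, hX⟩ := hN l.toFinset (fun p hp => h1 p (List.mem_toFinset.1 hp))
    (fun p hp q hq hpq => by
      rw [List.mem_toFinset] at hp hq
      have hs : Std.Symm fun p q : Finset A × Finset B => P.N (p.1 ∆ q.1) (p.2 ∆ q.2) :=
        ⟨fun a b h => by rwa [symmDiff_comm, symmDiff_comm b.2]⟩
      exact List.Pairwise.forall h2 hp hq hpq)
  exact ⟨X, fun p hp => hX p (List.mem_toFinset.2 hp)⟩

lemma gt_dual (P : Pat A B) (a : A) (b : B) : P.dual.gt b a ↔ ¬ P.gt a b := by
  unfold gt dual
  constructor
  · intro h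
    exact P.not_D_of_N h
  · intro h
    exact P.N_of_not_D (Finset.singleton_nonempty b) h

lemma J_symm {P : Pat A B} {a c : A} (h : P.J a c) : P.J c a := by
  obtain ⟨b, d, h1, h2, h3, h4, h5⟩ := h
  refine ⟨d, b, h3, h4, h1, h2, ?_⟩
  rwa [Finset.pair_comm c a, Finset.pair_comm d b]

lemma J_ne {P : Pat A B} {a c : A} (h : P.J a c) : a ≠ c := by
  rintro rfl
  obtain ⟨b, d, h1, h2, h3, h4, h5⟩ := h
  exact h4 h1

/-- The structure of the sets beaten by one or two digits. -/
structure Fac (P : Pat A B) : Prop where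
  single : ∀ a Y, P.D {a} Y ↔ ∀ b ∈ Y, P.gt a b
  pairJ : ∀ a c Y, P.J a c → (P.D {a, c} Y ↔ ∀ b ∈ Y, P.gt a b ∨ P.gt c b)
  pairN : ∀ a c Y, ¬ P.J a c → (P.D {a, c} Y ↔ (∀ b ∈ Y, P.gt a b) ∨ ∀ b ∈ Y, P.gt c b)

section
variable {P : Pat A B} (hN : P.ExtN) (hD : P.ExtD)
include hN

lemma single_insert {a : A} {b : B} {Y : Finset B} (h : P.D {a} Y) (hb : P.gt a b) :
    P.D {a} (insert b Y) := by
  by_cases hbY : b ∈ Y
  · rwa [Finset.insert_eq_of_mem hbY]
  rcases Y.eq_empty_or_nonempty with rfl | hY
  · exact hb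
  by_contra hcon
  have hcN := P.N_of_not_D (Finset.insert_nonempty b Y) hcon
  obtain ⟨X, hX⟩ := hN.list [(∅, Y), ({a}, {b})] (by simp [hY]) (by
    simp only [List.pairwise_cons, List.mem_cons, List.not_mem_nil, or_false, forall_eq,
      IsEmpty.forall_iff, implies_true, List.Pairwise.nil, and_true]
    refine P.monoN ?_ ?_ hcN
    · intro x hx
      simpa [Finset.mem_symmDiff] using hx
    · intro x hx
      rw [Finset.mem_insert] at hx
      rw [Finset.mem_symmDiff, Finset.mem_singleton]
      rcases hx with rfl | hx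
      · exact Or.inr ⟨rfl, hbY⟩
      · exact Or.inl ⟨hx, fun h => hbY (h ▸ hx)⟩)
  have h1 := hX (∅, Y) (by simp)
  have h2 := hX ({a}, {b}) (by simp)
  simp only at h1 h2
  by_cases ha : a ∈ X
  · refine P.not_D_of_N h1 (P.mono ?_ subset_rfl h)
    intro x hx
    rw [Finset.mem_singleton] at hx
    subst hx
    simpa [Finset.mem_symmDiff] using ha
  · refine P.not_D_of_N h2 (P.mono ?_ subset_rfl hb)
    intro x hx
    rw [Finset.mem_singleton] at hx
    subst hx
    simpa [Finset.mem_symmDiff] using ha

lemma single_iff (a : A) (Y : Finset B) : P.D {a} Y ↔ ∀ b ∈ Y, P.gt a b := by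
  constructor
  · intro h b hb
    exact P.mono subset_rfl (Finset.singleton_subset_iff.2 hb) h
  · intro h
    induction Y using Finset.induction_on with
    | empty => exact P.D_empty (Finset.singleton_nonempty a)
    | insert b Y hb ih =>
      exact single_insert hN (ih fun c hc => h c (Finset.mem_insert_of_mem hc))
        (h b (Finset.mem_insert_self b Y))

omit hN in
include hD in
/-- a set beaten by a disjoint union splits -/
lemma split {X1 X2 : Finset A} (h1 : X1.Nonempty) (h2 : X2.Nonempty) (hd : Disjoint X1 X2)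
    {Y : Finset B} (h : P.D (X1 ∪ X2) Y) :
    ∃ Y' : Finset B, P.D X1 (Y ∩ Y') ∧ P.D X2 (Y \ Y') := by
  obtain ⟨Y', hY'⟩ := ExtN.list (P := P.dual) hD [(∅, X1), (Y, X2)] (by simp [h1, h2]) (by
    simp only [List.pairwise_cons, List.mem_cons, List.not_mem_nil, or_false, forall_eq,
      IsEmpty.forall_iff, implies_true, List.Pairwise.nil, and_true]
    refine P.mono ?_ ?_ h
    · intro x hx
      rw [Finset.mem_union] at hx
      rw [Finset.mem_symmDiff]
      rcases hx with hx | hx
      · exact Or.inl ⟨hx, fun h => Finset.disjoint_left.1 hd hx h⟩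
      · exact Or.inr ⟨hx, fun h => Finset.disjoint_left.1 hd h hx⟩
    · intro x hx
      simpa [Finset.mem_symmDiff] using hx)
  have h3 := hY' (∅, X1) (by simp)
  have h4 := hY' (Y, X2) (by simp)
  refine ⟨Y', P.mono subset_rfl ?_ h3, P.mono subset_rfl ?_ h4⟩
  · intro x hx
    rw [Finset.mem_inter] at hx
    simpa [Finset.mem_symmDiff] using hx.2
  · intro x hx
    rw [Finset.mem_sdiff] at hx
    rw [Finset.mem_symmDiff]
    exact Or.inr hx

include hD

lemma pair_insert {a c : A} (hac : a ≠ c) {b : B} {Y : Finset B} (h : P.D {a, c} Y)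
    (ha : ¬ P.D {a} Y) (hc : ¬ P.D {c} Y) (hb : P.gt a b) : P.D {a, c} (insert b Y) := by
  by_cases hbY : b ∈ Y
  · rwa [Finset.insert_eq_of_mem hbY]
  by_contra hcon
  have hcN := P.N_of_not_D (Finset.insert_nonempty b Y) hcon
  obtain ⟨Y', h1, h2⟩ := split hD (X1 := {a}) (X2 := {c}) (by simp) (by simp)
    (by simpa using hac) (by
      have : ({a} : Finset A) ∪ {c} = {a, c} := by
        ext x; simp
      rwa [this])
  have hYc : ¬ P.D {a} (Y \ Y') := by
    intro h3
    apply ha
    rw [single_iff hN]
    intro x hx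
    by_cases hx' : x ∈ Y'
    · exact (single_iff hN a _).1 h1 x (Finset.mem_inter.2 ⟨hx, hx'⟩)
    · exact (single_iff hN a _).1 h3 x (Finset.mem_sdiff.2 ⟨hx, hx'⟩)
  have hYa : ¬ P.D {c} (Y ∩ Y') := by
    intro h3
    apply hc
    rw [single_iff hN]
    intro x hx
    by_cases hx' : x ∈ Y'
    · exact (single_iff hN c _).1 h3 x (Finset.mem_inter.2 ⟨hx, hx'⟩)
    · exact (single_iff hN c _).1 h2 x (Finset.mem_sdiff.2 ⟨hx, hx'⟩)
  have hYcn : (Y \ Y').Nonempty := by
    rw [Finset.nonempty_iff_ne_empty]
    intro h3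
    rw [h3] at hYc
    exact hYc (P.D_empty (by simp))
  have hYan : (Y ∩ Y').Nonempty := by
    rw [Finset.nonempty_iff_ne_empty]
    intro h3
    rw [h3] at hYa
    exact hYa (P.D_empty (by simp))
  have hYn : Y.Nonempty := hYan.mono Finset.inter_subset_left
  obtain ⟨X, hX⟩ := hN.list [(∅, {b}), ({a}, Y \ Y'), ({a, c}, Y)] (by simp [hYcn, hYn]) (by
    simp only [List.pairwise_cons, List.mem_cons, List.not_mem_nil, or_false, forall_eq_or_imp,
      forall_eq, IsEmpty.forall_iff, implies_true, List.Pairwise.nil, and_true]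
    refine ⟨⟨?_, ?_⟩, ?_⟩
    · refine P.monoN ?_ ?_ (P.N_of_not_D hYcn hYc)
      · intro x hx
        simpa [Finset.mem_symmDiff] using hx
      · intro x hx
        rw [Finset.mem_symmDiff, Finset.mem_singleton]
        exact Or.inr ⟨hx, fun h => hbY (h ▸ (Finset.mem_sdiff.1 hx).1)⟩
    · refine P.monoN ?_ ?_ hcN
      · intro x hx
        simpa [Finset.mem_symmDiff] using hx
      · intro x hx
        rw [Finset.mem_insert] at hx
        rw [Finset.mem_symmDiff, Finset.mem_singleton]
        rcases hx with rfl | hx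
        · exact Or.inl ⟨rfl, hbY⟩
        · exact Or.inr ⟨hx, fun h => hbY (h ▸ hx)⟩
    · refine P.monoN ?_ ?_ (P.N_of_not_D hYan hYa)
      · intro x hx
        simp only [Finset.mem_symmDiff, Finset.mem_singleton, Finset.mem_insert] at hx ⊢
        tauto
      · intro x hx
        simp only [Finset.mem_symmDiff, Finset.mem_sdiff, Finset.mem_inter] at hx ⊢
        tauto)
  have h3 := hX (∅, {b}) (by simp)
  have h4 := hX ({a}, Y \ Y') (by simp)
  have h5 := hX ({a, c}, Y) (by simp)
  simp only at h3 h4 h5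
  have haX : a ∉ X := by
    intro ha'
    refine P.not_D_of_N h3 (P.mono ?_ subset_rfl hb)
    intro x hx
    rw [Finset.mem_singleton] at hx
    subst hx
    simpa [Finset.mem_symmDiff] using ha'
  have hcX : c ∉ X := by
    intro hc'
    refine P.not_D_of_N h4 (P.mono ?_ subset_rfl h2)
    intro x hx
    rw [Finset.mem_singleton] at hx
    subst hx
    rw [Finset.mem_symmDiff, Finset.mem_singleton]
    exact Or.inl ⟨hc', hac.symm⟩
  refine P.not_D_of_N h5 (P.mono ?_ subset_rfl h)
  intro x hx
  rw [Finset.mem_symmDiff]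
  refine Or.inr ⟨hx, ?_⟩
  rw [Finset.mem_insert, Finset.mem_singleton] at hx
  rcases hx with rfl | rfl
  · exact haX
  · exact hcX

lemma pair_cases {a c : A} (hac : a ≠ c) {Y : Finset B} (h : P.D {a, c} Y) {b : B} (hb : b ∈ Y) :
    P.gt a b ∨ P.gt c b := by
  obtain ⟨Y', h1, h2⟩ := split hD (X1 := {a}) (X2 := {c}) (by simp) (by simp)
    (by simpa using hac) (by
      have : ({a} : Finset A) ∪ {c} = {a, c} := by
        ext x; simp
      rwa [this])
  by_cases hb' : b ∈ Y'
  · exact Or.inl ((single_iff hN a _).1 h1 b (Finset.mem_inter.2 ⟨hb, hb'⟩))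
  · exact Or.inr ((single_iff hN c _).1 h2 b (Finset.mem_sdiff.2 ⟨hb, hb'⟩))

theorem fac_of_ext : P.Fac where
  single := single_iff hN
  pairJ := by
    intro a c Y hJ
    have hac := J_ne hJ
    constructor
    · intro h b hb
      exact pair_cases hN hD hac h hb
    · intro h
      obtain ⟨b, d, h1, h2, h3, h4, h5⟩ := hJ
      have key : P.D {a, c} (Y ∪ {b, d}) := by
        induction Y using Finset.induction_on with
        | empty => simpa using h5
        | insert x Y hx ih =>
          have h6 := ih fun y hy => h y (Finset.mem_insert_of_mem hy)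
          have hna : ¬ P.D {a} (Y ∪ {b, d}) := by
            rw [single_iff hN]
            intro h7
            exact h2 (h7 d (by simp))
          have hnc : ¬ P.D {c} (Y ∪ {b, d}) := by
            rw [single_iff hN]
            intro h7
            exact h4 (h7 b (by simp))
          rw [Finset.insert_union]
          rcases h x (Finset.mem_insert_self x Y) with h7 | h7
          · exact pair_insert hN hD hac h6 hna hnc h7
          · rw [Finset.pair_comm a c] at h6 ⊢
            exact pair_insert hN hD hac.symm h6 hnc hna h7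
      exact P.mono subset_rfl Finset.subset_union_left key
  pairN := by
    intro a c Y hJ
    constructor
    · intro h
      by_contra hcon
      push Not at hcon
      obtain ⟨⟨d, hd, hda⟩, ⟨b, hb, hbc⟩⟩ := hcon
      by_cases hac : a = c
      · subst hac
        rw [Finset.pair_eq_singleton] at h
        exact hda ((single_iff hN a Y).1 h d hd)
      have h1 := pair_cases hN hD hac h hd
      have h2 := pair_cases hN hD hac h hb
      refine hJ ⟨b, d, h2.resolve_right hbc, hda, h1.resolve_left hda, hbc, ?_⟩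
      refine P.mono subset_rfl ?_ h
      intro x hx
      rw [Finset.mem_insert, Finset.mem_singleton] at hx
      rcases hx with rfl | rfl
      · exact hb
      · exact hd
    · rintro (h | h)
      · exact P.mono (by simp) subset_rfl ((single_iff hN a Y).2 h)
      · exact P.mono (by simp) subset_rfl ((single_iff hN c Y).2 h)

end

end Pat

end Pool.Agent.Cis
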