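import Pool.Agent.H.MP_1bdfda_lc.Nec

/-!
The pair property in general, and the theorem that extension properties imply good patterns.
-/

open scoped symmDiff

set_option linter.unusedSectionVars false

namespace Pool.Agent.Cis

namespace Pat

variable {A B : Type} [DecidableEq A] [DecidableEq B]

lemma cov_mono {P : Pat A B} {X X' : Finset A} {Y : Finset B} (h : X ⊆ X') (hc : P.cov X Y) :
    P.cov X' Y := by
  obtain ⟨a, ha, c, hc, hD⟩ := hc
  exact ⟨a, h ha, c, h hc, hD⟩

/-- the induction step for sets with at least four elements -/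
lemma cov_step {P : Pat A B} (hN : P.ExtN) (hF : P.Fac) (hF' : P.dual.Fac) (hT : P.Trip)
    {X : Finset A} {Y : Finset B} (hX : 4 ≤ X.card) (hD : P.D X Y)
    (ih : ∀ (X' : Finset A) (Y' : Finset B), X'.card + Y'.card < X.card + Y.card →
      (P.D X' Y' → P.cov X' Y') ∧ (P.dual.D Y' X' → P.dual.cov Y' X')) : P.cov X Y := by
  by_contra hcov
  have hZ : ∀ j ∈ X, ∃ Z ⊆ Y, P.N (X.erase j) Z ∧ ∀ b ∈ Z, P.gt j b := by
    intro j hj
    have hcard : (X.erase j).card + Y.card < X.card + Y.card := by
      have := Finset.card_erase_lt_of_mem hj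
      omega
    refine exists_Z hF' (by rwa [Finset.insert_erase hj]) ((ih _ _ hcard).2 ?_)
    refine N_of_not_D' ?_ fun h => hcov (cov_mono (Finset.erase_subset j X) ((ih _ _ hcard).1 h))
    rw [← Finset.card_pos, Finset.card_erase_of_mem hj]
    omega
  choose! Z hZY hZN hZj using hZ
  have hmin1 : ∀ X' ⊂ X, ∀ Y' ⊆ Y, P.D X' Y' → P.cov X' Y' := by
    intro X' hX' Y' hY' h
    have h1 := Finset.card_lt_card hX'
    have h2 := Finset.card_le_card hY'
    exact (ih X' Y' (by omega)).1 h
  have hmin2 : ∀ Y' ⊂ Y, P.D X Y' → P.cov X Y' := by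
    intro Y' hY' h
    have h1 := Finset.card_lt_card hY'
    exact (ih X Y' (by omega)).1 h
  have hZJ : ∀ k ∈ X, ∀ m ∈ X, ∀ l ∈ X, m ≠ k → l ≠ k → P.J m l →
      ¬ ∀ b ∈ Z k, P.gt m b ∨ P.gt l b := by
    intro k hk m hm l hl hmk hlk hJ h
    refine P.not_D_of_N (hZN k hk) (P.mono (X := {m, l}) ?_ subset_rfl
      ((hF.pairJ m l _ hJ).2 h))
    intro x hx
    rw [Finset.mem_insert, Finset.mem_singleton] at hx
    rw [Finset.mem_erase]
    rcases hx with rfl | rfl
    · exact ⟨hmk, hm⟩
    · exact ⟨hlk, hl⟩
  -- different sets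
  have hZne : ∀ j ∈ X, ∀ k ∈ X, j ≠ k → Z j ≠ Z k := by
    intro j hj k hk hjk h
    refine P.not_D_of_N (hZN k hk) (P.mono (X := {j}) ?_ subset_rfl ?_)
    · rw [Finset.singleton_subset_iff, Finset.mem_erase]
      exact ⟨hjk, hj⟩
    · rw [hF.single, ← h]
      exact hZj j hj
  -- the joined pairs are a matching
  have hmat : ∀ j ∈ X, ∀ k ∈ X, ∀ l ∈ X, P.J j k → P.J j l → k = l := by
    intro j hj k hk l hl h1 h2
    by_contra hkl
    have hjk := J_ne h1
    have hjl := J_ne h2
    rcases hT j k l hkl h1 h2 with h3 | h3 | ⟨h3, h4⟩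
    · exact hZJ k hk j hj l hl hjk (Ne.symm hkl) h2 fun b hb => h3 b (hZj k hk b hb)
    · exact hZJ l hl j hj k hk hjl hkl h1 fun b hb => h3 b (hZj l hl b hb)
    · exact hZJ j hj k hk l hl hjk.symm hjl.symm h4 fun b hb => h3 b (hZj j hj b hb)
  have main := viol hN hF hD hcov hmin1 hmin2 Z hZY hZN hZj
  -- four elements, two edges
  have four : ∀ j m k l : A, j ≠ m → j ≠ k → j ≠ l → m ≠ k → m ≠ l → k ≠ l →
      (∀ w, w ∈ X ↔ w = j ∨ w = m ∨ w = k ∨ w = l) → P.J j m → P.J k l → Z j ∆ Z k ≠ Y →
      False := by
    intro j m k l hjm hjk hjl hmk hml hkl hXm h1 h2 h3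
    have hj : j ∈ X := (hXm j).2 (by simp)
    have hm : m ∈ X := (hXm m).2 (by simp)
    have hk : k ∈ X := (hXm k).2 (by simp)
    have hl : l ∈ X := (hXm l).2 (by simp)
    have hO : ∀ w, w ≠ j → w ≠ k →
        (if w = j then ({m} : Finset A) else if w = k then {l} else ∅) = ∅ := by
      intro w hw1 hw2
      rw [if_neg hw1, if_neg hw2]
    have hOcard : ∀ w, (insert w (if w = j then ({m} : Finset A) else if w = k then {l}
        else ∅)).card ≤ 2 := by
      intro w
      refine (Finset.card_insert_le _ _).trans ?_
      split_ifs <;> simp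
    refine main (fun w => if w = j then {m} else if w = k then {l} else ∅) ?_ ?_ ?_ ?_ ?_
    · intro u hu v hv
      by_cases huj : u = j
      · subst huj
        rw [if_pos rfl, Finset.mem_singleton] at hv
        subst hv
        exact ⟨hm, h1⟩
      · rw [if_neg huj] at hv
        by_cases huk : u = k
        · subst huk
          rw [if_pos rfl, Finset.mem_singleton] at hv
          subst hv
          exact ⟨hl, h2⟩
        · rw [if_neg huk] at hv
          exact absurd hv (Finset.notMem_empty _)
    · intro u hu v hv hJ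
      rcases (hXm u).1 hu with rfl | rfl | rfl | rfl
      · left
        rw [if_pos rfl, Finset.mem_singleton]
        exact hmat u hu v hv m hm hJ h1
      · right
        have : v = j := hmat u hu v hv j hj hJ (J_symm h1)
        rw [if_pos this, Finset.mem_singleton]
      · left
        rw [if_neg hjk.symm, if_pos rfl, Finset.mem_singleton]
        exact hmat u hu v hv l hl hJ h2
      · right
        have : v = k := hmat u hu v hv k hk hJ (J_symm h2)
        rw [if_neg (this ▸ hjk.symm), if_pos this, Finset.mem_singleton]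
    · intro u hu v hv w hw
      by_cases huj : u = j
      · rw [if_pos huj, Finset.mem_singleton] at hv hw
        rw [hv, hw]
      · rw [if_neg huj] at hv hw
        by_cases huk : u = k
        · rw [if_pos huk, Finset.mem_singleton] at hv hw
          rw [hv, hw]
        · rw [if_neg huk] at hv
          exact absurd hv (Finset.notMem_empty _)
    · intro u hu v hv huv u' hu' v' hv' hne1 hne2 hJ
      have aux : ∀ s : A, ∀ s' : A, s' ∈ (if s = j then ({m} : Finset A) else if s = k then {l}
          else ∅) → s = j ∧ s' = m ∨ s = k ∧ s' = l := by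
        intro s s' hs
        by_cases h4 : s = j
        · rw [if_pos h4, Finset.mem_singleton] at hs
          exact Or.inl ⟨h4, hs⟩
        · rw [if_neg h4] at hs
          by_cases h5 : s = k
          · rw [if_pos h5, Finset.mem_singleton] at hs
            exact Or.inr ⟨h5, hs⟩
          · rw [if_neg h5] at hs
            exact absurd hs (Finset.notMem_empty _)
      rcases aux u u' hu' with ⟨rfl, rfl⟩ | ⟨rfl, rfl⟩ <;>
        rcases aux v v' hv' with ⟨rfl, rfl⟩ | ⟨rfl, rfl⟩
      · exact huv rfl
      · exact hne2 (hmat _ hm _ hl _ hj hJ (J_symm h1))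
      · exact hne2 (hmat _ hl _ hm _ hk hJ (J_symm h2))
      · exact huv rfl
    · intro u hu v hv huv
      by_cases hu' : u = j ∨ u = k
      · by_cases hv' : v = j ∨ v = k
        · right
          rcases hu' with rfl | rfl <;> rcases hv' with rfl | rfl
          · exact absurd rfl huv
          · exact h3
          · rw [symmDiff_comm]; exact h3
          · exact absurd rfl huv
        · left
          push Not at hv'
          intro h
          have h4 := congrArg Finset.card h
          have h5 : (insert u (if u = j then ({m} : Finset A) else if u = k then {l} else ∅) ∆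
              insert v (if v = j then ({m} : Finset A) else if v = k then {l} else ∅)).card
              ≤ 3 := by
            rw [hO v hv'.1 hv'.2]
            refine (Finset.card_le_card (t := insert u (if u = j then ({m} : Finset A) else
              if u = k then {l} else ∅) ∪ {v}) ?_).trans
              ((Finset.card_union_le _ _).trans ?_)
            · intro w hw
              rw [Finset.mem_symmDiff] at hw
              rw [Finset.mem_union]
              rcases hw with ⟨h6, _⟩ | ⟨h6, _⟩
              · exact Or.inl h6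
              · exact Or.inr (by simpa using h6)
            · have := hOcard u
              rw [Finset.card_singleton]
              omega
          omega
      · left
        push Not at hu'
        intro h
        have h4 := congrArg Finset.card h
        have h5 : (insert u (if u = j then ({m} : Finset A) else if u = k then {l} else ∅) ∆
            insert v (if v = j then ({m} : Finset A) else if v = k then {l} else ∅)).card
            ≤ 3 := by
          rw [hO u hu'.1 hu'.2]
          refine (Finset.card_le_card (t := insert v (if v = j then ({m} : Finset A) else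
            if v = k then {l} else ∅) ∪ {u}) ?_).trans
            ((Finset.card_union_le _ _).trans ?_)
          · intro w hw
            rw [Finset.mem_symmDiff] at hw
            rw [Finset.mem_union]
            rcases hw with ⟨h6, _⟩ | ⟨h6, _⟩
            · exact Or.inr (by simpa using h6)
            · exact Or.inl h6
          · have := hOcard v
            rw [Finset.card_singleton]
            omega
        omega
  -- a generic orientation
  obtain ⟨r, hr⟩ := Set.countable_iff_exists_injOn.1 (X : Set A).toFinite.countable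
  have hr' : ∀ j ∈ X, ∀ k ∈ X, r j = r k → j = k := fun j hj k hk h => hr hj hk h
  classical
  set O : A → Finset A := fun j => X.filter fun k => P.J j k ∧ r j < r k with hO
  have hOm : ∀ j k, k ∈ O j ↔ k ∈ X ∧ P.J j k ∧ r j < r k := by
    intro j k
    rw [hO]
    simp
  have o3 : ∀ j ∈ X, ∀ m ∈ O j, ∀ l ∈ O j, m = l := by
    intro j hj m hm l hl
    rw [hOm] at hm hl
    exact hmat j hj m hm.1 l hl.1 hm.2.1 hl.2.1
  have hcard : ∀ j ∈ X, (insert j (O j)).card ≤ 2 := by
    intro j hj
    have : (O j).card ≤ 1 := Finset.card_le_one.2 (o3 j hj)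
    have := Finset.card_insert_le j (O j)
    omega
  refine main O ?_ ?_ o3 ?_ ?_
  · intro j hj m hm
    rw [hOm] at hm
    exact ⟨hm.1, hm.2.1⟩
  · intro j hj k hk hJ
    rw [hOm, hOm]
    rcases lt_trichotomy (r j) (r k) with h | h | h
    · exact Or.inl ⟨hk, hJ, h⟩
    · exact absurd (hr' j hj k hk h) (J_ne hJ)
    · exact Or.inr ⟨hj, J_symm hJ, h⟩
  · intro j hj k hk hjk m hm l hl hmk hlj hJ
    rw [hOm] at hm hl
    exact hlj (hmat m hm.1 l hl.1 j hj hJ (J_symm hm.2.1))
  · intro j hj k hk hjk
    left
    intro h
    -- both `O j` and `O k` are nonempty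
    have hsub : ∀ (U V : Finset A), (U ∆ V).card ≤ U.card + V.card := by
      intro U V
      refine (Finset.card_le_card (t := U ∪ V) ?_).trans (Finset.card_union_le _ _)
      intro w hw
      rw [Finset.mem_symmDiff] at hw
      rw [Finset.mem_union]
      rcases hw with ⟨h6, _⟩ | ⟨h6, _⟩
      · exact Or.inl h6
      · exact Or.inr h6
    have h4 := hsub (insert j (O j)) (insert k (O k))
    rw [h] at h4
    have h5 := hcard j hj
    have h6 := hcard k hk
    have hjn : (O j).Nonempty := by
      rw [Finset.nonempty_iff_ne_empty]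
      intro h7
      rw [h7] at h4
      simp only [insert_empty_eq, Finset.card_singleton] at h4
      omega
    have hkn : (O k).Nonempty := by
      rw [Finset.nonempty_iff_ne_empty]
      intro h7
      rw [h7] at h4
      simp only [insert_empty_eq, Finset.card_singleton] at h4
      omega
    obtain ⟨m, hm⟩ := hjn
    obtain ⟨l, hl⟩ := hkn
    have hm' := (hOm j m).1 hm
    have hl' := (hOm k l).1 hl
    have hUj : ∀ w, w ∈ insert j (O j) ↔ w = j ∨ w = m := by
      intro w
      rw [Finset.mem_insert]
      constructor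
      · rintro (h7 | h7)
        · exact Or.inl h7
        · exact Or.inr (o3 j hj w h7 m hm)
      · rintro (h7 | h7)
        · exact Or.inl h7
        · exact Or.inr (h7 ▸ hm)
    have hUk : ∀ w, w ∈ insert k (O k) ↔ w = k ∨ w = l := by
      intro w
      rw [Finset.mem_insert]
      constructor
      · rintro (h7 | h7)
        · exact Or.inl h7
        · exact Or.inr (o3 k hk w h7 l hl)
      · rintro (h7 | h7)
        · exact Or.inl h7
        · exact Or.inr (h7 ▸ hl)
    have hXm : ∀ w, w ∈ X ↔ (w = j ∨ w = m) ∧ ¬ (w = k ∨ w = l) ∨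
        (w = k ∨ w = l) ∧ ¬ (w = j ∨ w = m) := by
      intro w
      rw [← h, Finset.mem_symmDiff, hUj, hUk]
    have hjm := J_ne hm'.2.1
    have hkl := J_ne hl'.2.1
    have hmk : m ≠ k := by
      rintro rfl
      rcases (hXm m).1 hk with ⟨_, h7⟩ | ⟨_, h7⟩
      · exact h7 (Or.inl rfl)
      · exact h7 (Or.inr rfl)
    have hjl : j ≠ l := by
      rintro rfl
      rcases (hXm j).1 hj with ⟨_, h7⟩ | ⟨_, h7⟩
      · exact h7 (Or.inr rfl)
      · exact h7 (Or.inl rfl)
    have hml : m ≠ l := by
      rintro rfl
      rcases (hXm m).1 hm'.1 with ⟨_, h7⟩ | ⟨_, h7⟩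
      · exact h7 (Or.inr rfl)
      · exact h7 (Or.inr rfl)
    have hX4 : ∀ w, w ∈ X ↔ w = j ∨ w = m ∨ w = k ∨ w = l := by
      intro w
      constructor
      · intro hw
        rcases (hXm w).1 hw with ⟨h7 | h7, _⟩ | ⟨h7 | h7, _⟩
        · exact Or.inl h7
        · exact Or.inr (Or.inl h7)
        · exact Or.inr (Or.inr (Or.inl h7))
        · exact Or.inr (Or.inr (Or.inr h7))
      · rintro (rfl | rfl | rfl | rfl)
        · exact hj
        · exact hm'.1
        · exact hk
        · exact hl'.1
    by_cases h7 : Z j ∆ Z k = Y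
    · refine four j m l k hjm hjl hjk hml hmk hkl.symm (fun w => ?_) hm'.2.1
        (J_symm hl'.2.1) ?_
      · rw [hX4 w]
        constructor
        · rintro (h8 | h8 | h8 | h8)
          · exact Or.inl h8
          · exact Or.inr (Or.inl h8)
          · exact Or.inr (Or.inr (Or.inr h8))
          · exact Or.inr (Or.inr (Or.inl h8))
        · rintro (h8 | h8 | h8 | h8)
          · exact Or.inl h8
          · exact Or.inr (Or.inl h8)
          · exact Or.inr (Or.inr (Or.inr h8))
          · exact Or.inr (Or.inr (Or.inl h8))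
      · intro h8
        rw [← h7] at h8
        have h9 : Z l = Z k := symmDiff_right_injective (Z j) h8
        exact hZne l hl'.1 k hk hkl.symm h9
    · exact four j m k l hjm hjk hjl hmk hml hkl hX4 hm'.2.1 hl'.2.1 h7

/-- the pair property -/
theorem cov_all {P : Pat A B} (hN : P.ExtN) (hD : P.ExtD) :
    ∀ (s : ℕ) (X : Finset A) (Y : Finset B), X.card + Y.card ≤ s →
      (P.D X Y → P.cov X Y) ∧ (P.dual.D Y X → P.dual.cov Y X) := by
  have hN' : P.dual.ExtN := hD
  have hD' : P.dual.ExtD := hN
  have hF := fac_of_ext hN hD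
  have hF' : P.dual.Fac := fac_of_ext hN' hD'
  have hT := trip_of_ext hN hD hF hF'
  have hT' : P.dual.Trip := trip_of_ext hN' hD' hF' hF
  intro s
  induction s with
  | zero =>
    intro X Y hs
    constructor
    · intro h
      have := (P.D_nonempty h).card_pos
      omega
    · intro h
      have := (P.dual.D_nonempty h).card_pos
      omega
  | succ s ih =>
    intro X Y hs
    constructor
    · intro h
      rcases Nat.lt_or_ge X.card 4 with h4 | h4
      · exact cov_three hN hF hF' (by omega) h
      · exact cov_step hN hF hF' hT h4 h fun X' Y' h5 => ih X' Y' (by omega)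
    · intro h
      rcases Nat.lt_or_ge Y.card 4 with h4 | h4
      · exact cov_three hN' hF' hF (by omega) h
      · refine cov_step hN' hF' hF hT' h4 h fun Y' X' h5 => ?_
        have := ih X' Y' (by omega)
        exact ⟨this.2, this.1⟩

theorem good_of_ext (P : Pat A B) (hN : P.ExtN) (hD : P.ExtD) : P.Good := by
  have hN' : P.dual.ExtN := hD
  have hD' : P.dual.ExtD := hN
  have hF := fac_of_ext hN hD
  have hF' : P.dual.Fac := fac_of_ext hN' hD'
  refine ⟨fun X Y => ?_, trip_of_ext hN hD hF hF'⟩
  constructor
  · intro h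
    obtain ⟨a, ha, c, hc, hac⟩ := (cov_all hN hD _ X Y le_rfl).1 h
    by_cases hJ : P.J a c
    · exact Or.inr ⟨a, ha, c, hc, hJ, (hF.pairJ a c Y hJ).1 hac⟩
    · rcases (hF.pairN a c Y hJ).1 hac with h1 | h1
      · exact Or.inl ⟨a, ha, h1⟩
      · exact Or.inl ⟨c, hc, h1⟩
  · rintro (⟨a, ha, h1⟩ | ⟨a, ha, c, hc, hJ, h1⟩)
    · exact P.mono (Finset.singleton_subset_iff.2 ha) subset_rfl ((hF.single a Y).2 h1)
    · refine P.mono (X := {a, c}) ?_ subset_rfl ((hF.pairJ a c Y hJ).2 h1)
      intro x hx
      rw [Finset.mem_insert, Finset.mem_singleton] at hx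
      rcases hx with rfl | rfl
      · exact ha
      · exact hc

end Pat

end Pool.Agent.Cis
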