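import Pool.Agent.H.MP_1bdfda_lc.MonoF
import Pool.Agent.H.MP_1bdfda_lc.CPat
import Pool.Agent.H.MP_1bdfda_lc.Nec2

/-!
CIS circulants have good patterns.
-/

open scoped symmDiff

namespace Pool.Agent.Cis

open SimpleGraph

variable {n : ℕ} [NeZero n]

lemma map_symm {p : Lv n → Prop} (X Y : Finset {q // p q}) :
    (X ∆ Y).map (Function.Embedding.subtype _) =
      X.map (Function.Embedding.subtype _) ∆ Y.map (Function.Embedding.subtype _) := by
  ext q
  rw [mem_map_sub, Finset.mem_symmDiff, mem_map_sub, mem_map_sub]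
  simp only [Finset.mem_symmDiff]
  constructor
  · rintro ⟨h, h1⟩
    rcases h1 with ⟨h1, h2⟩ | ⟨h1, h2⟩
    · exact Or.inl ⟨⟨h, h1⟩, fun h3 => h2 h3.2⟩
    · exact Or.inr ⟨⟨h, h1⟩, fun h3 => h2 h3.2⟩
  · rintro (⟨⟨h, h1⟩, h2⟩ | ⟨⟨h, h1⟩, h2⟩)
    · exact ⟨h, Or.inl ⟨h1, fun h3 => h2 ⟨h, h3⟩⟩⟩
    · exact ⟨h, Or.inr ⟨h1, fun h3 => h2 ⟨h, h3⟩⟩⟩

lemma extN_of_extS {E : Set (ZMod n)} {pA pB : Lv n → Prop} (hpA : ∀ q, pA q ↔ ft E {q})
    (hpB : ∀ q, pB q ↔ ¬ ft E {q}) (P : Pat {q // pA q} {q // pB q})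
    (hP : ∀ X Y, P.N X Y ↔ (X.Nonempty ∨ Y.Nonempty) ∧
      ¬ ft E (X.map (Function.Embedding.subtype _) ∪ Y.map (Function.Embedding.subtype _)))
    (hE : ExtS E) : P.ExtN := by
  classical
  intro F h1 h2
  obtain ⟨X, hX, hF⟩ := hE (F.image fun p => (p.1.map (Function.Embedding.subtype _),
    p.2.map (Function.Embedding.subtype _))) (by
    intro p hp
    obtain ⟨r, hr, rfl⟩ := Finset.mem_image.1 hp
    refine ⟨fun q hq => ?_, fun q hq => ?_, (h1 r hr).map⟩
    · obtain ⟨h, _⟩ := mem_map_sub.1 hq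
      exact (hpA q).1 h
    · obtain ⟨h, _⟩ := mem_map_sub.1 hq
      exact (hpB q).1 h) (by
    intro p hp r hr hne
    obtain ⟨p', hp', rfl⟩ := Finset.mem_image.1 hp
    obtain ⟨r', hr', rfl⟩ := Finset.mem_image.1 hr
    have h3 := ((hP _ _).1 (h2 p' hp' r' hr' (fun h => hne (by rw [h])))).2
    rw [map_symm, map_symm] at h3
    exact h3)
  have hXs : (X.subtype pA).map (Function.Embedding.subtype _) = X := by
    ext q
    rw [mem_map_sub]
    simp only [Finset.mem_subtype]
    exact ⟨fun h => h.2, fun h => ⟨(hpA q).2 (hX q h), h⟩⟩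
  refine ⟨X.subtype pA, fun p hp => ?_⟩
  rw [hP]
  refine ⟨Or.inr (h1 p hp), ?_⟩
  rw [map_symm, hXs]
  exact hF _ (Finset.mem_image.2 ⟨p, hp, rfl⟩)

/-- the conditions are necessary -/
theorem goodE_of_cis {D : Set (ZMod n)} (hD : Conn D) (hG : IsCIS (circulantGraph D)) :
    GoodE D ∧ GoodE (co D) := by
  have hc := gcdClosed_of_cis hD hG
  have hM := mono_of_cis hD hG
  obtain ⟨P, hPD, hPN⟩ := exists_pat hD.1 hM
  have hN : P.ExtN := extN_of_extS (fun _ => Iff.rfl) (fun _ => Iff.rfl) P hPN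
    (extS_of_cis hD hG)
  have hDD : P.dual.ExtN := by
    refine extN_of_extS (E := co D) (fun q => ?_) (fun q => ?_) P.dual ?_
      (extS_of_cis (conn_co hD) (cis_co hD hG))
    · rw [ft_co hc (Finset.singleton_nonempty q)]
    · rw [ft_co hc (Finset.singleton_nonempty q), not_not]
    · intro Y X
      have h1 : P.dual.N Y X ↔ P.D X Y := Iff.rfl
      rw [h1, hPD, Finset.union_comm]
      by_cases hne : X.Nonempty ∨ Y.Nonempty
      · have h2 : (X.map (Function.Embedding.subtype (fun q : Lv n => ft D {q})) ∪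
            Y.map (Function.Embedding.subtype (fun q : Lv n => ¬ ft D {q}))).Nonempty := by
          rcases hne with h1 | h1
          · exact (h1.map (f := Function.Embedding.subtype _)).mono Finset.subset_union_left
          · exact (h1.map (f := Function.Embedding.subtype _)).mono Finset.subset_union_right
        rw [ft_co hc h2, not_not]
        exact ⟨fun h => ⟨hne.symm, h⟩, fun h => h.2⟩
      · refine iff_of_false ?_ (fun h => hne h.1.symm)
        rw [not_or, Finset.not_nonempty_iff_eq_empty, Finset.not_nonempty_iff_eq_empty] at hne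
        unfold joinS
        rw [hne.1, hne.2, Finset.map_empty, Finset.map_empty, Finset.union_empty]
        exact not_ft_empty hD.1
  have hg := Pat.good_of_ext P hN hDD
  have hg' := Pat.good_of_ext P.dual hDD hN
  exact ⟨(good_iff P hPD).1 hg, (dual_good_iff hD hc P hPN).1 hg'⟩

end Pool.Agent.Cis
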