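import Pool.Agent.H.MP_1bdfda_lc.Shift2

/-!
Monotonicity of the patterns of CIS circulants, and the extension property for stable sets.
-/

namespace Pool.Agent.Cis

set_option linter.unusedSectionVars false

open SimpleGraph

open scoped symmDiff

variable {n : ℕ} [NeZero n]

lemma mem_iff_dset_zero {D : Set (ZMod n)} (hc : GcdClosed D) (x : ZMod n) :
    x ∈ D ↔ ft D (dset x 0) := by
  have := mem_iff_ft hc x 0
  rwa [sub_zero] at this

lemma level_dvd_iff (r : Lv n) (x : ZMod n) :
    r.1 ∣ x.val ↔ ∀ q' : Lv n, q'.1 ∣ r.1 → q' ∉ dset x 0 := by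
  have := dvd_iff_dset r x 0
  rwa [sub_zero] at this

lemma insert_of_cis {D : Set (ZMod n)} (hD : Conn D) (hG : IsCIS (circulantGraph D))
    (S : Finset (Lv n)) (q : Lv n) (hq : ft D {q}) (hS : ft D S) : ft D (insert q S) := by
  classical
  have hc := gcdClosed_of_cis hD hG
  by_contra hcon
  by_cases hup : ∃ q' ∈ S, q'.1 ∣ q.1
  · obtain ⟨q', hq'S, hq'q⟩ := hup
    apply hcon
    refine (ft_congr hc fun r => ?_).1 hS
    constructor
    · intro h q'' hq'' h1
      rw [Finset.mem_insert] at h1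
      rcases h1 with rfl | h1
      · exact h q' (hq'q.trans hq'') hq'S
      · exact h q'' hq'' h1
    · intro h q'' hq'' h1
      exact h q'' hq'' (Finset.mem_insert_of_mem h1)
  push Not at hup
  obtain ⟨p, j, hp, hqp⟩ := level_form q
  obtain ⟨z, hz, -⟩ := exists_elt (insert q S)
  obtain ⟨x, hx, -⟩ := exists_elt S
  have hzD : z ∉ D := by rwa [mem_iff_dset_zero hc, hz]
  have hxD : x ∈ D := by rwa [mem_iff_dset_zero hc, hx]
  -- divisibility of `z` by the levels of `p`
  have hzp : ∀ i, p ^ (i + 1) ∣ n → (p ^ (i + 1) ∣ z.val ↔ i + 1 ≤ j) := by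
    intro i hi
    have h1 := level_dvd_iff ⟨p ^ (i + 1), mem_levels hp hi⟩ z
    simp only [hz] at h1
    rw [h1]
    constructor
    · intro h
      by_contra h2
      refine h q ?_ (Finset.mem_insert_self q S)
      rw [hqp]
      exact pow_dvd_pow p (by omega)
    · intro h r hr h2
      rw [Finset.mem_insert] at h2
      rcases h2 with rfl | h2
      · rw [hqp, Nat.pow_dvd_pow_iff_le_right hp.one_lt] at hr
        omega
      · refine hup r h2 (hr.trans ?_)
        rw [hqp]
        exact pow_dvd_pow p (by omega)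
  have hz1 : p ^ j ∣ z.val := by
    rcases j with - | i
    · simp
    · refine (hzp i ?_).2 le_rfl
      refine (?_ : p ^ (i + 1) ∣ q.1).trans (level_dvd q)
      rw [hqp]
      exact pow_dvd_pow p (by omega)
  have hz2 : ¬ p ^ (j + 1) ∣ z.val := by
    rw [hzp j (hqp ▸ level_dvd q)]
    omega
  have hmm := mm_all hp j D hD hG q hqp hq z hz1 hz2 hzD
  -- levels prime to `p`
  have hcop : ∀ r : Lv n, ¬ p ∣ r.1 → (r.1 ∣ z.val ↔ r.1 ∣ x.val) := by
    intro r hr
    rw [level_dvd_iff, level_dvd_iff, hz, hx]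
    refine forall_congr' fun r' => imp_congr_right fun hr' => ?_
    rw [Finset.mem_insert, not_or]
    constructor
    · exact fun h => h.2
    · intro h
      refine ⟨?_, h⟩
      rintro rfl
      apply hr
      refine (?_ : p ∣ r'.1).trans hr'
      rw [hqp]
      exact dvd_pow_self p (Nat.succ_ne_zero j)
  by_cases hSp : ∃ r ∈ S, p ∣ r.1
  · obtain ⟨b, hb, hmin⟩ := Finset.exists_min_image (S.filter fun r => p ∣ r.1) (fun r => r.1) (by
      obtain ⟨r, hr, hr'⟩ := hSp
      exact ⟨r, Finset.mem_filter.2 ⟨hr, hr'⟩⟩)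
    rw [Finset.mem_filter] at hb
    obtain ⟨j₀, hj₀⟩ := prime_of_dvd_level hp hb.2
    have hlt : j < j₀ := by
      by_contra h
      refine hup b hb.1 ?_
      rw [hj₀, hqp]
      exact pow_dvd_pow p (by omega)
    have hxp : ∀ i, p ^ (i + 1) ∣ n → (p ^ (i + 1) ∣ x.val ↔ i + 1 ≤ j₀) := by
      intro i hi
      have h1 := level_dvd_iff ⟨p ^ (i + 1), mem_levels hp hi⟩ x
      simp only [hx] at h1
      rw [h1]
      constructor
      · intro h
        by_contra h2
        refine h b ?_ hb.1
        rw [hj₀]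
        exact pow_dvd_pow p (by omega)
      · intro h r hr h2
        have hpr : p ∣ r.1 := by
          obtain ⟨p', i', hp', hr'⟩ := level_form r
          have h3 : p' ∣ p ^ (i + 1) := (dvd_pow_self p' (Nat.succ_ne_zero i')).trans (hr' ▸ hr)
          have h4 := (Nat.prime_dvd_prime_iff_eq hp' hp).1 (hp'.dvd_of_dvd_pow h3)
          rw [hr', h4]
          exact dvd_pow_self p (Nat.succ_ne_zero i')
        have h3 := hmin r (Finset.mem_filter.2 ⟨h2, hpr⟩)
        have h4 := Nat.le_of_dvd (pow_pos hp.pos _) hr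
        rw [hj₀] at h3
        have h5 := (Nat.pow_le_pow_iff_right hp.one_lt).1 (h3.trans h4)
        omega
    have h3 := (hmm (j₀ - j)).1
    apply h3
    refine (mem_congr hc fun r => ?_).2 hxD
    rw [dvd_val_mul (level_dvd r)]
    by_cases hr : p ∣ r.1
    · obtain ⟨i, hi⟩ := prime_of_dvd_level hp hr
      have hin : p ^ (i + 1) ∣ n := hi ▸ level_dvd r
      rw [hi, hxp i hin]
      rcases Nat.lt_or_ge i (j₀ - j) with h5 | h5
      · constructor
        · intro _; omega
        · intro _
          exact ((pow_dvd_pow p (by omega : i + 1 ≤ j₀ - j)).mul_right _)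
      · have h6 : i + 1 = (j₀ - j) + ((i - (j₀ - j)) + 1) := by omega
        rw [h6, pow_add, Nat.mul_dvd_mul_iff_left (pow_pos hp.pos _), hzp _ (by
          refine (pow_dvd_pow p ?_).trans hin
          omega)]
        omega
    · rw [(coprime_of_not_dvd hp hr _).dvd_mul_left]
      exact hcop r hr
  · push Not at hSp
    have h3 := (hmm (n.factorization p)).1
    apply h3
    refine (mem_congr hc fun r => ?_).2 hxD
    rw [dvd_val_mul (level_dvd r)]
    by_cases hr : p ∣ r.1
    · obtain ⟨i, hi⟩ := prime_of_dvd_level hp hr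
      constructor
      · intro _
        rw [level_dvd_iff, hx]
        intro r' hr' h4
        refine hSp r' h4 ?_
        obtain ⟨p', i', hp', hr''⟩ := level_form r'
        have h5 : p' ∣ p ^ (i + 1) := by
          rw [← hi]
          exact (dvd_pow_self p' (Nat.succ_ne_zero i')).trans (hr'' ▸ hr')
        have h6 := (Nat.prime_dvd_prime_iff_eq hp' hp).1 (hp'.dvd_of_dvd_pow h5)
        rw [hr'', h6]
        exact dvd_pow_self p (Nat.succ_ne_zero i')
      · intro _
        refine Dvd.dvd.mul_right ?_ _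
        rw [hi]
        refine pow_dvd_pow p ?_
        rw [← hp.pow_dvd_iff_le_factorization (NeZero.ne n), ← hi]
        exact level_dvd r
    · rw [(coprime_of_not_dvd hp hr _).dvd_mul_left]
      exact hcop r hr

/-- patterns of CIS circulants are monotone -/
theorem mono_of_cis {D : Set (ZMod n)} (hD : Conn D) (hG : IsCIS (circulantGraph D)) :
    Mono D := by
  intro S q hS
  have hc := gcdClosed_of_cis hD hG
  refine ⟨insert_of_cis hD hG S q, fun h1 h2 => ?_⟩
  rw [← ft_co hc (Finset.singleton_nonempty q)] at h1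
  rw [← ft_co hc hS] at h2
  rw [← ft_co hc (Finset.insert_nonempty q S)]
  exact insert_of_cis (conn_co hD) (cis_co hD hG) S q h1 h2

lemma mono_union {D : Set (ZMod n)} (hM : Mono D) {S T : Finset (Lv n)} (hS : ft D S)
    (hSn : S.Nonempty) (hT : ∀ q ∈ T, ft D {q}) : ft D (T ∪ S) := by
  classical
  induction T using Finset.induction_on with
  | empty => simpa using hS
  | insert q T hq ih =>
    rw [Finset.insert_union]
    exact (hM _ q (hSn.mono Finset.subset_union_right)).1 (hT q (Finset.mem_insert_self q T))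
      (ih fun r hr => hT r (Finset.mem_insert_of_mem hr))

lemma mono_pure {D : Set (ZMod n)} (hM : Mono D) {T : Finset (Lv n)} (hTn : T.Nonempty)
    (hT : ∀ q ∈ T, ft D {q}) : ft D T := by
  classical
  obtain ⟨q, hq⟩ := hTn
  have := mono_union hM (hT q hq) (Finset.singleton_nonempty q) hT
  have e : T ∪ {q} = T := by
    rw [Finset.union_eq_left]
    exact Finset.singleton_subset_iff.2 hq
  rwa [e] at this

/-- the extension property for stable sets of `0/1` vertices -/
def ExtS (D : Set (ZMod n)) : Prop :=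
  ∀ F : Finset (Finset (Lv n) × Finset (Lv n)),
    (∀ p ∈ F, (∀ q ∈ p.1, ft D {q}) ∧ (∀ q ∈ p.2, ¬ ft D {q}) ∧ p.2.Nonempty) →
    (∀ p ∈ F, ∀ r ∈ F, p ≠ r → ¬ ft D ((p.1 ∆ r.1) ∪ (p.2 ∆ r.2))) →
    ∃ X : Finset (Lv n), (∀ q ∈ X, ft D {q}) ∧ ∀ p ∈ F, ¬ ft D ((X ∆ p.1) ∪ p.2)

/-- the column of zero -/
lemma column_maximal {D : Set (ZMod n)} (hD : Conn D) (hG : IsCIS (circulantGraph D))
    {A : Finset (Lv n)} (hA : ∀ q, q ∈ A ↔ ft D {q}) :
    Maximal (circulantGraph D).IsClique ((VS A : Finset (ZMod n)) : Set (ZMod n)) := by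
  classical
  have hc := gcdClosed_of_cis hD hG
  have hM := mono_of_cis hD hG
  have hM' := mono_of_cis (conn_co hD) (cis_co hD hG)
  have hcl : (circulantGraph D).IsClique ((VS A : Finset (ZMod n)) : Set (ZMod n)) := by
    rw [clique_iff hD]
    intro x hx y hy hxy
    rw [Finset.mem_coe, mem_VS] at hx hy
    rw [mem_iff_ft hc]
    refine mono_pure hM ?_ fun q hq => ?_
    · rw [Finset.nonempty_iff_ne_empty]
      intro h
      exact hxy (dset_empty_iff.1 h)
    · rw [mem_dset] at hq
      by_contra h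
      rw [← hA] at h
      exact hq (by rw [hx q h, hy q h])
  have hst : (circulantGraph D).IsIndepSet ((VS Aᶜ : Finset (ZMod n)) : Set (ZMod n)) := by
    rw [indep_iff hD]
    intro x hx y hy hxy
    rw [Finset.mem_coe, mem_VS] at hx hy
    rw [mem_iff_ft hc]
    have hne : (dset x y).Nonempty := by
      rw [Finset.nonempty_iff_ne_empty]
      intro h
      exact hxy (dset_empty_iff.1 h)
    rw [← ft_co hc hne]
    refine mono_pure hM' hne fun q hq => ?_
    rw [ft_co hc (Finset.singleton_nonempty q), ← hA]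
    rw [mem_dset] at hq
    intro h
    exact hq (by rw [hx q (by simpa using h), hy q (by simpa using h)])
  obtain ⟨C, hCV, hC⟩ := Finite.exists_le_maximal
    (p := fun C : Finset (ZMod n) => (circulantGraph D).IsClique (C : Set (ZMod n)))
    (a := VS A) hcl
  have hC' : Maximal (circulantGraph D).IsClique (C : Set (ZMod n)) := by
    refine ⟨hC.prop, fun T hT hCT => ?_⟩
    have h1 := hC.le_of_ge (y := T.toFinset) (by simpa using hT) (by
      intro x hx
      rw [Set.mem_toFinset]
      exact hCT hx)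
    intro x hx
    exact h1 (Set.mem_toFinset.2 hx)
  obtain ⟨S, hSV, hS⟩ := Finite.exists_le_maximal
    (p := fun C : Finset (ZMod n) => (circulantGraph D).IsIndepSet (C : Set (ZMod n)))
    (a := VS Aᶜ) hst
  have hS' : Maximal (circulantGraph D).IsIndepSet (S : Set (ZMod n)) := by
    refine ⟨hS.prop, fun T hT hCT => ?_⟩
    have h1 := hS.le_of_ge (y := T.toFinset) (by simpa using hT) (by
      intro x hx
      rw [Set.mem_toFinset]
      exact hCT hx)
    intro x hx
    exact h1 (Set.mem_toFinset.2 hx)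
  have hT := (tiling_of_cis hD hG hC' hS').1
  rw [Finset.card_image_of_injective _ neg_injective] at hT
  have hprod : (VS A : Finset (ZMod n)).card * (VS Aᶜ : Finset (ZMod n)).card = n := by
    have h1 : (Finset.univ : Finset (ZMod n)).card = n := by
      rw [Finset.card_univ, ZMod.card]
    have h2 : IsCyl A (Finset.univ : Finset (ZMod n)) := fun _ _ _ _ => Finset.mem_univ _
    have h3 := card_cyl h2
    rw [h1] at h3
    have h4 : redS A (Finset.univ : Finset (ZMod n)) = VS Aᶜ := by
      ext x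
      rw [mem_redS, mem_VS]
      simp
    rw [h4] at h3
    exact h3.symm
  have h1 := Finset.card_le_card hCV
  have h2 := Finset.card_le_card hSV
  have hCpos : 0 < (VS Aᶜ : Finset (ZMod n)).card := by
    rw [Finset.card_pos]
    exact ⟨0, mem_VS.2 fun q _ => dig_zero q.1⟩
  have h3 : C.card = (VS A : Finset (ZMod n)).card := by
    have h4 : C.card * (VS Aᶜ : Finset (ZMod n)).card ≤ C.card * S.card :=
      Nat.mul_le_mul_left _ h2
    have h5 : C.card * (VS Aᶜ : Finset (ZMod n)).card ≤
        (VS A : Finset (ZMod n)).card * (VS Aᶜ : Finset (ZMod n)).card :=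
      h4.trans (hT.trans hprod.symm).le
    exact le_antisymm (Nat.le_of_mul_le_mul_right h5 hCpos) h1
  have h5 : VS A = C := Finset.eq_of_subset_of_card_le hCV h3.le
  rw [h5]
  exact hC'

theorem extS_of_cis {D : Set (ZMod n)} (hD : Conn D) (hG : IsCIS (circulantGraph D)) :
    ExtS D := by
  classical
  have hc := gcdClosed_of_cis hD hG
  have hM := mono_of_cis hD hG
  set A : Finset (Lv n) := Finset.univ.filter fun q => ft D {q} with hAdef
  have hA : ∀ q, q ∈ A ↔ ft D {q} := by
    intro q
    rw [hAdef]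
    simp
  intro F hF1 hF2
  -- the vertices
  have hu : ∀ p : Finset (Lv n) × Finset (Lv n), ∃ z : ZMod n, ∀ q : Lv n,
      dig q.1 z = if q ∈ p.1 ∪ p.2 then 1 else 0 := fun p =>
    let ⟨z, _, hz⟩ := exists_elt (p.1 ∪ p.2)
    ⟨z, hz⟩
  choose u hu using hu
  have hdisj : ∀ p ∈ F, ∀ r ∈ F, ∀ q, q ∈ p.1 → q ∉ r.2 := by
    intro p hp r hr q hq h
    exact (hF1 r hr).2.1 q h ((hF1 p hp).1 q hq)
  have hds : ∀ p ∈ F, ∀ r ∈ F, dset (u p) (u r) = (p.1 ∆ r.1) ∪ (p.2 ∆ r.2) := by
    intro p hp r hr
    ext q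
    rw [mem_dset, hu, hu]
    have h1 := hdisj p hp r hr q
    have h2 := hdisj r hr p hp q
    have h3 := hdisj p hp p hp q
    have h4 := hdisj r hr r hr q
    by_cases a1 : q ∈ p.1 <;> by_cases a2 : q ∈ p.2 <;> by_cases a3 : q ∈ r.1 <;>
      by_cases a4 : q ∈ r.2 <;>
      simp_all [Finset.mem_union, Finset.mem_symmDiff]
  have hst : (circulantGraph D).IsIndepSet ((F.image u : Finset (ZMod n)) : Set (ZMod n)) := by
    rw [indep_iff hD]
    intro x hx y hy hxy
    rw [Finset.mem_coe, Finset.mem_image] at hx hy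
    obtain ⟨p, hp, rfl⟩ := hx
    obtain ⟨r, hr, rfl⟩ := hy
    rw [mem_iff_ft hc, hds p hp r hr]
    refine hF2 p hp r hr ?_
    rintro rfl
    exact hxy rfl
  obtain ⟨S, hSV, hS⟩ := Finite.exists_le_maximal
    (p := fun C : Finset (ZMod n) => (circulantGraph D).IsIndepSet (C : Set (ZMod n)))
    (a := F.image u) hst
  have hS' : Maximal (circulantGraph D).IsIndepSet (S : Set (ZMod n)) := by
    refine ⟨hS.prop, fun T hT hCT => ?_⟩
    have h1 := hS.le_of_ge (y := T.toFinset) (by simpa using hT) (by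
      intro x hx
      rw [Set.mem_toFinset]
      exact hCT hx)
    intro x hx
    exact h1 (Set.mem_toFinset.2 hx)
  obtain ⟨x, hxV, hxS⟩ := hG _ _ (column_maximal hD hG hA) hS'
  rw [Finset.mem_coe, mem_VS] at hxV
  refine ⟨A.filter fun q => dig q.1 x = 1, fun q hq => (hA q).1 (Finset.mem_filter.1 hq).1, ?_⟩
  intro p hp h
  have hpF := hF1 p hp
  -- the difference set of `x` and `u p`
  have hBx : ∀ q ∈ p.2, q ∈ dset x (u p) := by
    intro q hq
    have h1 : q ∉ A := by
      rw [hA]
      exact hpF.2.1 q hq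
    rw [mem_dset, hxV q h1, hu, if_pos (Finset.mem_union_right _ hq)]
    exact zero_ne_one
  have hne : x ≠ u p := by
    rintro rfl
    obtain ⟨q, hq⟩ := hpF.2.2
    have := hBx q hq
    rw [dset_empty_iff.2 rfl] at this
    exact absurd this (Finset.notMem_empty q)
  have h1 := (indep_iff hD _).1 hS'.prop x hxS (u p) (hSV (Finset.mem_image.2 ⟨p, hp, rfl⟩)) hne
  rw [mem_iff_ft hc] at h1
  apply h1
  have hsub : (((A.filter fun q => dig q.1 x = 1) ∆ p.1) ∪ p.2) ⊆ dset x (u p) := by
    intro q hq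
    rw [Finset.mem_union] at hq
    rcases hq with hq | hq
    · rw [Finset.mem_symmDiff, Finset.mem_filter] at hq
      rw [mem_dset, hu]
      rcases hq with ⟨⟨h2, h3⟩, h4⟩ | ⟨h2, h3⟩
      · have h5 : q ∉ p.2 := fun h => hpF.2.1 q h ((hA q).1 h2)
        rw [h3, if_neg (by rw [Finset.mem_union]; tauto)]
        exact one_ne_zero
      · rw [if_pos (Finset.mem_union_left _ h2)]
        intro h4
        exact h3 ⟨(hA q).2 (hpF.1 q h2), h4⟩
    · exact hBx q hq
  have hext : dset x (u p) = (dset x (u p)) \ (((A.filter fun q => dig q.1 x = 1) ∆ p.1) ∪ p.2)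
      ∪ (((A.filter fun q => dig q.1 x = 1) ∆ p.1) ∪ p.2) := by
    rw [Finset.sdiff_union_of_subset hsub]
  rw [hext]
  refine mono_union hM h ?_ ?_
  · obtain ⟨q, hq⟩ := hpF.2.2
    exact ⟨q, Finset.mem_union_right _ hq⟩
  · intro q hq
    rw [Finset.mem_sdiff, Finset.mem_union, not_or] at hq
    by_contra h2
    rw [← hA] at h2
    have h3 := hq.1
    rw [mem_dset, hxV q h2, hu, if_neg ?_] at h3
    · exact h3 rfl
    · rw [Finset.mem_union, not_or]
      exact ⟨fun h => h2 ((hA q).2 (hpF.1 q h)), hq.2.2⟩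

end Pool.Agent.Cis
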