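import Pool.Agent.H.MP_1bdfda_lc.Three

/-!
The extension properties imply that a pattern is good.
-/

open scoped symmDiff

set_option linter.unusedSectionVars false

namespace Pool.Agent.Cis

namespace Pat

variable {A B : Type} [DecidableEq A] [DecidableEq B]

lemma Fac.pair_cases {P : Pat A B} (hF : P.Fac) {u v : A} {Y : Finset B} (h : P.D {u, v} Y)
    {b : B} (hb : b ∈ Y) : P.gt u b ∨ P.gt v b := by
  by_cases hJ : P.J u v
  · exact (hF.pairJ u v Y hJ).1 h b hb
  · rcases (hF.pairN u v Y hJ).1 h with h1 | h1
    · exact Or.inl (h1 b hb)
    · exact Or.inr (h1 b hb)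

theorem trip_of_ext {P : Pat A B} (hN : P.ExtN) (hD : P.ExtD) (hF : P.Fac) (hF' : P.dual.Fac) :
    P.Trip := by
  intro a c c' hcc hJ1 hJ2
  by_contra hcon
  push Not at hcon
  obtain ⟨⟨e, h1, h2, h3⟩, ⟨e', h1', h2', h3'⟩, hlast⟩ := hcon
  have hac := J_ne hJ1
  have hac' := J_ne hJ2
  have hee : e ≠ e' := by
    rintro rfl
    exact h3 h1'
  -- first part
  have first : ∀ b, P.gt a b → P.gt c b ∨ P.gt c' b := by
    intro g hg
    by_contra hcon
    push Not at hcon
    obtain ⟨g1, g2⟩ := hcon
    have hge : g ≠ e := by
      rintro rfl
      exact h2 hg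
    have hge' : g ≠ e' := by
      rintro rfl
      exact h2' hg
    by_cases hJ : P.J c c'
    · obtain ⟨Y, hY⟩ := ExtN.list (P := P.dual) hD [({e}, {a}), ({g}, {c}), ({e'}, {a, c, c'})]
        (by simp) (by
        simp only [List.pairwise_cons, List.mem_cons, List.not_mem_nil, or_false,
          forall_eq_or_imp, forall_eq, IsEmpty.forall_iff, implies_true, List.Pairwise.nil,
          and_true]
        refine ⟨⟨?_, ?_⟩, ?_⟩
        · refine P.mono (X := {a, c}) (Y := {e, g}) ?_ ?_ ((hF.pairJ a c _ hJ1).2 ?_)
          · intro x hx
            simp only [Finset.mem_symmDiff, Finset.mem_singleton, Finset.mem_insert] at hx ⊢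
            rcases hx with rfl | rfl
            · exact Or.inl ⟨rfl, hac⟩
            · exact Or.inr ⟨rfl, hac.symm⟩
          · intro x hx
            simp only [Finset.mem_symmDiff, Finset.mem_singleton, Finset.mem_insert] at hx ⊢
            tauto
          · intro x hx
            simp only [Finset.mem_singleton, Finset.mem_insert] at hx
            rcases hx with rfl | rfl
            · exact Or.inr h1
            · exact Or.inl hg
        · refine P.mono (X := {c, c'}) (Y := {e, e'}) ?_ ?_ ((hF.pairJ c c' _ hJ).2 ?_)
          · intro x hx
            simp only [Finset.mem_symmDiff, Finset.mem_singleton, Finset.mem_insert] at hx ⊢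
            rcases hx with rfl | rfl
            · exact Or.inr ⟨by simp, hac.symm⟩
            · exact Or.inr ⟨by simp, hac'.symm⟩
          · intro x hx
            simp only [Finset.mem_symmDiff, Finset.mem_singleton, Finset.mem_insert] at hx ⊢
            tauto
          · intro x hx
            simp only [Finset.mem_singleton, Finset.mem_insert] at hx
            rcases hx with rfl | rfl
            · exact Or.inl h1
            · exact Or.inr h1'
        · refine P.mono (X := {a, c'}) (Y := {g, e'}) ?_ ?_ ((hF.pairJ a c' _ hJ2).2 ?_)
          · intro x hx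
            simp only [Finset.mem_symmDiff, Finset.mem_singleton, Finset.mem_insert] at hx ⊢
            rcases hx with rfl | rfl
            · exact Or.inr ⟨by simp, hac⟩
            · exact Or.inr ⟨by simp, hcc.symm⟩
          · intro x hx
            simp only [Finset.mem_symmDiff, Finset.mem_singleton, Finset.mem_insert] at hx ⊢
            tauto
          · intro x hx
            simp only [Finset.mem_singleton, Finset.mem_insert] at hx
            rcases hx with rfl | rfl
            · exact Or.inl hg
            · exact Or.inr h1')
      have k1 : P.D {a} (Y ∆ {e}) := hY ({e}, {a}) (by simp)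
      have k2 : P.D {c} (Y ∆ {g}) := hY ({g}, {c}) (by simp)
      have k3 : P.D {a, c, c'} (Y ∆ {e'}) := hY ({e'}, {a, c, c'}) (by simp)
      rw [hF.single] at k1 k2
      have l1 : e ∈ Y := by
        by_contra h
        exact h2 (k1 e (Finset.mem_symmDiff.2 (Or.inr ⟨by simp, h⟩)))
      have l2 : g ∈ Y := by
        by_contra h
        exact g1 (k2 g (Finset.mem_symmDiff.2 (Or.inr ⟨by simp, h⟩)))
      have l3 : e' ∉ Y := by
        intro h
        exact h2' (k1 e' (Finset.mem_symmDiff.2 (Or.inl ⟨h, by simpa using hee.symm⟩)))
      obtain ⟨u, hu, v, hv, huv⟩ := cov_three hN hF hF' Finset.card_le_three k3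
      have m1 := hF.pair_cases huv (b := e)
        (Finset.mem_symmDiff.2 (Or.inl ⟨l1, by simpa using hee⟩))
      have m2 := hF.pair_cases huv (b := g)
        (Finset.mem_symmDiff.2 (Or.inl ⟨l2, by simpa using hge'⟩))
      have m3 := hF.pair_cases huv (b := e')
        (Finset.mem_symmDiff.2 (Or.inr ⟨by simp, l3⟩))
      simp only [Finset.mem_insert, Finset.mem_singleton] at hu hv
      rcases hu with rfl | rfl | rfl <;> rcases hv with rfl | rfl | rfl <;> tauto
    · obtain ⟨X, hX⟩ := hN.list [({c}, {e}), ({a, c'}, {e'}), ({a}, {g, e'}), (∅, {g, e})]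
        (by simp) (by
        simp only [List.pairwise_cons, List.mem_cons, List.not_mem_nil, or_false,
          forall_eq_or_imp, forall_eq, IsEmpty.forall_iff, implies_true, List.Pairwise.nil,
          and_true]
        refine ⟨⟨?_, ?_, ?_⟩, ⟨?_, ?_⟩, ?_⟩
        · refine P.monoN (X := {a, c, c'}) (Y := {e, e'}) ?_ ?_
            (N_of_not_D' (by simp) fun h => ?_)
          · intro x hx
            simp only [Finset.mem_symmDiff, Finset.mem_singleton, Finset.mem_insert] at hx ⊢
            tauto
          · intro x hx
            simp only [Finset.mem_symmDiff, Finset.mem_singleton, Finset.mem_insert] at hx ⊢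
            rcases hx with rfl | rfl
            · exact Or.inl ⟨rfl, hee⟩
            · exact Or.inr ⟨rfl, hee.symm⟩
          · obtain ⟨u, hu, v, hv, huv⟩ := cov_three hN hF hF' Finset.card_le_three h
            have m1 := hF.pair_cases huv (b := e) (by simp)
            have m3 := hF.pair_cases huv (b := e') (by simp)
            have m4 : ¬ P.D {c, c'} {e, e'} := by
              rw [hF.pairN c c' _ hJ]
              rintro (h4 | h4)
              · exact h3' (h4 e' (by simp))
              · exact h3 (h4 e (by simp))
            have m5 : ¬ P.D {c', c} {e, e'} := by rwa [Finset.pair_comm c' c]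
            simp only [Finset.mem_insert, Finset.mem_singleton] at hu hv
            rcases hu with rfl | rfl | rfl <;> rcases hv with rfl | rfl | rfl <;> tauto
        · refine P.monoN (X := {a, c}) (Y := {e'}) ?_ ?_
            (N_of_not_D' (by simp) fun h => ?_)
          · intro x hx
            simp only [Finset.mem_symmDiff, Finset.mem_singleton, Finset.mem_insert] at hx ⊢
            tauto
          · intro x hx
            simp only [Finset.mem_symmDiff, Finset.mem_singleton, Finset.mem_insert] at hx ⊢
            subst hx
            exact Or.inr ⟨Or.inr rfl, hee.symm⟩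
          · have := hF.pair_cases h (b := e') (by simp)
            tauto
        · refine P.monoN (X := {c}) (Y := {g}) ?_ ?_ (N_of_not_D' (by simp) g1)
          · intro x hx
            simpa [Finset.mem_symmDiff] using hx
          · intro x hx
            simp only [Finset.mem_symmDiff, Finset.mem_singleton, Finset.mem_insert] at hx ⊢
            subst hx
            exact Or.inr ⟨Or.inl rfl, hge⟩
        · refine P.monoN (X := {c'}) (Y := {g}) ?_ ?_ (N_of_not_D' (by simp) g2)
          · intro x hx
            simp only [Finset.mem_symmDiff, Finset.mem_singleton, Finset.mem_insert] at hx ⊢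
            tauto
          · intro x hx
            simp only [Finset.mem_symmDiff, Finset.mem_singleton, Finset.mem_insert] at hx ⊢
            subst hx
            exact Or.inr ⟨Or.inl rfl, hge'⟩
        · refine P.monoN (X := {a, c'}) (Y := {e}) ?_ ?_
            (N_of_not_D' (by simp) fun h => ?_)
          · intro x hx
            simpa [Finset.mem_symmDiff] using hx
          · intro x hx
            simp only [Finset.mem_symmDiff, Finset.mem_singleton, Finset.mem_insert] at hx ⊢
            subst hx
            exact Or.inr ⟨Or.inr rfl, hee⟩
          · have := hF.pair_cases h (b := e) (by simp)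
            tauto
        · refine P.monoN (X := {a}) (Y := {e}) ?_ ?_ (N_of_not_D' (by simp) h2)
          · intro x hx
            simpa [Finset.mem_symmDiff] using hx
          · intro x hx
            simp only [Finset.mem_symmDiff, Finset.mem_singleton, Finset.mem_insert] at hx ⊢
            subst hx
            refine Or.inr ⟨Or.inr rfl, ?_⟩
            rintro (h | h)
            · exact hge h.symm
            · exact hee h)
      have k1 : P.N (X ∆ {c}) {e} := hX ({c}, {e}) (by simp)
      have k2 : P.N (X ∆ {a, c'}) {e'} := hX ({a, c'}, {e'}) (by simp)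
      have k3 : P.N (X ∆ {a}) {g, e'} := hX ({a}, {g, e'}) (by simp)
      have k4 : P.N (X ∆ ∅) {g, e} := hX (∅, {g, e}) (by simp)
      have l1 : c ∈ X := by
        by_contra h
        refine P.not_D_of_N k1 (P.mono (Finset.singleton_subset_iff.2 ?_) subset_rfl h1)
        exact Finset.mem_symmDiff.2 (Or.inr ⟨by simp, h⟩)
      have l2 : c' ∈ X := by
        by_contra h
        refine P.not_D_of_N k2 (P.mono (Finset.singleton_subset_iff.2 ?_) subset_rfl h1')
        exact Finset.mem_symmDiff.2 (Or.inr ⟨by simp, h⟩)
      have l3 : a ∈ X := by
        by_contra h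
        refine P.not_D_of_N k3 (P.mono (X := {a, c'}) ?_ subset_rfl ((hF.pairJ a c' _ hJ2).2 ?_))
        · intro x hx
          simp only [Finset.mem_symmDiff, Finset.mem_singleton, Finset.mem_insert] at hx ⊢
          rcases hx with rfl | rfl
          · exact Or.inr ⟨rfl, h⟩
          · exact Or.inl ⟨l2, hac'.symm⟩
        · intro x hx
          simp only [Finset.mem_singleton, Finset.mem_insert] at hx
          rcases hx with rfl | rfl
          · exact Or.inl hg
          · exact Or.inr h1'
      refine P.not_D_of_N k4 (P.mono (X := {a, c}) ?_ subset_rfl ((hF.pairJ a c _ hJ1).2 ?_))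
      · intro x hx
        simp only [Finset.mem_symmDiff, Finset.mem_singleton, Finset.mem_insert,
          Finset.notMem_empty] at hx ⊢
        rcases hx with rfl | rfl
        · exact Or.inl ⟨l3, fun h => h⟩
        · exact Or.inl ⟨l1, fun h => h⟩
      · intro x hx
        simp only [Finset.mem_singleton, Finset.mem_insert] at hx
        rcases hx with rfl | rfl
        · exact Or.inl hg
        · exact Or.inr h1
  -- second part
  have hJ := hlast first
  have hJ1' : P.J a c := hJ1
  obtain ⟨z, _, hz1, _, _, hz2, _⟩ := hJ1
  have hz3 : P.gt c' z := (first z hz1).resolve_left hz2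
  have k1 : P.D {a, c} {e, z} := (hF.pairJ a c _ hJ1').2 (by
    intro x hx
    simp only [Finset.mem_singleton, Finset.mem_insert] at hx
    rcases hx with rfl | rfl
    · exact Or.inr h1
    · exact Or.inl hz1)
  have k2 : P.N {c, c'} {e, z} := N_of_not_D' (by simp) (by
    rw [hF.pairN c c' _ hJ]
    rintro (h | h)
    · exact hz2 (h z (by simp))
    · exact h3 (h e (by simp)))
  by_cases hJ' : P.dual.J e z
  · refine P.not_N_of_D k1 ((hF'.pairJ e z _ hJ').2 ?_)
    intro x hx
    simp only [Finset.mem_singleton, Finset.mem_insert] at hx
    rw [gt_dual, gt_dual]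
    rcases hx with rfl | rfl
    · exact Or.inl h2
    · exact Or.inr hz2
  · rcases (hF'.pairN e z _ hJ').1 k2 with h | h
    · exact (gt_dual P c e).1 (h c (by simp)) h1
    · exact (gt_dual P c' z).1 (h c' (by simp)) hz3

end Pat

end Pool.Agent.Cis
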