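import Mathlib

/-!
Patterns on two sets of digits.

A pattern says, for sets `X`, `Y` of digits of the first and of the second kind, whether two
vertices which differ exactly in the digits of `X ∪ Y` are adjacent (`D X Y`) or distinct and not
adjacent (`N X Y`).
-/

open scoped symmDiff

namespace Pool.Agent.Cis

/-- A monotone pattern on the digit sets `A` and `B`. -/
structure Pat (A B : Type) where
  D : Finset A → Finset B → Prop
  N : Finset A → Finset B → Prop
  em : ∀ X Y, (X.Nonempty ∨ Y.Nonempty) → (D X Y ↔ ¬ N X Y)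
  D0 : ∀ Y, ¬ D ∅ Y
  N0 : ∀ X, ¬ N X ∅
  mono : ∀ {X X' : Finset A} {Y Y' : Finset B}, X ⊆ X' → Y' ⊆ Y → D X Y → D X' Y'

namespace Pat

variable {A B : Type} (P : Pat A B)

lemma D_nonempty {X : Finset A} {Y : Finset B} (h : P.D X Y) : X.Nonempty := by
  rcases X.eq_empty_or_nonempty with rfl | h1
  · exact absurd h (P.D0 Y)
  · exact h1

lemma N_nonempty {X : Finset A} {Y : Finset B} (h : P.N X Y) : Y.Nonempty := by
  rcases Y.eq_empty_or_nonempty with rfl | h1
  · exact absurd h (P.N0 X)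
  · exact h1

lemma not_D_of_N {X : Finset A} {Y : Finset B} (h : P.N X Y) : ¬ P.D X Y := fun h1 =>
  (P.em X Y (Or.inl (P.D_nonempty h1))).1 h1 h

lemma not_N_of_D {X : Finset A} {Y : Finset B} (h : P.D X Y) : ¬ P.N X Y := fun h1 =>
  P.not_D_of_N h1 h

lemma N_of_not_D {X : Finset A} {Y : Finset B} (hY : Y.Nonempty) (h : ¬ P.D X Y) : P.N X Y := by
  by_contra h1
  exact h ((P.em X Y (Or.inr hY)).2 h1)

lemma D_of_not_N {X : Finset A} {Y : Finset B} (hX : X.Nonempty) (h : ¬ P.N X Y) : P.D X Y :=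
  (P.em X Y (Or.inl hX)).2 h

lemma D_empty {X : Finset A} (hX : X.Nonempty) : P.D X ∅ := P.D_of_not_N hX (P.N0 X)

lemma N_empty {Y : Finset B} (hY : Y.Nonempty) : P.N ∅ Y := P.N_of_not_D hY (P.D0 Y)

lemma monoN {X X' : Finset A} {Y Y' : Finset B} (hX : X' ⊆ X) (hY : Y ⊆ Y') (h : P.N X Y) :
    P.N X' Y' := by
  have hY' : Y'.Nonempty := (P.N_nonempty h).mono hY
  exact P.N_of_not_D hY' fun h1 => P.not_D_of_N h (P.mono hX hY h1)

/-- The complementary pattern. -/
def dual : Pat B A where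
  D := fun Y X => P.N X Y
  N := fun Y X => P.D X Y
  em := fun Y X h => by
    have := P.em X Y (h.symm)
    tauto
  D0 := P.N0
  N0 := P.D0
  mono := fun hY hX h => P.monoN hX hY h

@[simp] lemma dual_dual : P.dual.dual = P := rfl

/-- The digit `a` beats the digit `b`. -/
def gt (a : A) (b : B) : Prop := P.D {a} {b}

section
variable [DecidableEq A] [DecidableEq B]

/-- The digits `a` and `c` are joined: together they beat a pair of digits, one of which is beaten
by `a` only and the other one by `c` only. -/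
def J (a c : A) : Prop :=
  ∃ b d, P.gt a b ∧ ¬ P.gt a d ∧ P.gt c d ∧ ¬ P.gt c b ∧ P.D {a, c} {b, d}

/-- The formula in terms of single digits and joined pairs. -/
def Form (X : Finset A) (Y : Finset B) : Prop :=
  (∃ a ∈ X, ∀ b ∈ Y, P.gt a b) ∨
    ∃ a ∈ X, ∃ c ∈ X, P.J a c ∧ ∀ b ∈ Y, P.gt a b ∨ P.gt c b

/-- The condition on two joined pairs with a common digit. -/
def Trip : Prop :=
  ∀ a c c', c ≠ c' → P.J a c → P.J a c' →
    (∀ b, P.gt c b → P.gt a b ∨ P.gt c' b) ∨ (∀ b, P.gt c' b → P.gt a b ∨ P.gt c b) ∨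
      ((∀ b, P.gt a b → P.gt c b ∨ P.gt c' b) ∧ P.J c c')

/-- Good patterns (one half of the conditions). -/
def Good : Prop := (∀ X Y, P.D X Y ↔ P.Form X Y) ∧ P.Trip

/-- Every stable set of vertices with digits `0` and `1` which does not meet the column `0` can be
extended by a vertex of the column `0`. -/
def ExtN : Prop :=
  ∀ F : Finset (Finset A × Finset B), (∀ p ∈ F, p.2.Nonempty) →
    (∀ p ∈ F, ∀ q ∈ F, p ≠ q → P.N (p.1 ∆ q.1) (p.2 ∆ q.2)) →
    ∃ X : Finset A, ∀ p ∈ F, P.N (X ∆ p.1) p.2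

/-- The dual property for cliques. -/
def ExtD : Prop := P.dual.ExtN

end

/-- The set of digits in which two vertices differ. -/
def diffs {A : Type} [Fintype A] {VA : A → Type} [∀ a, DecidableEq (VA a)] (x x' : ∀ a, VA a) :
    Finset A := Finset.univ.filter fun a => x a ≠ x' a

end Pat

end Pool.Agent.Cis
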