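import Pool.Agent.H.MP_1bdfda_lc.Cyl
import Pool.Agent.H.MP_1bdfda_lc.Tij
import Pool.Agent.H.MP_1bdfda_lc.DefsE

/-!
Multiplication by powers of a prime keeps non adjacency (adjacency) for elements whose top level
has the first (second) type.
-/

namespace Pool.Agent.Cis

set_option linter.unusedSectionVars false

open SimpleGraph

variable {n : ℕ} [NeZero n]

/-! ### the complementary graph -/

lemma conn_co {D : Set (ZMod n)} (hD : Conn D) : Conn (co D) := by
  refine ⟨fun h => h.1 rfl, fun d hd => ⟨neg_ne_zero.2 hd.1, fun h => hd.2 ?_⟩⟩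
  have := hD.2 _ h
  rwa [neg_neg] at this

lemma co_co {D : Set (ZMod n)} (h0 : 0 ∉ D) : co (co D) = D := by
  ext x
  unfold co
  simp only [Set.mem_ofPred_eq, not_and, not_not]
  constructor
  · rintro ⟨h1, h2⟩
    exact h2 h1
  · intro h
    exact ⟨fun h1 => h0 (h1 ▸ h), fun _ => h⟩

lemma mem_co_sub {D : Set (ZMod n)} {x y : ZMod n} (hxy : x ≠ y) : x - y ∈ co D ↔ x - y ∉ D := by
  unfold co
  simp only [Set.mem_ofPred_eq]
  exact ⟨fun h => h.2, fun h => ⟨sub_ne_zero.2 hxy, h⟩⟩

lemma indep_co {D : Set (ZMod n)} (hD : Conn D) (U : Set (ZMod n)) :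
    (circulantGraph (co D)).IsIndepSet U ↔ (circulantGraph D).IsClique U := by
  rw [indep_iff (conn_co hD), clique_iff hD]
  refine forall₂_congr fun x _ => forall₂_congr fun y _ => imp_congr_right fun h => ?_
  rw [mem_co_sub h, not_not]

lemma clique_co {D : Set (ZMod n)} (hD : Conn D) (U : Set (ZMod n)) :
    (circulantGraph (co D)).IsClique U ↔ (circulantGraph D).IsIndepSet U := by
  rw [clique_iff (conn_co hD), indep_iff hD]
  refine forall₂_congr fun x _ => forall₂_congr fun y _ => imp_congr_right fun h => ?_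
  rw [mem_co_sub h]

lemma indep_co' {D : Set (ZMod n)} (hD : Conn D) :
    (circulantGraph (co D)).IsIndepSet = (circulantGraph D).IsClique := by
  funext U
  exact propext (indep_co hD U)

lemma clique_co' {D : Set (ZMod n)} (hD : Conn D) :
    (circulantGraph (co D)).IsClique = (circulantGraph D).IsIndepSet := by
  funext U
  exact propext (clique_co hD U)

lemma cis_co {D : Set (ZMod n)} (hD : Conn D) (hG : IsCIS (circulantGraph D)) :
    IsCIS (circulantGraph (co D)) := by
  intro C S hC hS
  rw [clique_co' hD] at hC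
  rw [indep_co' hD] at hS
  rw [Set.inter_comm]
  exact hG S C hS hC

lemma gcdClosed_co {D : Set (ZMod n)} (hc : GcdClosed D) : GcdClosed (co D) := by
  intro x y h
  unfold co
  simp only [Set.mem_ofPred_eq]
  rw [hc x y h]
  have : x = 0 ↔ y = 0 := by
    rw [← ZMod.val_eq_zero, ← ZMod.val_eq_zero]
    have hx := ZMod.val_lt x
    have hy := ZMod.val_lt y
    constructor
    · intro h1
      rw [h1, Nat.gcd_zero_left] at h
      by_contra h2
      have := Nat.gcd_le_left n (Nat.pos_of_ne_zero h2)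
      omega
    · intro h1
      rw [h1, Nat.gcd_zero_left] at h
      by_contra h2
      have := Nat.gcd_le_left n (Nat.pos_of_ne_zero h2)
      omega
  rw [Ne, Ne, this]

theorem ft_co {D : Set (ZMod n)} (hc : GcdClosed D) {S : Finset (Lv n)} (hS : S.Nonempty) :
    ft (co D) S ↔ ¬ ft D S := by
  obtain ⟨z, hz, _⟩ := exists_elt S
  have hz0 : z ≠ 0 := by
    rintro rfl
    rw [dset_empty_iff.2 rfl] at hz
    exact absurd hz.symm hS.ne_empty
  rw [← hz, ← mem_iff_ft (gcdClosed_co hc), ← mem_iff_ft hc, mem_co_sub hz0]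

/-! ### divisibility by the levels -/

lemma dvd_iff_zero (q : Lv n) (x : ZMod n) :
    q.1 ∣ x.val ↔ ∀ q' : Lv n, q'.1 ∣ q.1 → dig q'.1 x = 0 := by
  have := dvd_iff_dig q x 0
  rw [sub_zero] at this
  rw [this]
  refine forall_congr' fun q' => imp_congr_right fun _ => ?_
  rw [dig_zero]

lemma eq_zero_iff_levels (x : ZMod n) : x = 0 ↔ ∀ q : Lv n, q.1 ∣ x.val := by
  constructor
  · rintro rfl q
    simp
  · intro h
    refine eq_of_dig fun q => ?_
    rw [dig_zero]
    exact (dvd_iff_zero q x).1 (h q) q dvd_rfl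

lemma prime_of_dvd_level {p : ℕ} (hp : p.Prime) {q : Lv n} (h : p ∣ q.1) :
    ∃ j, q.1 = p ^ (j + 1) := by
  obtain ⟨p', j, hp', hq⟩ := level_form q
  have : p = p' := by
    rw [hq] at h
    exact (Nat.prime_dvd_prime_iff_eq hp hp').1 (hp.dvd_of_dvd_pow h)
  subst this
  exact ⟨j, hq⟩

lemma coprime_of_not_dvd {p : ℕ} (hp : p.Prime) {q : Lv n} (h : ¬ p ∣ q.1) (k : ℕ) :
    Nat.Coprime q.1 (p ^ k) :=
  ((Nat.Prime.coprime_iff_not_dvd hp).2 h).symm.pow_right k

/-- the levels dividing a multiple -/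
lemma level_dvd_mul_congr {z z' : ZMod n} (h : ∀ q : Lv n, q.1 ∣ z.val ↔ q.1 ∣ z'.val) (k : ℕ)
    (q : Lv n) : q.1 ∣ ((k : ZMod n) * z).val ↔ q.1 ∣ ((k : ZMod n) * z').val := by
  rw [dvd_val_mul (level_dvd q), dvd_val_mul (level_dvd q)]
  have hg := gcd_eq_of_levels h
  have key : ∀ a b : ℕ, Nat.gcd a n = Nat.gcd b n → q.1 ∣ k * a → q.1 ∣ k * b := by
    intro a b hab h1
    have h2 : q.1 ∣ k * Nat.gcd a n := by
      rw [← Nat.gcd_mul_left]
      exact Nat.dvd_gcd h1 ((level_dvd q).mul_left k)
    rw [hab] at h2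
    exact h2.trans (Nat.mul_dvd_mul_left k (Nat.gcd_dvd_left b n))
  exact ⟨key _ _ hg, key _ _ hg.symm⟩

/-- the statement on the multiples by powers of `p` for elements of valuation `j` -/
def MMat (D : Set (ZMod n)) (p j : ℕ) : Prop :=
  ∀ z : ZMod n, p ^ j ∣ z.val → ¬ p ^ (j + 1) ∣ z.val → z ∉ D →
    ∀ k : ℕ, ((p ^ k : ℕ) : ZMod n) * z ∉ D ∧ ((p ^ k : ℕ) : ZMod n) * z ≠ 0

/-- the levels of `p` of the second type -/
noncomputable def Blev (D : Set (ZMod n)) (p : ℕ) : Finset (Lv n) :=
  open Classical in Finset.univ.filter fun r => p ∣ r.1 ∧ ¬ ft D {r}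

lemma mem_Blev {D : Set (ZMod n)} {p : ℕ} {r : Lv n} : r ∈ Blev D p ↔ p ∣ r.1 ∧ ¬ ft D {r} := by
  classical
  simp [Blev]

lemma Blev_ft {D : Set (ZMod n)} (hc : GcdClosed D) {p : ℕ} (hp : p.Prime) :
    ∀ S ⊆ Blev D p, S.Nonempty → ¬ ft D S := by
  intro S hS hSn
  obtain ⟨b, hb, hmin⟩ := Finset.exists_min_image S (fun r => r.1) hSn
  have hb1 := mem_Blev.1 (hS hb)
  have : ft D S ↔ ft D {b} := by
    refine ft_congr hc fun q => ?_
    constructor
    · intro h q' hq' hq''
      rw [Finset.mem_singleton] at hq''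
      subst hq''
      exact h q' hq' hb
    · intro h q' hq' hq''
      have h1 := hmin q' hq''
      obtain ⟨i, hi⟩ := prime_of_dvd_level hp (mem_Blev.1 (hS hq'')).1
      obtain ⟨j, hj⟩ := prime_of_dvd_level hp hb1.1
      rw [hi, hj, Nat.pow_le_pow_iff_right hp.one_lt] at h1
      refine h b ?_ (Finset.mem_singleton_self b)
      refine (?_ : b.1 ∣ q'.1).trans hq'
      rw [hi, hj]
      exact pow_dvd_pow p h1
  rw [this]
  exact hb1.2

/-- the power of `p` in the cardinality of a reduced cylinder -/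
lemma not_dvd_card_redS {D : Set (ZMod n)} (hD : Conn D) (hG : IsCIS (circulantGraph D))
    {p : ℕ} (hp : p.Prime) {M : Finset (ZMod n)} (hcyl : IsCyl (Blev D p) M)
    (hM : Maximal (circulantGraph D).IsIndepSet (M : Set (ZMod n))) :
    ¬ p ∣ (redS (Blev D p) M).card := by
  classical
  have hc := gcdClosed_of_cis hD hG
  -- a maximal clique which is a cylinder
  set U : Finset (ZMod n) := Finset.univ.filter fun x => dset x 0 ⊆ Blev (co D) p with hU
  have hUm : ∀ x, x ∈ U ↔ dset x 0 ⊆ Blev (co D) p := by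
    intro x
    rw [hU]
    simp
  have hft := Blev_ft (gcdClosed_co hc) hp (D := co D)
  obtain ⟨C, hUC, hCc, hC⟩ := cyl_max (conn_co hD) (gcdClosed_co hc) hft (U := U) (by
    rw [indep_iff (conn_co hD)]
    intro x hx y hy hxy
    rw [Finset.mem_coe, hUm] at hx hy
    rw [mem_iff_ft (gcdClosed_co hc)]
    refine hft _ ?_ ?_
    · have h1 := dset_trans x 0 y
      rw [dset_comm 0 y] at h1
      exact h1.trans (Finset.union_subset hx hy)
    · rw [Finset.nonempty_iff_ne_empty]
      intro h
      exact hxy (dset_empty_iff.1 h)) (by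
    intro x hx y hy
    rw [hUm] at hx ⊢
    have h1 := dset_trans y x 0
    rw [dset_comm y x] at h1
    exact h1.trans (Finset.union_subset hy hx))
  rw [indep_co' hD] at hC
  have hT := tiling_of_cis hD hG hC hM
  have hcard := hT.1
  rw [Finset.card_image_of_injective _ neg_injective, card_cyl hCc, card_cyl hcyl, card_VS,
    card_VS] at hcard
  intro hdvd
  obtain ⟨t, ht⟩ := hdvd
  -- the product over all levels of `p`
  have hprod : (∏ q ∈ Blev (co D) p, q.1.minFac) * ∏ q ∈ Blev D p, q.1.minFac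
      = p ^ (n.factorization p) := by
    rw [← Finset.prod_union]
    · have hU2 : Blev (co D) p ∪ Blev D p = Finset.univ.filter fun r : Lv n => p ∣ r.1 := by
        ext r
        rw [Finset.mem_union, mem_Blev, mem_Blev, ft_co hc (Finset.singleton_nonempty r)]
        simp only [Finset.mem_filter, Finset.mem_univ, true_and]
        tauto
      rw [hU2]
      have h1 : ∀ r ∈ Finset.univ.filter (fun r : Lv n => p ∣ r.1), r.1.minFac = p := by
        intro r hr
        rw [Finset.mem_filter] at hr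
        obtain ⟨j, hj⟩ := prime_of_dvd_level hp hr.2
        rw [hj, hp.pow_minFac (Nat.succ_ne_zero j)]
      rw [Finset.prod_congr rfl h1, Finset.prod_const]
      congr 1
      symm
      rw [← Finset.card_range (n.factorization p)]
      refine Finset.card_bij (fun i hi => ⟨p ^ (i + 1), mem_levels hp ?_⟩) ?_ ?_ ?_
      · rw [hp.pow_dvd_iff_le_factorization (NeZero.ne n)]
        exact Finset.mem_range.1 hi
      · intro i hi
        simp only [Finset.mem_filter, Finset.mem_univ, true_and]
        exact dvd_pow_self p (Nat.succ_ne_zero i)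
      · intro i hi i' hi' h
        have h2 := congrArg Subtype.val h
        simp only at h2
        have := Nat.pow_right_injective hp.two_le h2
        omega
      · intro r hr
        rw [Finset.mem_filter] at hr
        obtain ⟨j, hj⟩ := prime_of_dvd_level hp hr.2
        refine ⟨j, ?_, Subtype.ext hj.symm⟩
        rw [Finset.mem_range]
        have h2 := level_dvd r
        rw [hj, hp.pow_dvd_iff_le_factorization (NeZero.ne n)] at h2
        exact h2
    · rw [Finset.disjoint_left]
      intro r h1 h2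
      rw [mem_Blev, ft_co hc (Finset.singleton_nonempty r)] at h1
      exact h1.2 (mem_Blev.1 h2).2
  have h3 : p ^ (n.factorization p + 1) ∣ n := by
    rw [pow_succ]
    refine ⟨(redS (Blev (co D) p) C).card * t, ?_⟩
    rw [← hprod]
    rw [ht] at hcard
    refine hcard.symm.trans ?_
    ring
  exact Nat.pow_succ_factorization_not_dvd (NeZero.ne n) hp h3

end Pool.Agent.Cis
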