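import Pool.Agent.H.MP_1bdfda_lc.Shift

/-!
The shift theorem.
-/

namespace Pool.Agent.Cis

set_option linter.unusedSectionVars false

open SimpleGraph

variable {n : ℕ} [NeZero n]

/-- the multiples of the reduced cylinder tile with the rest -/
lemma tiling_chain {D : Set (ZMod n)} (hD : Conn D) (hG : IsCIS (circulantGraph D))
    {p : ℕ} (hp : p.Prime) {P : Finset (Lv n)} {M : Finset (ZMod n)} (hcyl : IsCyl P M)
    (hM : Maximal (circulantGraph D).IsIndepSet (M : Set (ZMod n)))
    (h0 : (0 : ZMod n) ∈ redS P M) (hnd : ¬ p ∣ (redS P M).card) {C : Finset (ZMod n)}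
    (hC : Maximal (circulantGraph D).IsClique (C : Set (ZMod n))) (k : ℕ) :
    Tiling (((redS P M).image fun s => -s).image fun x => ((p ^ k : ℕ) : ZMod n) * x)
      ((C ×ˢ VS P).image fun x => x.1 - x.2) ∧
      (((redS P M).image fun s => -s).image fun x => ((p ^ k : ℕ) : ZMod n) * x).card
        = ((redS P M).image fun s => -s).card := by
  classical
  induction k with
  | zero =>
    have e : (((redS P M).image fun s => -s).image fun x => ((p ^ 0 : ℕ) : ZMod n) * x)
        = (redS P M).image fun s => -s := by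
      simp
    rw [e]
    refine ⟨?_, rfl⟩
    have hT := tiling_of_cis hD hG hC hM
    have hmem : ∀ v ∈ VS P, ∀ m ∈ redS P M, -(v + m) ∈ M.image fun s => -s := by
      intro v hv m hm
      exact Finset.mem_image.2 ⟨v + m, (mem_cyl_iff hcyl _).2 ⟨v, hv, m, hm, rfl⟩, rfl⟩
    have key : ∀ c ∈ C, ∀ c' ∈ C, ∀ v ∈ VS P, ∀ v' ∈ VS P, ∀ m ∈ redS P M, ∀ m' ∈ redS P M,
        c + -(v + m) = c' + -(v' + m') → c = c' ∧ v = v' ∧ m = m' := by
      intro c hc c' hc' v hv v' hv' m hm m' hm' h
      have h1 := hT.2 c hc c' hc' _ (hmem v hv m hm) _ (hmem v' hv' m' hm') h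
      have h2 := VS_add_inj hv (mem_redS.1 hm).2 hv' (mem_redS.1 hm').2 (neg_injective h1.2)
      exact ⟨h1.1, h2.1, h2.2⟩
    have hcardT : ((C ×ˢ VS P).image fun x => x.1 - x.2).card = C.card * (VS P).card := by
      rw [Finset.card_image_of_injOn, Finset.card_product]
      intro x hx y hy hxy
      rw [Finset.mem_coe, Finset.mem_product] at hx hy
      simp only at hxy
      have h1 := key x.1 hx.1 y.1 hy.1 x.2 hx.2 y.2 hy.2 0 h0 0 h0 (by
        rw [add_zero, add_zero, ← sub_eq_add_neg, ← sub_eq_add_neg, hxy])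
      exact Prod.ext h1.1 h1.2.1
    constructor
    · rw [hcardT, Finset.card_image_of_injective _ neg_injective]
      have h1 := hT.1
      rw [Finset.card_image_of_injective _ neg_injective, card_cyl hcyl] at h1
      refine Eq.trans ?_ h1
      ring
    · intro a ha a' ha' t ht t' ht' h
      obtain ⟨m, hm, rfl⟩ := Finset.mem_image.1 ha
      obtain ⟨m', hm', rfl⟩ := Finset.mem_image.1 ha'
      obtain ⟨x, hx, rfl⟩ := Finset.mem_image.1 ht
      obtain ⟨y, hy, rfl⟩ := Finset.mem_image.1 ht'
      rw [Finset.mem_product] at hx hy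
      have h1 := key x.1 hx.1 y.1 hy.1 x.2 hx.2 y.2 hy.2 m hm m' hm' (by
        rw [neg_add, neg_add]
        calc x.1 + (-x.2 + -m) = -m + (x.1 - x.2) := by ring
          _ = -m' + (y.1 - y.2) := h
          _ = y.1 + (-y.2 + -m') := by ring)
      rw [h1.1, h1.2.1, h1.2.2]
      exact ⟨rfl, rfl⟩
  | succ k ih =>
    have hk := tiling_smul ih.1 hp (by
      rw [ih.2, Finset.card_image_of_injective _ neg_injective]
      exact hnd)
    have e : ((((redS P M).image fun s => -s).image fun x => ((p ^ k : ℕ) : ZMod n) * x).image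
        fun c => (p : ZMod n) * c)
        = ((redS P M).image fun s => -s).image fun x => ((p ^ (k + 1) : ℕ) : ZMod n) * x := by
      rw [Finset.image_image]
      refine Finset.image_congr fun x _ => ?_
      simp only [Function.comp]
      push_cast
      ring
    rw [e] at hk
    exact ⟨hk.1, hk.2.trans ih.2⟩

/-- the shift for an element of the reduced cylinder -/
lemma shift_of_cyl {D : Set (ZMod n)} (hD : Conn D) (hG : IsCIS (circulantGraph D))
    {p : ℕ} (hp : p.Prime) {P : Finset (Lv n)} {M : Finset (ZMod n)} (hcyl : IsCyl P M)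
    (hM : Maximal (circulantGraph D).IsIndepSet (M : Set (ZMod n)))
    (h0 : (0 : ZMod n) ∈ redS P M) (hnd : ¬ p ∣ (redS P M).card) {z : ZMod n}
    (hz : z ∈ redS P M) (hz0 : z ≠ 0) (k : ℕ) :
    ((p ^ k : ℕ) : ZMod n) * z ∉ D ∧ ((p ^ k : ℕ) : ZMod n) * z ≠ 0 := by
  classical
  have hV0 : (0 : ZMod n) ∈ VS P := mem_VS.2 fun q _ => dig_zero q.1
  have hne : ((p ^ k : ℕ) : ZMod n) * z ≠ 0 := by
    intro h
    -- some maximal clique
    obtain ⟨C, _, hC⟩ := Finite.exists_le_maximal
      (p := fun C : Finset (ZMod n) => (circulantGraph D).IsClique (C : Set (ZMod n)))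
      (a := ∅) (by simp)
    have hC' : Maximal (circulantGraph D).IsClique (C : Set (ZMod n)) := by
      refine ⟨hC.prop, fun T hT hCT => ?_⟩
      have h1 := hC.le_of_ge (y := T.toFinset) (by simpa using hT) (by
        intro x hx
        rw [Set.mem_toFinset]
        exact hCT hx)
      intro x hx
      exact h1 (Set.mem_toFinset.2 hx)
    have h1 := (tiling_chain hD hG hp hcyl hM h0 hnd hC' k).2
    rw [Finset.card_image_iff] at h1
    have h2 := h1 (x₁ := -0) (x₂ := -z) (Finset.mem_coe.2 (Finset.mem_image.2 ⟨0, h0, rfl⟩))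
      (Finset.mem_coe.2 (Finset.mem_image.2 ⟨z, hz, rfl⟩)) (by
        simp only [neg_zero, mul_zero, mul_neg]
        rw [h, neg_zero])
    exact hz0 (neg_injective h2).symm
  refine ⟨fun hw => ?_, hne⟩
  set w := ((p ^ k : ℕ) : ZMod n) * z with hwdef
  obtain ⟨C, hwC, hC⟩ := Finite.exists_le_maximal
    (p := fun C : Finset (ZMod n) => (circulantGraph D).IsClique (C : Set (ZMod n)))
    (a := {0, w}) (by
      rw [clique_iff hD]
      intro x hx y hy hxy
      simp only [Finset.coe_insert, Finset.coe_singleton, Set.mem_insert_iff,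
        Set.mem_singleton_iff] at hx hy
      rcases hx with rfl | rfl <;> rcases hy with rfl | rfl
      · exact absurd rfl hxy
      · rw [zero_sub]; exact hD.2 _ hw
      · rw [sub_zero]; exact hw
      · exact absurd rfl hxy)
  have hC' : Maximal (circulantGraph D).IsClique (C : Set (ZMod n)) := by
    refine ⟨hC.prop, fun T hT hCT => ?_⟩
    have h1 := hC.le_of_ge (y := T.toFinset) (by simpa using hT) (by
      intro x hx
      rw [Set.mem_toFinset]
      exact hCT hx)
    intro x hx
    exact h1 (Set.mem_toFinset.2 hx)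
  have h1 := (tiling_chain hD hG hp hcyl hM h0 hnd hC' k).1.2
  have h2 := h1 (-w) (Finset.mem_image.2 ⟨-z, Finset.mem_image.2 ⟨z, hz, rfl⟩, by
      rw [hwdef, mul_neg]⟩)
    0 (Finset.mem_image.2 ⟨-0, Finset.mem_image.2 ⟨0, h0, rfl⟩, by simp⟩)
    w (Finset.mem_image.2 ⟨(w, 0), Finset.mem_product.2 ⟨hwC (by simp), hV0⟩, by simp⟩)
    0 (Finset.mem_image.2 ⟨(0, 0), Finset.mem_product.2 ⟨hwC (by simp), hV0⟩, by simp⟩)
    (by simp)
  exact hne (neg_eq_zero.1 h2.1)

/-- the induction step -/
theorem mm_step {D : Set (ZMod n)} (hD : Conn D) (hG : IsCIS (circulantGraph D))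
    {p j : ℕ} (hp : p.Prime) {q : Lv n} (hq : q.1 = p ^ (j + 1)) (hqA : ft D {q})
    (ih : ∀ j' < j, ∀ q' : Lv n, q'.1 = p ^ (j' + 1) → ¬ ft D {q'} → MMat (co D) p j') :
    MMat D p j := by
  classical
  have hc := gcdClosed_of_cis hD hG
  intro z hz1 hz2 hzD
  -- valuations
  have hlow : ∀ x : ZMod n, p ^ j ∣ x.val → ∀ r : Lv n, r.1 ∣ q.1 → r ≠ q → dig r.1 x = 0 := by
    intro x hx r hr hrq
    have hpr : p ∣ r.1 := by
      obtain ⟨p', i, hp', hr'⟩ := level_form r
      have h1 : p' ∣ p ^ (j + 1) := by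
        rw [← hq]
        exact (dvd_pow_self p' (Nat.succ_ne_zero i)).trans (hr' ▸ hr)
      have h2 := (Nat.prime_dvd_prime_iff_eq hp' hp).1 (hp'.dvd_of_dvd_pow h1)
      rw [hr', h2]
      exact dvd_pow_self p (Nat.succ_ne_zero i)
    obtain ⟨i, hi⟩ := prime_of_dvd_level hp hpr
    have hij : i + 1 ≤ j := by
      rw [hi, hq, Nat.pow_dvd_pow_iff_le_right hp.one_lt] at hr
      have : i ≠ j := by
        rintro rfl
        exact hrq (Subtype.ext (hi.trans hq.symm))
      omega
    have h1 : r.1 ∣ x.val := by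
      rw [hi]
      exact (pow_dvd_pow p hij).trans hx
    exact (dvd_iff_zero r x).1 h1 r dvd_rfl
  have hqz : dig q.1 z ≠ 0 := by
    intro h
    apply hz2
    rw [← hq, dvd_iff_zero]
    intro r hr
    by_cases hrq : r = q
    · rw [hrq]; exact h
    · exact hlow z hz1 r hr hrq
  -- the modified element
  obtain ⟨z', hz'⟩ := exists_dig (n := n) (fun r => if p ∣ r.1 ∧ r ≠ q then 0 else dig r.1 z) (by
    intro r
    have h1 := two_le_minFac r
    have h2 := dig_lt r z
    split_ifs <;> omega)
  -- levels of `p` dividing an element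
  have hlevel_p : ∀ x : ZMod n, (∀ r : Lv n, r.1 ∣ q.1 → r ≠ q → dig r.1 x = 0) →
      dig q.1 x ≠ 0 → ∀ r : Lv n, p ∣ r.1 → (r.1 ∣ x.val ↔ ¬ q.1 ∣ r.1) := by
    intro x hx1 hx2 r hr
    obtain ⟨i, hi⟩ := prime_of_dvd_level hp hr
    rw [dvd_iff_zero]
    constructor
    · intro h1 h2
      exact hx2 (h1 q h2)
    · intro h1 r' hr'
      rw [hi, hq, Nat.pow_dvd_pow_iff_le_right hp.one_lt] at h1
      have h2 : r'.1 ∣ q.1 := by
        refine hr'.trans ?_
        rw [hi, hq]
        exact pow_dvd_pow p (by omega)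
      refine hx1 r' h2 ?_
      rintro rfl
      rw [hi, hq, Nat.pow_dvd_pow_iff_le_right hp.one_lt] at hr'
      omega
  have hz'low : ∀ r : Lv n, r.1 ∣ q.1 → r ≠ q → dig r.1 z' = 0 := by
    intro r hr hrq
    rw [hz']
    split_ifs with h
    · rfl
    · exact hlow z hz1 r hr hrq
  have hz'q : dig q.1 z' ≠ 0 := by
    rw [hz', if_neg (by simp)]
    exact hqz
  have hlev : ∀ r : Lv n, r.1 ∣ z.val ↔ r.1 ∣ z'.val := by
    intro r
    by_cases hr : p ∣ r.1
    · rw [hlevel_p z (hlow z hz1) hqz r hr, hlevel_p z' hz'low hz'q r hr]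
    · rw [dvd_iff_zero, dvd_iff_zero]
      refine forall_congr' fun r' => imp_congr_right fun hr' => ?_
      rw [hz', if_neg (fun h => hr (h.1.trans hr'))]
  have hz'D : z' ∉ D := by
    rwa [← mem_congr hc hlev]
  -- the cylinder generated by `0` and `z'`
  set P := Blev D p with hP
  have hPft := Blev_ft hc hp
  have hz'P : ∀ r ∈ P, dig r.1 z' = 0 := by
    intro r hr
    rw [hP, mem_Blev] at hr
    have hrq : r ≠ q := by
      rintro rfl
      exact hr.2 hqA
    rw [hz', if_pos ⟨hr.1, hrq⟩]
  set U : Finset (ZMod n) := Finset.univ.filter fun x => dset x 0 ⊆ P ∨ dset x z' ⊆ P with hU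
  have hUm : ∀ x, x ∈ U ↔ dset x 0 ⊆ P ∨ dset x z' ⊆ P := by
    intro x
    rw [hU]
    simp
  have hcyl : IsCyl P U := by
    intro x hx y hy
    rw [hUm] at hx ⊢
    rw [dset_comm] at hy
    rcases hx with hx | hx
    · exact Or.inl ((dset_trans y x 0).trans (Finset.union_subset hy hx))
    · exact Or.inr ((dset_trans y x z').trans (Finset.union_subset hy hx))
  -- the crucial claim
  have hcross : ∀ x y : ZMod n, dset x 0 ⊆ P → dset y z' ⊆ P → y - x ∉ D := by
    intro x y hx hy hw
    set w := y - x with hwdef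
    have hout : ∀ r : Lv n, r ∉ P → (r ∈ dset y x ↔ dig r.1 z' ≠ 0) := by
      intro r hr
      have h1 : dig r.1 x = 0 := by
        by_contra h
        apply hr
        apply hx
        rw [mem_dset, dig_zero]
        exact h
      have h2 : dig r.1 y = dig r.1 z' := by
        by_contra h
        exact hr (hy (mem_dset.2 h))
      rw [mem_dset, h1, h2]
    have hqP : q ∉ P := by
      rw [hP, mem_Blev]
      exact fun h => h.2 hqA
    have hqd : q ∈ dset y x := (hout q hqP).2 hz'q
    have hcop : ∀ r : Lv n, ¬ p ∣ r.1 → (r.1 ∣ w.val ↔ r.1 ∣ z'.val) := by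
      intro r hr
      rw [hwdef, dvd_iff_dset, dvd_iff_zero]
      refine forall_congr' fun r' => imp_congr_right fun hr' => ?_
      have : r' ∉ P := by
        rw [hP, mem_Blev]
        exact fun h => hr (h.1.trans hr')
      rw [hout r' this, not_not]
    by_cases hb : ∃ b : Lv n, b ∈ P ∧ b.1 ∣ q.1 ∧ b ∈ dset y x
    · -- the topmost such level
      obtain ⟨b, hb, hmin⟩ := Finset.exists_min_image
        (Finset.univ.filter fun b : Lv n => b ∈ P ∧ b.1 ∣ q.1 ∧ b ∈ dset y x) (fun r => r.1) (by
          obtain ⟨b, hb⟩ := hb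
          exact ⟨b, by simpa using hb⟩)
      simp only [Finset.mem_filter, Finset.mem_univ, true_and] at hb hmin
      obtain ⟨hbP, hbq, hbd⟩ := hb
      have hbB := (mem_Blev.1 (hP ▸ hbP))
      obtain ⟨j', hj'⟩ := prime_of_dvd_level hp hbB.1
      have hj'j : j' < j := by
        have h1 := hbq
        rw [hj', hq, Nat.pow_dvd_pow_iff_le_right hp.one_lt] at h1
        have : j' ≠ j := by
          rintro rfl
          have : b = q := Subtype.ext (hj'.trans hq.symm)
          exact hqP (this ▸ hbP)
        omega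
      have hlevw : ∀ r : Lv n, r.1 ∣ b.1 → r ≠ b → r ∉ dset y x := by
        intro r hr hrb h
        have hrq : r.1 ∣ q.1 := hr.trans hbq
        have hrne : r ≠ q := by
          rintro rfl
          have := Nat.le_of_dvd (by rw [hj']; exact pow_pos hp.pos _) hr
          rw [hj', hq, Nat.pow_le_pow_iff_right hp.one_lt] at this
          omega
        by_cases hrP : r ∈ P
        · have h1 := hmin r ⟨hrP, hrq, h⟩
          have h2 := Nat.le_of_dvd (by rw [hj']; exact pow_pos hp.pos _) hr
          exact hrb (Subtype.ext (le_antisymm h2 h1))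
        · rw [hout r hrP] at h
          exact h (hz'low r hrq hrne)
      have hwp : ∀ i, p ^ (i + 1) ∣ n → (p ^ (i + 1) ∣ w.val ↔ i + 1 ≤ j') := by
        intro i hi
        have h1 := dvd_iff_dset ⟨p ^ (i + 1), mem_levels hp hi⟩ y x
        simp only at h1
        rw [hwdef, h1]
        constructor
        · intro h
          by_contra h2
          refine h b ?_ hbd
          rw [hj']
          exact pow_dvd_pow p (by omega)
        · intro h r hr
          refine hlevw r ?_ ?_
          · rw [hj']
            exact hr.trans (pow_dvd_pow p (by omega))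
          · rintro rfl
            rw [hj', Nat.pow_dvd_pow_iff_le_right hp.one_lt] at hr
            omega
      have hw1 : p ^ j' ∣ w.val := by
        rcases j' with - | i
        · simp
        · refine (hwp i ?_).2 le_rfl
          refine (?_ : p ^ (i + 1) ∣ b.1).trans (level_dvd b)
          rw [hj']
          exact pow_dvd_pow p (by omega)
      have hw2 : ¬ p ^ (j' + 1) ∣ w.val := by
        rw [hwp j' (hj' ▸ level_dvd b)]
        omega
      have h3 := ih j' hj'j b hj' hbB.2 w hw1 hw2 (fun h => h.2 hw) (j - j')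
      have h4 : ((p ^ (j - j') : ℕ) : ZMod n) * w ∈ D := by
        by_contra h5
        exact h3.1 ⟨h3.2, h5⟩
      refine hz'D ((mem_congr hc fun r => ?_).1 h4)
      rw [dvd_val_mul (level_dvd r)]
      by_cases hr : p ∣ r.1
      · rw [hlevel_p z' hz'low hz'q r hr]
        obtain ⟨i, hi⟩ := prime_of_dvd_level hp hr
        have hin : p ^ (i + 1) ∣ n := hi ▸ level_dvd r
        rw [hi, hq, Nat.pow_dvd_pow_iff_le_right hp.one_lt]
        rcases Nat.lt_or_ge i (j - j') with h5 | h5
        · constructor
          · intro _; omega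
          · intro _
            exact ((pow_dvd_pow p (by omega : i + 1 ≤ j - j')).mul_right _)
        · have h6 : i + 1 = (j - j') + ((i - (j - j')) + 1) := by omega
          rw [h6, pow_add, Nat.mul_dvd_mul_iff_left (pow_pos hp.pos _), hwp _ (by
            refine (pow_dvd_pow p ?_).trans hin
            omega)]
          omega
      · rw [(coprime_of_not_dvd hp hr _).dvd_mul_left]
        exact hcop r hr
    · push Not at hb
      refine hz'D ((mem_congr hc fun r => ?_).1 hw)
      by_cases hr : p ∣ r.1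
      · rw [hlevel_p z' hz'low hz'q r hr]
        obtain ⟨i, hi⟩ := prime_of_dvd_level hp hr
        rw [hwdef, dvd_iff_dset]
        constructor
        · intro h1 h2
          exact h1 q h2 hqd
        · intro h1 r' hr' h2
          rw [hi, hq, Nat.pow_dvd_pow_iff_le_right hp.one_lt] at h1
          have h3 : r'.1 ∣ q.1 := by
            refine hr'.trans ?_
            rw [hi, hq]
            exact pow_dvd_pow p (by omega)
          have h4 : r' ≠ q := by
            rintro rfl
            rw [hi, hq, Nat.pow_dvd_pow_iff_le_right hp.one_lt] at hr'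
            omega
          by_cases h5 : r' ∈ P
          · exact hb r' h5 h3 h2
          · rw [hout r' h5] at h2
            exact h2 (hz'low r' h3 h4)
      · exact hcop r hr
  have hUi : (circulantGraph D).IsIndepSet (U : Set (ZMod n)) := by
    rw [indep_iff hD]
    intro x hx y hy hxy
    rw [Finset.mem_coe, hUm] at hx hy
    have hsame : ∀ t : ZMod n, dset x t ⊆ P → dset y t ⊆ P → x - y ∉ D := by
      intro t h1 h2
      rw [mem_iff_ft hc]
      refine hPft _ ?_ ?_
      · rw [dset_comm y t] at h2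
        exact (dset_trans x t y).trans (Finset.union_subset h1 h2)
      · rw [Finset.nonempty_iff_ne_empty]
        intro h
        exact hxy (dset_empty_iff.1 h)
    rcases hx with hx | hx <;> rcases hy with hy | hy
    · exact hsame 0 hx hy
    · intro h
      have := hD.2 _ h
      rw [neg_sub] at this
      exact hcross x y hx hy this
    · exact hcross y x hy hx
    · exact hsame z' hx hy
  obtain ⟨M, hUM, hMc, hM⟩ := cyl_max hD hc hPft hUi hcyl
  have h0M : (0 : ZMod n) ∈ redS P M := by
    rw [mem_redS]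
    refine ⟨hUM ((hUm 0).2 (Or.inl ?_)), fun r _ => dig_zero r.1⟩
    rw [dset_empty_iff.2 rfl]
    exact Finset.empty_subset _
  have hzM : z' ∈ redS P M := by
    rw [mem_redS]
    refine ⟨hUM ((hUm z').2 (Or.inr ?_)), hz'P⟩
    rw [dset_empty_iff.2 rfl]
    exact Finset.empty_subset _
  have hz'0 : z' ≠ 0 := by
    rintro rfl
    exact hz'q (dig_zero q.1)
  intro k
  have h1 := shift_of_cyl hD hG hp hMc hM h0M (not_dvd_card_redS hD hG hp hMc hM) hzM hz'0 k
  have h2 := level_dvd_mul_congr hlev (p ^ k)
  constructor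
  · rw [mem_congr hc h2]
    exact h1.1
  · intro h3
    apply h1.2
    rw [eq_zero_iff_levels] at h3 ⊢
    intro r
    exact (h2 r).1 (h3 r)

/-- the shift theorem -/
theorem mm_all {p : ℕ} (hp : p.Prime) : ∀ (j : ℕ) (D : Set (ZMod n)), Conn D →
    IsCIS (circulantGraph D) → ∀ q : Lv n, q.1 = p ^ (j + 1) → ft D {q} → MMat D p j := by
  intro j
  induction j using Nat.strong_induction_on with
  | _ j ih =>
    intro D hD hG q hq hqA
    refine mm_step hD hG hp hq hqA fun j' hj' q' hq' hB => ?_
    refine ih j' hj' (co D) (conn_co hD) (cis_co hD hG) q' hq' ?_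
    rw [ft_co (gcdClosed_of_cis hD hG) (Finset.singleton_nonempty q')]
    exact hB

end Pool.Agent.Cis
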