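import Pool.Agent.H.MP_1bdfda_lc.Viol

/-!
The pair property for sets with three elements, and the condition on triples.
-/

open scoped symmDiff

set_option linter.unusedSectionVars false

namespace Pool.Agent.Cis

namespace Pat

variable {A B : Type} [DecidableEq A] [DecidableEq B]

lemma cov_of_card_le_two {P : Pat A B} {X : Finset A} {Y : Finset B} (hX : X.card ≤ 2)
    (h : P.D X Y) : P.cov X Y := by
  have hX0 := P.D_nonempty h
  have h1 : 1 ≤ X.card := hX0.card_pos
  rcases Nat.lt_or_ge X.card 2 with h2 | h2
  · have : X.card = 1 := by omega
    obtain ⟨a, rfl⟩ := Finset.card_eq_one.1 this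
    refine ⟨a, by simp, a, by simp, ?_⟩
    rwa [Finset.pair_eq_singleton]
  · have : X.card = 2 := by omega
    obtain ⟨a, c, hac, rfl⟩ := Finset.card_eq_two.1 this
    exact ⟨a, by simp, c, by simp, h⟩

/-- no minimal violation with three elements -/
lemma no_three {P : Pat A B} (hN : P.ExtN) (hF : P.Fac) {X : Finset A} {Y : Finset B}
    (hD : P.D X Y) (hcov : ¬ P.cov X Y) (hmin2 : ∀ Y' ⊂ Y, P.D X Y' → P.cov X Y')
    (Z : A → Finset B) (hZY : ∀ j ∈ X, Z j ⊆ Y) (hZN : ∀ j ∈ X, P.N (X.erase j) (Z j))
    (hZj : ∀ j ∈ X, ∀ b ∈ Z j, P.gt j b) {x y z : A} (hxy : x ≠ y) (hxz : x ≠ z) (hyz : y ≠ z)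
    (hX : ∀ w, w ∈ X ↔ w = x ∨ w = y ∨ w = z) : False := by
  have hmin1 : ∀ X' ⊂ X, ∀ Y' ⊆ Y, P.D X' Y' → P.cov X' Y' := by
    intro X' hX' Y' _ h
    refine cov_of_card_le_two ?_ h
    have h1 := Finset.card_lt_card hX'
    have h2 : X.card = 3 := by
      rw [Finset.card_eq_three]
      refine ⟨x, y, z, hxy, hxz, hyz, ?_⟩
      ext w
      rw [hX w]
      simp
    omega
  -- different sets
  have hZne : ∀ j ∈ X, ∀ k ∈ X, j ≠ k → Z j ≠ Z k := by
    intro j hj k hk hjk h
    refine P.not_D_of_N (hZN k hk) (P.mono (X := {j}) ?_ subset_rfl ?_)
    · rw [Finset.singleton_subset_iff, Finset.mem_erase]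
      exact ⟨hjk, hj⟩
    · rw [hF.single, ← h]
      exact hZj j hj
  have main := viol hN hF hD hcov hmin1 hmin2 Z hZY hZN hZj
  -- at most one edge
  have one : ∀ x y z : A, x ≠ y → x ≠ z → y ≠ z → (∀ w, w ∈ X ↔ w = x ∨ w = y ∨ w = z) →
      ¬ P.J x z → ¬ P.J y z → P.J x y → Z x ∆ Z z ≠ Y → False := by
    intro x y z hxy hxz hyz hX h1 h2 h3 h4
    have h1' : ¬ P.J z x := fun h => h1 (J_symm h)
    have h2' : ¬ P.J z y := fun h => h2 (J_symm h)
    have hOz : ∀ w, w ≠ x → (fun w => if w = x then ({y} : Finset A) else ∅) w = ∅ := by
      intro w hw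
      simp [hw]
    refine main (fun w => if w = x then {y} else ∅) ?_ ?_ ?_ ?_ ?_
    · intro j hj m hm
      by_cases hjx : j = x
      · subst hjx
        simp only [if_true, Finset.mem_singleton] at hm
        subst hm
        exact ⟨(hX _).2 (Or.inr (Or.inl rfl)), h3⟩
      · simp [hjx] at hm
    · intro j hj k hk hJ
      rw [hX] at hj hk
      have hne := J_ne hJ
      rcases hj with rfl | rfl | rfl <;> rcases hk with rfl | rfl | rfl <;>
        first
        | exact absurd rfl hne
        | exact absurd hJ h1
        | exact absurd hJ h2
        | exact absurd hJ h1'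
        | exact absurd hJ h2'
        | (left; simp; done)
        | (right; simp; done)
    · intro j hj m hm l hl
      by_cases hjx : j = x
      · subst hjx
        simp only [if_true, Finset.mem_singleton] at hm hl
        rw [hm, hl]
      · simp [hjx] at hm
    · intro j hj k hk hjk m hm l hl
      exfalso
      by_cases hjx : j = x
      · by_cases hkx : k = x
        · exact hjk (hjx.trans hkx.symm)
        · simp [hkx] at hl
      · simp [hjx] at hm
    · intro j hj k hk hjk
      have hz : ∀ j k : A, j = x → k = y →
          insert j (if j = x then ({y} : Finset A) else ∅) ∆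
            insert k (if k = x then ({y} : Finset A) else ∅) ≠ X := by
        rintro j k rfl rfl h
        have : z ∈ X := (hX z).2 (Or.inr (Or.inr rfl))
        rw [← h, Finset.mem_symmDiff] at this
        simp only [if_true, Finset.mem_insert, Finset.mem_singleton, if_neg hxy.symm,
          Finset.notMem_empty, or_false] at this
        rcases this with ⟨h5 | h5, _⟩ | ⟨h5, _⟩
        · exact hxz h5.symm
        · exact hyz h5.symm
        · exact hyz h5.symm
      have hyzc : ∀ j k : A, j = y → k = z →
          insert j (if j = x then ({y} : Finset A) else ∅) ∆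
            insert k (if k = x then ({y} : Finset A) else ∅) ≠ X := by
        rintro j k rfl rfl h
        have : x ∈ X := (hX x).2 (Or.inl rfl)
        rw [← h, Finset.mem_symmDiff] at this
        simp only [if_neg hxy.symm, if_neg hxz.symm, Finset.mem_insert,
          Finset.notMem_empty, or_false] at this
        rcases this with ⟨h5, _⟩ | ⟨h5, _⟩
        · exact hxy h5
        · exact hxz h5
      rw [hX] at hj hk
      rcases hj with hj | hj | hj <;> rcases hk with hk | hk | hk
      · exact absurd (hj.trans hk.symm) hjk
      · exact Or.inl (hz j k hj hk)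
      · right; rw [hj, hk]; exact h4
      · left; rw [symmDiff_comm]; exact hz k j hk hj
      · exact absurd (hj.trans hk.symm) hjk
      · exact Or.inl (hyzc j k hj hk)
      · right; rw [hj, hk, symmDiff_comm]; exact h4
      · left; rw [symmDiff_comm]; exact hyzc k j hk hj
      · exact absurd (hj.trans hk.symm) hjk
  have one' : ∀ x y z : A, x ≠ y → x ≠ z → y ≠ z → (∀ w, w ∈ X ↔ w = x ∨ w = y ∨ w = z) →
      ¬ P.J x z → ¬ P.J y z → P.J x y → False := by
    intro x y z hxy hxz hyz hX h1 h2 h3
    by_cases h4 : Z x ∆ Z z = Y
    · refine one y x z hxy.symm hyz hxz (fun w => ?_) h2 h1 (J_symm h3) ?_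
      · rw [hX w]; tauto
      · intro h5
        rw [← h4] at h5
        have h6 : Z y = Z x := by
          have := congrArg (fun S => S ∆ Z z) h5
          simpa [symmDiff_assoc] using this
        exact hZne y ((hX y).2 (by simp)) x ((hX x).2 (by simp)) hxy.symm h6
    · exact one x y z hxy hxz hyz hX h1 h2 h3 h4
  -- two edges
  have two : ∀ x y z : A, x ≠ y → x ≠ z → y ≠ z → (∀ w, w ∈ X ↔ w = x ∨ w = y ∨ w = z) →
      P.J x y → P.J x z → ¬ P.J y z → False := by
    intro x y z hxy hxz hyz hX h1 h2 h3
    have h3' : ¬ P.J z y := fun h => h3 (J_symm h)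
    refine main (fun w => if w = x then ∅ else {x}) ?_ ?_ ?_ ?_ ?_
    · intro j hj m hm
      by_cases hjx : j = x
      · simp [hjx] at hm
      · simp only [if_neg hjx, Finset.mem_singleton] at hm
        subst hm
        rw [hX] at hj
        refine ⟨(hX _).2 (Or.inl rfl), ?_⟩
        rcases hj with rfl | rfl | rfl
        · exact absurd rfl hjx
        · exact J_symm h1
        · exact J_symm h2
    · intro j hj k hk hJ
      rw [hX] at hj hk
      have hne := J_ne hJ
      rcases hj with rfl | rfl | rfl <;> rcases hk with rfl | rfl | rfl <;>
        first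
        | exact absurd rfl hne
        | exact absurd hJ h3
        | exact absurd hJ h3'
        | (left; simp [hxy.symm]; done)
        | (left; simp [hxz.symm]; done)
        | (right; simp [hxy.symm]; done)
        | (right; simp [hxz.symm]; done)
    · intro j hj m hm l hl
      by_cases hjx : j = x
      · simp [hjx] at hm
      · simp only [if_neg hjx, Finset.mem_singleton] at hm hl
        rw [hm, hl]
    · intro j hj k hk hjk m hm l hl hmk hlj
      by_cases hjx : j = x
      · simp [hjx] at hm
      · by_cases hkx : k = x
        · simp [hkx] at hl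
        · simp only [if_neg hjx, if_neg hkx, Finset.mem_singleton] at hm hl
          subst hm
          subst hl
          exact fun h => J_ne h rfl
    · intro j hj k hk hjk
      left
      intro h
      have hx : x ∈ X := (hX x).2 (Or.inl rfl)
      by_cases hjx : j = x
      · -- j = x, k other
        have hkx : k ≠ x := fun h => hjk (hjx.trans h.symm)
        rw [← h, Finset.mem_symmDiff] at hx
        simp only [if_pos hjx, if_neg hkx, Finset.mem_insert, Finset.mem_singleton,
          Finset.notMem_empty, or_false] at hx
        rcases hx with ⟨_, h5⟩ | ⟨_, h5⟩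
        · exact h5 (Or.inr trivial)
        · exact h5 hjx.symm
      · by_cases hkx : k = x
        · rw [← h, Finset.mem_symmDiff] at hx
          simp only [if_neg hjx, if_pos hkx, Finset.mem_insert, Finset.mem_singleton,
            Finset.notMem_empty, or_false] at hx
          rcases hx with ⟨_, h5⟩ | ⟨_, h5⟩
          · exact h5 hkx.symm
          · exact h5 (Or.inr trivial)
        · rw [← h, Finset.mem_symmDiff] at hx
          simp only [if_neg hjx, if_neg hkx, Finset.mem_insert, Finset.mem_singleton,
            or_true, not_true, and_false, or_false] at hx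
  by_cases h12 : P.J x y
  · by_cases h13 : P.J x z
    · by_cases h23 : P.J y z
      · -- three edges: cyclic orientation
        refine main (fun w => if w = x then {y} else if w = y then {z} else {x}) ?_ ?_ ?_ ?_ ?_
        · intro j hj m hm
          rw [hX] at hj
          rcases hj with rfl | rfl | rfl
          · simp only [if_true, Finset.mem_singleton] at hm
            subst hm
            exact ⟨(hX _).2 (by simp), h12⟩
          · simp only [if_neg hxy.symm, if_true, Finset.mem_singleton] at hm
            subst hm
            exact ⟨(hX _).2 (by simp), h23⟩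
          · simp only [if_neg hxz.symm, if_neg hyz.symm, Finset.mem_singleton] at hm
            subst hm
            exact ⟨(hX _).2 (by simp), J_symm h13⟩
        · intro j hj k hk hJ
          rw [hX] at hj hk
          have hne := J_ne hJ
          rcases hj with rfl | rfl | rfl <;> rcases hk with rfl | rfl | rfl <;>
            first
            | exact absurd rfl hne
            | (left; simp [hxy.symm, hxz.symm, hyz.symm]; done)
            | (right; simp [hxy.symm, hxz.symm, hyz.symm]; done)
        · intro j hj m hm l hl
          rw [hX] at hj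
          rcases hj with rfl | rfl | rfl
          · simp only [if_true, Finset.mem_singleton] at hm hl
            rw [hm, hl]
          · simp only [if_neg hxy.symm, if_true, Finset.mem_singleton] at hm hl
            rw [hm, hl]
          · simp only [if_neg hxz.symm, if_neg hyz.symm, Finset.mem_singleton] at hm hl
            rw [hm, hl]
        · intro j hj k hk hjk m hm l hl hmk hlj hJ
          rw [hX] at hj hk
          have hne := J_ne hJ
          rcases hj with rfl | rfl | rfl <;> rcases hk with rfl | rfl | rfl <;>
            simp only [if_true, if_neg hxy.symm, if_neg hxz.symm, if_neg hyz.symm,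
              Finset.mem_singleton] at hm hl <;> subst hm <;> subst hl <;>
            first
            | exact hjk rfl
            | exact hmk rfl
            | exact hlj rfl
            | exact hne rfl
        · intro j hj k hk hjk
          left
          intro h
          have hx : x ∈ X := (hX x).2 (by simp)
          have hy : y ∈ X := (hX y).2 (by simp)
          have hz : z ∈ X := (hX z).2 (by simp)
          rw [← h, Finset.mem_symmDiff] at hx hy hz
          rw [hX] at hj hk
          rcases hj with rfl | rfl | rfl <;> rcases hk with rfl | rfl | rfl <;>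
            simp [hxy, hxz, hyz, hxy.symm, hxz.symm, hyz.symm] at hx hy hz
      · exact two x y z hxy hxz hyz hX h12 h13 h23
    · by_cases h23 : P.J y z
      · exact two y x z hxy.symm hyz hxz (fun w => by rw [hX w]; tauto) (J_symm h12) h23 h13
      · exact one' x y z hxy hxz hyz hX h13 h23 h12
  · by_cases h13 : P.J x z
    · by_cases h23 : P.J y z
      · exact two z x y hxz.symm hyz.symm hxy (fun w => by rw [hX w]; tauto) (J_symm h13)
          (J_symm h23) h12
      · exact one' x z y hxz hxy hyz.symm (fun w => by rw [hX w]; tauto) h12
          (fun h => h23 (J_symm h)) h13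
    · by_cases h23 : P.J y z
      · exact one' y z x hyz hxy.symm hxz.symm (fun w => by rw [hX w]; tauto)
          (fun h => h12 (J_symm h)) (fun h => h13 (J_symm h)) h23
      · -- no edges
        have hnoJ : ∀ j ∈ X, ∀ k ∈ X, ¬ P.J j k := by
          intro j hj k hk hJ
          rw [hX] at hj hk
          have hne := J_ne hJ
          rcases hj with rfl | rfl | rfl <;> rcases hk with rfl | rfl | rfl <;>
            first
            | exact hne rfl
            | exact h12 hJ
            | exact h13 hJ
            | exact h23 hJ
            | exact h12 (J_symm hJ)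
            | exact h13 (J_symm hJ)
            | exact h23 (J_symm hJ)
        refine main (fun _ => ∅) (by simp) ?_ (by simp) (by simp) ?_
        · intro j hj k hk hJ
          exact absurd hJ (hnoJ j hj k hk)
        · intro j hj k hk hjk
          left
          intro h
          have h1 : (insert j ∅ ∆ insert k ∅ : Finset A).card ≤ 2 := by
            have h2 : (insert j ∅ ∆ insert k ∅ : Finset A) ⊆ {j, k} := by
              intro w hw
              rw [Finset.mem_symmDiff] at hw
              simp only [Finset.mem_insert, Finset.notMem_empty, or_false,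
                Finset.mem_singleton] at hw ⊢
              tauto
            exact (Finset.card_le_card h2).trans Finset.card_le_two
          have h2 : X.card = 3 := by
            rw [Finset.card_eq_three]
            refine ⟨x, y, z, hxy, hxz, hyz, ?_⟩
            ext w
            rw [hX w]
            simp
          rw [h] at h1
          omega

/-- the pair property for at most three elements -/
theorem cov_three {P : Pat A B} (hN : P.ExtN) (hF : P.Fac) (hF' : P.dual.Fac) {X : Finset A}
    (hX : X.card ≤ 3) {Y : Finset B} (hD : P.D X Y) : P.cov X Y := by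
  rcases Nat.lt_or_ge X.card 3 with h3 | h3
  · exact cov_of_card_le_two (by omega) hD
  have hX3 : X.card = 3 := by omega
  induction Y using Finset.strongInduction with
  | H Y ih =>
    by_contra hcov
    obtain ⟨x, y, z, hxy, hxz, hyz, hXe⟩ := Finset.card_eq_three.1 hX3
    have hXm : ∀ w, w ∈ X ↔ w = x ∨ w = y ∨ w = z := by
      intro w
      rw [hXe]
      simp
    have hZ : ∀ j ∈ X, ∃ Z ⊆ Y, P.N (X.erase j) Z ∧ ∀ b ∈ Z, P.gt j b := by
      intro j hj
      have hcard : (X.erase j).card = 2 := by
        rw [Finset.card_erase_of_mem hj]; omega
      obtain ⟨k, l, hkl, he⟩ := Finset.card_eq_two.1 hcard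
      refine exists_Z hF' (by rwa [Finset.insert_erase hj]) ?_
      rw [he]
      refine cov_dual_pair hF (N_of_not_D' (by simp) fun h => hcov ?_)
      refine ⟨k, ?_, l, ?_, h⟩
      · exact Finset.mem_of_mem_erase (he ▸ Finset.mem_insert_self k {l})
      · exact Finset.mem_of_mem_erase (he ▸ Finset.mem_insert_of_mem (Finset.mem_singleton_self l))
    choose! Z hZ1 hZ2 hZ3 using hZ
    exact no_three hN hF hD hcov (fun Y' hY' h => ih Y' hY' h) Z hZ1 hZ2 hZ3 hxy hxz hyz hXm

end Pat

end Pool.Agent.Cis
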