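import Pool.Agent.H.MP_1bdfda_lc.Fac

/-!
The general witness: minimal violations of the pair property do not exist.
-/

open scoped symmDiff

set_option linter.unusedSectionVars false

namespace Pool.Agent.Cis

namespace Pat

variable {A B : Type} [DecidableEq A] [DecidableEq B]

/-- some pair of elements of `X` beats `Y` -/
def cov (P : Pat A B) (X : Finset A) (Y : Finset B) : Prop := ∃ a ∈ X, ∃ c ∈ X, P.D {a, c} Y

lemma N_of_not_D' {P : Pat A B} {X : Finset A} {Y : Finset B} (hX : X.Nonempty)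
    (h : ¬ P.D X Y) : P.N X Y := by
  by_contra h1
  exact h (P.D_of_not_N hX h1)

/-- the sets `Z j` -/
lemma exists_Z {P : Pat A B} (hF' : P.dual.Fac) {X : Finset A} {Y : Finset B} {j : A}
    (hD : P.D (insert j X) Y) (h : P.dual.cov Y X) :
    ∃ Z ⊆ Y, P.N X Z ∧ ∀ b ∈ Z, P.gt j b := by
  obtain ⟨b, hb, d, hd, hN⟩ := h
  have hN' : P.N X {b, d} := hN
  have hsub : ({b, d} : Finset B) ⊆ Y := by
    intro x hx
    rw [Finset.mem_insert, Finset.mem_singleton] at hx
    rcases hx with rfl | rfl <;> assumption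
  have hD' : P.D (insert j X) {b, d} := P.mono subset_rfl hsub hD
  have hDn : ¬ P.dual.D {b, d} (insert j X) := fun h => P.not_N_of_D hD' h
  by_cases hJ : P.dual.J b d
  · refine ⟨{b, d}, hsub, hN', ?_⟩
    rw [hF'.pairJ b d _ hJ] at hN hDn
    have h1 : ¬ (P.dual.gt b j ∨ P.dual.gt d j) := by
      intro h2
      apply hDn
      intro x hx
      rw [Finset.mem_insert] at hx
      rcases hx with rfl | hx
      · exact h2
      · exact hN x hx
    rw [gt_dual, gt_dual] at h1
    push Not at h1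
    intro x hx
    rw [Finset.mem_insert, Finset.mem_singleton] at hx
    rcases hx with rfl | rfl
    · exact h1.1
    · exact h1.2
  · rw [hF'.pairN b d _ hJ] at hN
    have key : ∀ e ∈ Y, (∀ x ∈ X, P.dual.gt e x) → ∃ Z ⊆ Y, P.N X Z ∧ ∀ b ∈ Z, P.gt j b := by
      intro e he h1
      refine ⟨{e}, Finset.singleton_subset_iff.2 he, (hF'.single e X).2 h1, ?_⟩
      intro x hx
      rw [Finset.mem_singleton] at hx
      subst hx
      have h2 : ¬ P.dual.D {x} (insert j X) := fun h =>
        P.not_N_of_D (P.mono subset_rfl (Finset.singleton_subset_iff.2 he) hD) h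
      rw [hF'.single] at h2
      by_contra h3
      apply h2
      intro y hy
      rw [Finset.mem_insert] at hy
      rcases hy with rfl | hy
      · exact (gt_dual P y x).2 h3
      · exact h1 y hy
    rcases hN with h1 | h1
    · exact key b hb h1
    · exact key d hd h1

/-- the dual pair property for pairs -/
lemma cov_dual_pair {P : Pat A B} (hF : P.Fac) {k l : A} {Y : Finset B} (h : P.N {k, l} Y) :
    P.dual.cov Y {k, l} := by
  have hD := P.not_D_of_N h
  by_cases hJ : P.J k l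
  · rw [hF.pairJ k l _ hJ] at hD
    push Not at hD
    obtain ⟨b, hb, h1, h2⟩ := hD
    refine ⟨b, hb, b, hb, ?_⟩
    rw [Finset.pair_eq_singleton]
    refine P.N_of_not_D (by simp) ?_
    rw [hF.pairJ k l _ hJ]
    intro h3
    rcases h3 b (by simp) with h4 | h4
    · exact h1 h4
    · exact h2 h4
  · rw [hF.pairN k l _ hJ] at hD
    push Not at hD
    obtain ⟨⟨b, hb, h1⟩, ⟨d, hd, h2⟩⟩ := hD
    refine ⟨b, hb, d, hd, ?_⟩
    refine P.N_of_not_D (by simp) ?_
    rw [hF.pairN k l _ hJ]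
    rintro (h3 | h3)
    · exact h1 (h3 b (by simp))
    · exact h2 (h3 d (by simp))

/-- the basic witness -/
lemma witness {P : Pat A B} (hN : P.ExtN) {X : Finset A} {Y : Finset B} (hD : P.D X Y)
    (hY : Y.Nonempty) (Z : A → Finset B) (U : A → Finset A) (hZ : ∀ j ∈ X, (Z j).Nonempty)
    (hZj : ∀ j ∈ X, P.D {j} (Z j)) (hU : ∀ j ∈ X, j ∈ U j)
    (h1 : ∀ j ∈ X, P.N (U j) (Y \ Z j))
    (h2 : ∀ j ∈ X, ∀ k ∈ X, j ≠ k → P.N (U j ∆ U k) (Z j ∆ Z k)) : False := by
  have hsub : ∀ V W : Finset A, (X \ V) ∆ (X \ W) ⊆ V ∆ W := by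
    intro V W x hx
    simp only [Finset.mem_symmDiff, Finset.mem_sdiff] at hx ⊢
    tauto
  obtain ⟨T, hT⟩ := hN (insert (X, Y) (X.image fun j => (X \ U j, Z j))) (by
    intro p hp
    rw [Finset.mem_insert, Finset.mem_image] at hp
    rcases hp with rfl | ⟨j, hj, rfl⟩
    · exact hY
    · exact hZ j hj) (by
    intro p hp q hq hpq
    rw [Finset.mem_insert, Finset.mem_image] at hp hq
    have key : ∀ j ∈ X, P.N (X ∆ (X \ U j)) (Y ∆ Z j) := by
      intro j hj
      refine P.monoN ?_ ?_ (h1 j hj)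
      · intro x hx
        simp only [Finset.mem_symmDiff, Finset.mem_sdiff, not_and, not_not] at hx
        rcases hx with ⟨h3, h4⟩ | ⟨⟨h3, _⟩, h5⟩
        · exact h4 h3
        · exact absurd h3 h5
      · intro x hx
        simp only [Finset.mem_symmDiff, Finset.mem_sdiff] at hx ⊢
        tauto
    rcases hp with rfl | ⟨j, hj, rfl⟩
    · rcases hq with rfl | ⟨k, hk, rfl⟩
      · exact absurd rfl hpq
      · exact key k hk
    · rcases hq with rfl | ⟨k, hk, rfl⟩
      · have := key j hj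
        rwa [symmDiff_comm, symmDiff_comm Y] at this
      · have hjk : j ≠ k := by
          rintro rfl
          exact hpq rfl
        exact P.monoN (hsub _ _) subset_rfl (h2 j hj k hk hjk))
  have h3 := hT (X, Y) (Finset.mem_insert_self _ _)
  have h4 : ∀ j ∈ X, P.N (T ∆ (X \ U j)) (Z j) := fun j hj =>
    hT (X \ U j, Z j) (Finset.mem_insert_of_mem (Finset.mem_image.2 ⟨j, hj, rfl⟩))
  refine P.not_D_of_N h3 (P.mono ?_ subset_rfl hD)
  intro j hj
  rw [Finset.mem_symmDiff]
  refine Or.inr ⟨hj, fun hjT => ?_⟩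
  refine P.not_D_of_N (h4 j hj) (P.mono ?_ subset_rfl (hZj j hj))
  intro x hx
  rw [Finset.mem_singleton] at hx
  subst hx
  rw [Finset.mem_symmDiff]
  refine Or.inl ⟨hjT, ?_⟩
  simp only [Finset.mem_sdiff, not_and, not_not]
  intro _
  exact hU x hj

/-- the general witness with an orientation `O` of the joined pairs of `X` -/
lemma viol {P : Pat A B} (hN : P.ExtN) (hF : P.Fac) {X : Finset A} {Y : Finset B} (hD : P.D X Y)
    (hcov : ¬ P.cov X Y)
    (hmin1 : ∀ X' ⊂ X, ∀ Y' ⊆ Y, P.D X' Y' → P.cov X' Y')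
    (hmin2 : ∀ Y' ⊂ Y, P.D X Y' → P.cov X Y')
    (Z : A → Finset B) (hZY : ∀ j ∈ X, Z j ⊆ Y) (hZN : ∀ j ∈ X, P.N (X.erase j) (Z j))
    (hZj : ∀ j ∈ X, ∀ b ∈ Z j, P.gt j b)
    (O : A → Finset A) (o1 : ∀ j ∈ X, ∀ m ∈ O j, m ∈ X ∧ P.J j m)
    (o2 : ∀ j ∈ X, ∀ k ∈ X, P.J j k → k ∈ O j ∨ j ∈ O k)
    (o3 : ∀ j ∈ X, ∀ m ∈ O j, ∀ l ∈ O j, m = l)
    (o4 : ∀ j ∈ X, ∀ k ∈ X, j ≠ k → ∀ m ∈ O j, ∀ l ∈ O k, m ≠ k → l ≠ j → ¬ P.J m l)
    (o5 : ∀ j ∈ X, ∀ k ∈ X, j ≠ k → insert j (O j) ∆ insert k (O k) ≠ X ∨ Z j ∆ Z k ≠ Y) :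
    False := by
  have hYn : Y.Nonempty := by
    rw [Finset.nonempty_iff_ne_empty]
    rintro rfl
    obtain ⟨a, ha⟩ := P.D_nonempty hD
    exact hcov ⟨a, ha, a, ha, P.D_empty (by simp)⟩
  -- no pair of `X.erase k` beats `Z k`
  have hZn : ∀ k ∈ X, ∀ m ∈ X, ∀ l ∈ X, m ≠ k → l ≠ k → ¬ P.D {m, l} (Z k) := by
    intro k hk m hm l hl hmk hlk h
    refine P.not_D_of_N (hZN k hk) (P.mono ?_ subset_rfl h)
    intro x hx
    rw [Finset.mem_insert, Finset.mem_singleton] at hx
    rw [Finset.mem_erase]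
    rcases hx with rfl | rfl
    · exact ⟨hmk, hm⟩
    · exact ⟨hlk, hl⟩
  have hZ1 : ∀ k ∈ X, ∀ m ∈ X, m ≠ k → ¬ ∀ b ∈ Z k, P.gt m b := by
    intro k hk m hm hmk h
    refine hZn k hk m hm m hm hmk hmk ?_
    rw [Finset.pair_eq_singleton, hF.single]
    exact h
  have hZJ : ∀ k ∈ X, ∀ m ∈ X, ∀ l ∈ X, m ≠ k → l ≠ k → P.J m l →
      ¬ ∀ b ∈ Z k, P.gt m b ∨ P.gt l b := by
    intro k hk m hm l hl hmk hlk hJ h
    exact hZn k hk m hm l hl hmk hlk ((hF.pairJ m l _ hJ).2 h)
  -- single coverage of `Z j ∆ Z k`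
  have single : ∀ j ∈ X, ∀ k ∈ X, j ≠ k → ∀ m, (m = j ∨ m ∈ O j ∨ m = k ∨ m ∈ O k) →
      ¬ ∀ b ∈ Z j ∆ Z k, P.gt m b := by
    have aux : ∀ j ∈ X, ∀ k ∈ X, j ≠ k → ∀ m, (m = j ∨ m ∈ O j) → m ≠ k →
        ¬ ∀ b ∈ Z j ∆ Z k, P.gt m b := by
      intro j hj k hk hjk m hm hmk h
      rcases hm with rfl | hm
      · refine hZ1 k hk m hj hjk fun b hb => ?_
        by_cases hbj : b ∈ Z m
        · exact hZj m hj b hbj
        · exact h b (Finset.mem_symmDiff.2 (Or.inr ⟨hb, hbj⟩))
      · obtain ⟨hmX, hJ⟩ := o1 j hj m hm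
        refine hZJ k hk j hj m hmX hjk hmk hJ fun b hb => ?_
        by_cases hbj : b ∈ Z j
        · exact Or.inl (hZj j hj b hbj)
        · exact Or.inr (h b (Finset.mem_symmDiff.2 (Or.inr ⟨hb, hbj⟩)))
    intro j hj k hk hjk m hm h
    by_cases hmk : m = k
    · subst hmk
      refine aux m hk j hj hjk.symm m (Or.inl rfl) hjk.symm ?_
      rwa [symmDiff_comm]
    by_cases hmj : m = j
    · subst hmj
      exact aux m hj k hk hjk m (Or.inl rfl) hmk h
    rcases hm with h1 | h1 | h1 | h1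
    · exact hmj h1
    · exact aux j hj k hk hjk m (Or.inr h1) hmk h
    · exact hmk h1
    · refine aux k hk j hj hjk.symm m (Or.inr h1) hmj ?_
      rwa [symmDiff_comm]
  -- a joined pair containing exactly `j`
  have joined : ∀ j ∈ X, ∀ k ∈ X, j ≠ k → ∀ l ∈ X, l ≠ k → P.J j l →
      ¬ ∀ b ∈ Z j ∆ Z k, P.gt j b ∨ P.gt l b := by
    intro j hj k hk hjk l hl hlk hJ h
    refine hZJ k hk j hj l hl hjk hlk hJ fun b hb => ?_
    by_cases hbj : b ∈ Z j
    · exact Or.inl (hZj j hj b hbj)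
    · exact h b (Finset.mem_symmDiff.2 (Or.inr ⟨hb, hbj⟩))
  have hUX : ∀ j ∈ X, ∀ m ∈ insert j (O j), m ∈ X := by
    intro j hj m hm
    rw [Finset.mem_insert] at hm
    rcases hm with rfl | hm
    · exact hj
    · exact (o1 j hj m hm).1
  refine witness hN hD hYn Z (fun j => insert j (O j)) ?_ ?_
    (fun j _ => Finset.mem_insert_self _ _) ?_ ?_
  · intro j hj
    exact P.N_nonempty (hZN j hj)
  · intro j hj
    rw [hF.single]
    exact hZj j hj
  · -- first condition
    intro j hj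
    refine N_of_not_D' (Finset.insert_nonempty _ _) fun h => hcov ?_
    rcases (O j).eq_empty_or_nonempty with h0 | ⟨m, hm⟩
    · refine ⟨j, hj, j, hj, ?_⟩
      simp only [h0, insert_empty_eq] at h
      rw [Finset.pair_eq_singleton, hF.single]
      rw [hF.single] at h
      intro b hb
      by_cases hbj : b ∈ Z j
      · exact hZj j hj b hbj
      · exact h b (Finset.mem_sdiff.2 ⟨hb, hbj⟩)
    · have hO : insert j (O j) = {j, m} := by
        ext x
        simp only [Finset.mem_insert, Finset.mem_singleton]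
        constructor
        · rintro (h1 | h1)
          · exact Or.inl h1
          · exact Or.inr (o3 j hj x h1 m hm)
        · rintro (h1 | h1)
          · exact Or.inl h1
          · exact Or.inr (h1 ▸ hm)
      simp only [hO] at h
      obtain ⟨hmX, hJ⟩ := o1 j hj m hm
      refine ⟨j, hj, m, hmX, ?_⟩
      rw [hF.pairJ j m _ hJ] at h ⊢
      intro b hb
      by_cases hbj : b ∈ Z j
      · exact Or.inl (hZj j hj b hbj)
      · exact h b (Finset.mem_sdiff.2 ⟨hb, hbj⟩)
  · -- second condition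
    intro j hj k hk hjk
    have hne : (Z j ∆ Z k).Nonempty := by
      rw [Finset.nonempty_iff_ne_empty]
      intro h
      rw [← Finset.bot_eq_empty, symmDiff_eq_bot] at h
      exact hZ1 k hk j hj hjk (h ▸ hZj j hj)
    refine P.N_of_not_D hne fun h => ?_
    have hSX : insert j (O j) ∆ insert k (O k) ⊆ X := by
      intro x hx
      rw [Finset.mem_symmDiff] at hx
      rcases hx with hx | hx
      · exact hUX j hj x hx.1
      · exact hUX k hk x hx.1
    have hZsub : Z j ∆ Z k ⊆ Y := by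
      intro x hx
      rw [Finset.mem_symmDiff] at hx
      rcases hx with hx | hx
      · exact hZY j hj hx.1
      · exact hZY k hk hx.1
    have hc : P.cov (insert j (O j) ∆ insert k (O k)) (Z j ∆ Z k) := by
      by_cases hS : insert j (O j) ∆ insert k (O k) = X
      · have h5 := (o5 j hj k hk hjk).resolve_left (fun h => h hS)
        rw [hS] at h ⊢
        exact hmin2 _ (hZsub.ssubset_of_ne h5) h
      · exact hmin1 _ (hSX.ssubset_of_ne hS) _ hZsub h
    obtain ⟨m, hm, l, hl, hml⟩ := hc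
    have hmem : ∀ w, w ∈ insert j (O j) ∆ insert k (O k) →
        w = j ∨ w ∈ O j ∨ w = k ∨ w ∈ O k := by
      intro w hw
      rw [Finset.mem_symmDiff, Finset.mem_insert, Finset.mem_insert] at hw
      rcases hw with ⟨h1 | h1, _⟩ | ⟨h1 | h1, _⟩
      · exact Or.inl h1
      · exact Or.inr (Or.inl h1)
      · exact Or.inr (Or.inr (Or.inl h1))
      · exact Or.inr (Or.inr (Or.inr h1))
    have hm' := hmem m hm
    have hl' := hmem l hl
    by_cases hJ : P.J m l
    · rw [hF.pairJ m l _ hJ] at hml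
      have hmX := hSX hm
      have hlX := hSX hl
      have hjkS : ∀ u v, u ∈ insert j (O j) ∆ insert k (O k) →
          v ∈ insert j (O j) ∆ insert k (O k) → u = j → v = k → P.J u v → False := by
        rintro u v hu hv rfl rfl hJuv
        rw [Finset.mem_symmDiff] at hu hv
        rcases o2 u hj v hk hJuv with h1 | h1
        · rcases hv with ⟨_, h3⟩ | ⟨_, h3⟩
          · exact h3 (Finset.mem_insert_self _ _)
          · exact h3 (Finset.mem_insert_of_mem h1)
        · rcases hu with ⟨_, h3⟩ | ⟨_, h3⟩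
          · exact h3 (Finset.mem_insert_of_mem h1)
          · exact h3 (Finset.mem_insert_self _ _)
      by_cases hmj : m = j
      · subst hmj
        by_cases hlk : l = k
        · exact hjkS m l hm hl rfl hlk hJ
        · exact joined m hj k hk hjk l hlX hlk hJ hml
      by_cases hmk : m = k
      · subst hmk
        by_cases hlj : l = j
        · exact hjkS l m hl hm hlj rfl (J_symm hJ)
        · refine joined m hk j hj hjk.symm l hlX hlj hJ ?_
          rwa [symmDiff_comm]
      by_cases hlj : l = j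
      · subst hlj
        refine joined l hj k hk hjk m hmX hmk (J_symm hJ) fun b hb => (hml b hb).symm
      by_cases hlk : l = k
      · subst hlk
        refine joined l hk j hj hjk.symm m hmX hmj (J_symm hJ) fun b hb => ?_
        rw [symmDiff_comm] at hb
        exact (hml b hb).symm
      -- both outside
      have hout : ∀ w, (w = j ∨ w ∈ O j ∨ w = k ∨ w ∈ O k) → w ≠ j → w ≠ k →
          w ∈ O j ∨ w ∈ O k := by
        intro w hw h1 h2
        rcases hw with h3 | h3 | h3 | h3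
        · exact absurd h3 h1
        · exact Or.inl h3
        · exact absurd h3 h2
        · exact Or.inr h3
      have hmO := hout m hm' hmj hmk
      have hlO := hout l hl' hlj hlk
      have hml' := J_ne hJ
      rcases hmO with h1 | h1 <;> rcases hlO with h2 | h2
      · exact hml' (o3 j hj m h1 l h2)
      · exact o4 j hj k hk hjk m h1 l h2 hmk hlj hJ
      · exact o4 j hj k hk hjk l h2 m h1 hlk hmj (J_symm hJ)
      · exact hml' (o3 k hk m h1 l h2)
    · rw [hF.pairN m l _ hJ] at hml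
      rcases hml with h1 | h1
      · exact single j hj k hk hjk m hm' h1
      · exact single j hj k hk hjk l hl' h1

end Pat

end Pool.Agent.Cis
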